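import Pool.Agent.W845.Half

/-! The function `a ↦ exp (-a)` on `[0, ∞]`. -/

set_option autoImplicit false

namespace Pool.Agent.W845.Traps

open MeasureTheory ProbabilityTheory Filter Topology
open scoped ENNReal NNReal

/-- `exp (-a)` for `a ∈ [0, ∞]` -/
noncomputable def En (a : ℝ≥0∞) : ℝ≥0∞ := EReal.exp (-(a : EReal))

theorem En_zero : En 0 = 1 := by unfold En; simp

theorem En_top : En ∞ = 0 := by unfold En; simp

theorem En_ofReal {r : ℝ} (hr : 0 ≤ r) : En (ENNReal.ofReal r) = ENNReal.ofReal (Real.exp (-r)) := by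
  unfold En
  rw [EReal.coe_ennreal_ofReal, max_eq_left hr, ← EReal.coe_neg, EReal.exp_coe]

theorem En_add (a b : ℝ≥0∞) : En (a + b) = En a * En b := by
  unfold En
  rw [← EReal.exp_add, EReal.coe_ennreal_add, EReal.neg_add]
  · rfl
  · left; exact EReal.coe_ennreal_ne_bot a
  · right; exact EReal.coe_ennreal_ne_bot b

theorem En_anti : Antitone En := by
  intro a b h
  unfold En
  apply EReal.exp_monotone
  rw [EReal.neg_le_neg_iff]
  exact_mod_cast h

theorem En_le_one (a : ℝ≥0∞) : En a ≤ 1 := by
  rw [← En_zero]; exact En_anti zero_le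

theorem En_cont : Continuous En := by
  unfold En
  exact ENNReal.continuous_exp.comp (continuous_neg.comp continuous_coe_ennreal_ereal)

theorem En_meas : Measurable En := En_cont.measurable

theorem En_ee {θ : ℝ} (hθ : 0 ≤ θ) (m : ℕ) : En (ENNReal.ofReal θ * m) = ee θ m := by
  unfold ee
  rw [← ENNReal.ofReal_natCast, ← ENNReal.ofReal_mul hθ, En_ofReal (by positivity)]

theorem En_sum {ι : Type*} (s : Finset ι) (f : ι → ℝ≥0∞) :
    En (∑ i ∈ s, f i) = ∏ i ∈ s, En (f i) := by
  classical
  induction s using Finset.induction_on with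
  | empty => simp [En_zero]
  | insert a s ha ih => rw [Finset.sum_insert ha, Finset.prod_insert ha, En_add, ih]

theorem En_pos {a : ℝ≥0∞} (ha : a ≠ ∞) : 0 < En a := by
  rw [← ENNReal.ofReal_toReal ha, En_ofReal ENNReal.toReal_nonneg]
  exact ENNReal.ofReal_pos.2 (Real.exp_pos _)

/-- Lipschitz bound -/
theorem En_lip (a b : ℝ≥0∞) : En a ≤ En b + (b - a) := by
  rcases le_total b a with h | h
  · exact (En_anti h).trans (le_add_right le_rfl)
  · by_cases ha : a = ∞
    · subst ha; rw [En_top]; exact zero_le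
    by_cases hb : b = ∞
    · subst hb
      rw [ENNReal.top_sub ha]
      simp
    · have h1 : a.toReal ≤ b.toReal := ENNReal.toReal_mono hb h
      rw [← ENNReal.ofReal_toReal ha, ← ENNReal.ofReal_toReal hb, En_ofReal ENNReal.toReal_nonneg,
        En_ofReal ENNReal.toReal_nonneg, ← ENNReal.ofReal_sub _ ENNReal.toReal_nonneg,
        ← ENNReal.ofReal_add (Real.exp_pos _).le (by linarith)]
      apply ENNReal.ofReal_le_ofReal
      have h2 : Real.exp (-b.toReal) ≥ Real.exp (-a.toReal) * (1 + (a.toReal - b.toReal)) := by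
        have h3 : Real.exp (-b.toReal) = Real.exp (-a.toReal) * Real.exp (a.toReal - b.toReal) := by
          rw [← Real.exp_add]; ring_nf
        rw [h3]
        have := Real.add_one_le_exp (a.toReal - b.toReal)
        have h4 := Real.exp_pos (-a.toReal)
        nlinarith
      have h5 : Real.exp (-a.toReal) ≤ 1 := by
        rw [Real.exp_le_one_iff]; linarith [ENNReal.toReal_nonneg (a := a)]
      nlinarith [Real.exp_pos (-a.toReal)]

end Pool.Agent.W845.Traps
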