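import Pool.Agent.W845.Laplace

/-! The annealed formula on a grid: averaging over the traps. -/

set_option autoImplicit false
set_option linter.unusedSectionVars false

namespace Pool.Agent.W845.Traps

open MeasureTheory ProbabilityTheory Filter Topology
open scoped ENNReal NNReal

universe u

section

variable {Ω : Type u} [MeasurableSpace Ω] {P : Measure Ω} [IsProbabilityMeasure P]
  {κ ρ ν : ℝ≥0} {X : ℝ≥0 → Ω → Fin 3 → ℤ} {N : (Fin 3 → ℤ) → Ω → ℕ}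
  {Y : (Fin 3 → ℤ) → ℕ → ℝ≥0 → Ω → Fin 3 → ℤ}

/-- the grid path of the walk -/
def gr (X : ℝ≥0 → Ω → Fin 3 → ℤ) (h : ℝ≥0) (ω : Ω) (k : ℕ) : Fin 3 → ℤ := X (k * h) ω

omit [MeasurableSpace Ω] in
theorem hits_congr (h : ℝ≥0) (m : ℕ) (x x' : ℕ → Fin 3 → ℤ) (hx : ∀ k ≤ m, x k = x' k) (ω : Ω) :
    hits N Y h m x ω = hits N Y h m x' ω := by
  unfold hits
  refine tsum_congr fun y => Finset.sum_congr rfl fun j _ => ?_
  rw [cnt_congr (gw (Y y j) h) (gw (Y y j) h) x x' m y ω ω (fun _ _ => rfl) hx]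

theorem bet_congr (θ : ℝ) (W : ℝ≥0 → Ω → Fin 3 → ℤ) (h : ℝ≥0) (m : ℕ) (x x' : ℕ → Fin 3 → ℤ)
    (hx : ∀ k ≤ m, x k = x' k) (y : Fin 3 → ℤ) : bet P θ W h m x y = bet P θ W h m x' y := by
  unfold bet
  refine lintegral_congr fun ω => ?_
  rw [cnt_congr (gw W h) (gw W h) x x' m y ω ω (fun _ _ => rfl) hx]

theorem annealed_grid (hT : TrapModel P κ ρ ν X N Y) {θ : ℝ} (hθ : 0 ≤ θ) (h : ℝ≥0) (m : ℕ)
    (Φ : (ℕ → Fin 3 → ℤ) → ℝ≥0∞)
    (hΦ : ∀ x x' : ℕ → Fin 3 → ℤ, (∀ k ≤ m, x k = x' k) → Φ x = Φ x') :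
    ∫⁻ ω, Φ (gr X h ω) * En (ENNReal.ofReal θ * hits N Y h m (gr X h ω) ω) ∂P =
      ∫⁻ ω, Φ (gr X h ω) * En (ν * ∑' y, (1 - bet P θ (Y 0 0) h m (gr X h ω) y)) ∂P := by
  set g : Ω → Fin (m + 1) → Fin 3 → ℤ := fun ω k => X ((k : ℕ) * h) ω with hg
  have hgm : Measurable g := measurable_pi_lambda _ fun k => hT.walk.meas _
  have hge : ∀ ω, ∀ k ≤ m, gr X h ω k = ext (g ω) k := by
    intro ω k hk
    unfold ext
    rw [dif_pos (Nat.lt_succ_of_le hk)]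
    rfl
  have hcm := conf_meas hT
  set H : (Fin (m + 1) → Fin 3 → ℤ) × Conf → ℝ≥0∞ := fun q =>
    Φ (ext q.1) * En (ENNReal.ofReal θ * hits N₀ Y₀ h m (ext q.1) q.2) with hH
  have hEm : ∀ a : Fin (m + 1) → Fin 3 → ℤ,
      Measurable fun p : Conf => En (ENNReal.ofReal θ * hits N₀ Y₀ h m (ext a) p) := fun a =>
    En_meas.comp ((hits_meas N₀_meas Y₀_meas h m (ext a)).const_mul _)
  have hHm : Measurable H := by
    refine measurable_from_prod_countable_right fun a => ?_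
    exact (hEm a).const_mul (Φ (ext a))
  have hind : IndepFun g (conf N Y) P := by
    have h1 := hT.indepX
    have h2 : Measurable fun w : ℝ≥0 → Fin 3 → ℤ => fun k : Fin (m + 1) => w ((k : ℕ) * h) :=
      measurable_pi_lambda _ fun k => measurable_pi_apply _
    exact h1.comp h2 measurable_id
  have h1 := hind.map_prod_eq_prod_map_map hgm.aemeasurable hcm.aemeasurable
  have e1 : ∀ ω, Φ (gr X h ω) * En (ENNReal.ofReal θ * hits N Y h m (gr X h ω) ω) =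
      H (g ω, conf N Y ω) := by
    intro ω
    simp only [hH]
    rw [hΦ _ _ (hge ω), hits_congr h m _ _ (hge ω)]
    rfl
  simp_rw [e1]
  rw [← lintegral_map hHm (hgm.prodMk hcm), h1, lintegral_prod _ hHm.aemeasurable,
    lintegral_map hHm.lintegral_prod_right' hgm]
  refine lintegral_congr fun ω => ?_
  simp only [hH]
  rw [lintegral_const_mul _ (hEm (g ω)), lintegral_map (hEm (g ω)) hcm, hΦ _ _ (hge ω)]
  congr 1
  have e2 := laplace hT hθ h m (ext (g ω))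
  have e3 : ∀ y, bet P θ (Y 0 0) h m (gr X h ω) y = bet P θ (Y 0 0) h m (ext (g ω)) y :=
    fun y => bet_congr θ _ h m _ _ (hge ω) y
  simp_rw [e3]
  rw [← e2]
  rfl

theorem annealed_Cn (hT : TrapModel P κ ρ ν X N Y) {θ : ℝ} (hθ : 0 ≤ θ) (h : ℝ≥0) (n : ℕ)
    (Φ : (ℕ → Fin 3 → ℤ) → ℝ≥0∞)
    (hΦ : ∀ x x' : ℕ → Fin 3 → ℤ, (∀ k ≤ 2 * n, x k = x' k) → Φ x = Φ x') :
    ∫⁻ ω, Φ (gr X h ω) * En (ENNReal.ofReal θ * hits N Y h (2 * n) (gr X h ω) ω) ∂P =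
      ∫⁻ ω, Φ (gr X h ω) * En (ν * Cn P θ (Y 0 0) h n (gr X h ω)) ∂P := by
  rw [annealed_grid hT hθ h (2 * n) Φ hΦ]
  simp_rw [Cn_eq (hT.trap 0 0) hθ h n]

theorem Cn_congr (θ : ℝ) (W : ℝ≥0 → Ω → Fin 3 → ℤ) (h : ℝ≥0) (n : ℕ) (x x' : ℕ → Fin 3 → ℤ)
    (hx : ∀ k ≤ 2 * n, x k = x' k) : Cn P θ W h n x = Cn P θ W h n x' := by
  unfold Cn
  refine lintegral_congr fun ω => tsum_congr fun y => ?_
  rw [cnt_congr (gw W h) (gw W h) x x' (2 * n) y ω ω (fun _ _ => rfl) hx]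

/-- the effect of the reflection on a grid -/
theorem reflect_grid (hT : TrapModel P κ ρ ν X N Y) {θ : ℝ} (hθ : 0 ≤ θ) (h : ℝ≥0) (n : ℕ)
    (A : (ℕ → Fin 3 → ℤ) → Prop)
    (hA : ∀ x x' : ℕ → Fin 3 → ℤ, (∀ k ≤ 2 * n, x k = x' k) → (A x ↔ A x')) (D : ℝ≥0∞)
    (hD : ∀ x, A x → Cn P θ (Y 0 0) h n (refl n x) + D ≤ Cn P θ (Y 0 0) h n x) :
    ∫⁻ ω in {ω | A (gr X h ω)}, En (ENNReal.ofReal θ * hits N Y h (2 * n) (gr X h ω) ω) ∂P ≤
      En (ν * D) * ∫⁻ ω, En (ENNReal.ofReal θ * hits N Y h (2 * n) (gr X h ω) ω) ∂P := by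
  classical
  set Φ : (ℕ → Fin 3 → ℤ) → ℝ≥0∞ := fun x => if A x then 1 else 0 with hΦ
  have hΦc : ∀ x x' : ℕ → Fin 3 → ℤ, (∀ k ≤ 2 * n, x k = x' k) → Φ x = Φ x' := by
    intro x x' hx
    simp only [hΦ, hA x x' hx]
  have hgm : Measurable (fun ω (k : Fin (2 * n + 1)) => X ((k : ℕ) * h) ω) :=
    measurable_pi_lambda _ fun k => hT.walk.meas _
  have hAm : MeasurableSet {ω | A (gr X h ω)} := by
    have : {ω | A (gr X h ω)} = (fun ω (k : Fin (2 * n + 1)) => X ((k : ℕ) * h) ω) ⁻¹'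
        {a | A (ext a)} := by
      ext ω
      simp only [Set.mem_preimage, Set.mem_ofPred_eq]
      apply hA
      intro k hk
      unfold ext
      rw [dif_pos (Nat.lt_succ_of_le hk)]
      rfl
    rw [this]
    exact hgm MeasurableSet.of_discrete
  have e1 : ∫⁻ ω in {ω | A (gr X h ω)}, En (ENNReal.ofReal θ * hits N Y h (2 * n) (gr X h ω) ω) ∂P =
      ∫⁻ ω, Φ (gr X h ω) * En (ENNReal.ofReal θ * hits N Y h (2 * n) (gr X h ω) ω) ∂P := by
    rw [← lintegral_indicator hAm]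
    refine lintegral_congr fun ω => ?_
    simp only [Set.indicator_apply, Set.mem_ofPred_eq, hΦ]
    split_ifs <;> simp
  have e2 : ∫⁻ ω, En (ENNReal.ofReal θ * hits N Y h (2 * n) (gr X h ω) ω) ∂P =
      ∫⁻ ω, En (ν * Cn P θ (Y 0 0) h n (gr X h ω)) ∂P := by
    have := annealed_Cn hT hθ h n (fun _ => 1) (fun _ _ _ => rfl)
    simpa using this
  have e3 : ∫⁻ ω, En (ν * Cn P θ (Y 0 0) h n (gr X h ω)) ∂P =
      ∫⁻ ω, En (ν * Cn P θ (Y 0 0) h n (refl n (gr X h ω))) ∂P := by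
    refine (refl_lintegral hT.walk h n (2 * n) (by omega)
      (fun x => En (ν * Cn P θ (Y 0 0) h n x)) ?_).symm
    intro x x' hx
    rw [Cn_congr θ (Y 0 0) h n x x' hx]
  rw [e1, annealed_Cn hT hθ h n Φ hΦc, e2, e3]
  calc ∫⁻ ω, Φ (gr X h ω) * En (ν * Cn P θ (Y 0 0) h n (gr X h ω)) ∂P
      ≤ ∫⁻ ω, En (ν * D) * En (ν * Cn P θ (Y 0 0) h n (refl n (gr X h ω))) ∂P := by
        refine lintegral_mono fun ω => ?_
        by_cases hx : A (gr X h ω)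
        · simp only [hΦ, if_pos hx, one_mul]
          rw [← En_add, ← mul_add, add_comm]
          apply En_anti
          gcongr
          exact hD _ hx
        · simp only [hΦ, if_neg hx, zero_mul]
          exact zero_le
    _ ≤ _ := by
        rw [lintegral_const_mul']
        exact ne_top_of_le_ne_top ENNReal.one_ne_top (En_le_one _)

end

end Pool.Agent.W845.Traps
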