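import Pool.Agent.W845.Skor

/-! Brownian motion follows the tube with positive probability. -/

set_option autoImplicit false
set_option linter.unusedSectionVars false

namespace Pool.Agent.W845.Traps

open MeasureTheory ProbabilityTheory Filter Topology
open scoped ENNReal NNReal

universe v

/-- a dense sequence of times -/
noncomputable def qs (n : ℕ) : ℝ≥0 := TopologicalSpace.denseSeq ℝ≥0 n

theorem dense_qs : Dense (Set.range qs) := TopologicalSpace.denseRange_denseSeq ℝ≥0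

theorem ext_Icc {w : ℝ≥0 → ℝ} (hw : Continuous w) {C : Set ℝ} (hC : IsClosed C) {c d : ℝ≥0}
    (hcd : c < d) (h : ∀ n, c ≤ qs n → qs n ≤ d → w (qs n) ∈ C) :
    ∀ u, c ≤ u → u ≤ d → w u ∈ C := by
  intro u hu hu'
  have h1 : Set.Ioo c d ⊆ closure (Set.Ioo c d ∩ Set.range qs) :=
    dense_qs.open_subset_closure_inter isOpen_Ioo
  have h2 : closure (Set.Ioo c d ∩ Set.range qs) ⊆ w ⁻¹' C := by
    refine closure_minimal ?_ (hC.preimage hw)
    rintro _ ⟨h3, n, rfl⟩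
    exact h n h3.1.le h3.2.le
  have h4 : closure (Set.Ioo c d) ⊆ w ⁻¹' C :=
    closure_minimal (h1.trans h2) (hC.preimage hw)
  rw [closure_Ioo hcd.ne] at h4
  exact h4 ⟨hu, hu'⟩

theorem ext_Iic {w : ℝ≥0 → ℝ} (hw : Continuous w) {C : Set ℝ} (hC : IsClosed C) {a : ℝ≥0}
    (ha : 0 < a) (h : ∀ n, qs n ≤ a → w (qs n) ∈ C) : ∀ u ≤ a, w u ∈ C := fun u hu =>
  ext_Icc hw hC ha (fun n _ h2 => h n h2) u zero_le hu

/-- the one-dimensional event -/
def SS (σ r : ℝ) (a b c : ℝ≥0) (k : ℝ) : Set (ℝ≥0 → ℝ) :=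
  {w | (∀ n, qs n ≤ a → |σ * w (qs n)| ≤ r) ∧ |σ * w b - k| ≤ r + 1 ∧
    ∀ n, c ≤ qs n → qs n ≤ 1 → |σ * w (qs n) - 2 * k| ≤ 3 * r + 2}

theorem meas_abs_le {ι : Type*} (f : (ι → ℝ) → ℝ) (hf : Measurable f) (r : ℝ) :
    MeasurableSet {w : ι → ℝ | |f w| ≤ r} := by
  have h : Measurable fun w => |f w| := measurable_abs.comp hf
  exact measurableSet_le h measurable_const

theorem meas_all {α : Type*} [MeasurableSpace α] {p : ℕ → α → Prop}
    (h : ∀ n, MeasurableSet {w | p n w}) : MeasurableSet {w | ∀ n, p n w} := by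
  have : {w | ∀ n, p n w} = ⋂ n, {w | p n w} := by
    ext w
    simp only [Set.mem_ofPred_eq, Set.mem_iInter]
  rw [this]
  exact MeasurableSet.iInter h

theorem meas_imp {α : Type*} [MeasurableSpace α] {q : Prop} {p : q → α → Prop}
    (h : ∀ hq : q, MeasurableSet {w | p hq w}) : MeasurableSet {w | ∀ hq : q, p hq w} := by
  by_cases hq : q
  · have : {w | ∀ hq : q, p hq w} = {w | p hq w} := by
      ext w
      simp only [Set.mem_ofPred_eq]
      exact ⟨fun h => h hq, fun h _ => h⟩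
    rw [this]
    exact h hq
  · have : {w : α | ∀ hq : q, p hq w} = Set.univ := by
      ext w
      simp only [Set.mem_ofPred_eq, Set.mem_univ, iff_true]
      exact fun h => absurd h hq
    rw [this]
    exact MeasurableSet.univ

theorem meas_and {α : Type*} [MeasurableSpace α] {p q : α → Prop} (h1 : MeasurableSet {w | p w})
    (h2 : MeasurableSet {w | q w}) : MeasurableSet {w | p w ∧ q w} := h1.inter h2

theorem SS_meas (σ r : ℝ) (a b c : ℝ≥0) (k : ℝ) : MeasurableSet (SS σ r a b c k) := by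
  unfold SS
  refine meas_and (meas_all fun n => meas_imp fun _ => ?_) (meas_and ?_
    (meas_all fun n => meas_imp fun _ => meas_imp fun _ => ?_))
  · exact meas_abs_le (fun w : ℝ≥0 → ℝ => σ * w (qs n)) (by fun_prop) r
  · exact meas_abs_le (fun w : ℝ≥0 → ℝ => σ * w b - k) (by fun_prop) _
  · exact meas_abs_le (fun w : ℝ≥0 → ℝ => σ * w (qs n) - 2 * k) (by fun_prop) _

section

variable {Ω' : Type v} [MeasurableSpace Ω'] {P' : Measure Ω'} {B : ℝ≥0 → Ω' → ℝ}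

theorem ind_step (hB : IsPreBrownianReal B P') (s : ℝ≥0) {F : Set (Set.Iic s → ℝ)}
    (hF : MeasurableSet F) {G : Set (ℝ≥0 → ℝ)} (hG : MeasurableSet G) :
    P' ({ω | (fun t : Set.Iic s => B t ω) ∈ F} ∩ {ω | (fun t => B (s + t) ω - B s ω) ∈ G}) =
      P' {ω | (fun t : Set.Iic s => B t ω) ∈ F} *
        P' {ω | (fun t => B (s + t) ω - B s ω) ∈ G} := by
  rw [Set.inter_comm, mul_comm]
  exact (hB.indepFun_shift s).measure_inter_preimage_eq_mul G F hG hF

theorem gauss_pos {v : ℝ≥0} (hv : v ≠ 0) {σ : ℝ} (hσ : 0 < σ) (k : ℝ) :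
    0 < gaussianReal 0 v {x : ℝ | |σ * x - k| ≤ 1} := by
  rw [pos_iff_ne_zero]
  intro h0
  have h1 := gaussianReal_absolutelyContinuous' 0 hv h0
  have h2 : Set.Ioo ((k - 1) / σ) ((k + 1) / σ) ⊆ {x : ℝ | |σ * x - k| ≤ 1} := by
    rintro x ⟨h3, h4⟩
    rw [div_lt_iff₀ hσ] at h3
    rw [lt_div_iff₀ hσ] at h4
    show |σ * x - k| ≤ 1
    rw [abs_le]
    constructor <;> linarith
  have h5 := measure_mono_null h2 h1
  rw [Real.volume_Ioo, ENNReal.ofReal_eq_zero] at h5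
  have h6 : (k + 1) / σ - (k - 1) / σ = 2 / σ := by ring
  rw [h6] at h5
  have : 0 < 2 / σ := by positivity
  linarith

theorem incr_pos (hB : IsPreBrownianReal B P') {a b : ℝ≥0} (hab : a < b) {σ : ℝ} (hσ : 0 < σ)
    (k : ℝ) : 0 < P' {ω | |σ * (B b ω - B a ω) - k| ≤ 1} := by
  have h1 := (hB.shift a).hasLaw_eval (b - a)
  have h2 : gaussianReal 0 (b - a) {x : ℝ | |σ * x - k| ≤ 1} =
      P' {ω | |σ * (B b ω - B a ω) - k| ≤ 1} := by
    rw [← h1.map_eq, Measure.map_apply_of_aemeasurable h1.aemeasurable]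
    · rw [add_tsub_cancel_of_le hab.le]
      rfl
    · have : Measurable fun x : ℝ => |σ * x - k| := by fun_prop
      exact measurableSet_le this measurable_const
  rw [← h2]
  exact gauss_pos (tsub_pos_of_lt hab).ne' hσ k

theorem bm_one (hB : IsPreBrownianReal B P') {σ r : ℝ} (hσ : 0 < σ)
    (hr : 0 < P' {ω | ∀ u : ℝ≥0, u ≤ 1 → |σ * B u ω| ≤ r}) {a b c : ℝ≥0} (hab : a < b)
    (hbc : b < c) (hc : c ≤ 1) (k : ℝ) :
    0 < P' {ω | (fun s => B s ω) ∈ SS σ r a b c k} := by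
  set E1 : Set Ω' := {ω | |σ * B a ω| ≤ r ∧ ∀ n, qs n ≤ a → |σ * B (qs n) ω| ≤ r} with hE1
  set E2 : Set Ω' := {ω | |σ * (B b ω - B a ω) - k| ≤ 1} with hE2
  set E3 : Set Ω' := {ω | |σ * (B c ω - B b ω) - k| ≤ 1} with hE3
  set E4 : Set Ω' := {ω | ∀ n, c ≤ qs n → qs n ≤ 1 → |σ * (B (qs n) ω - B c ω)| ≤ 2 * r} with hE4
  have hac : a < c := hab.trans hbc
  -- inclusion
  have hsub : E1 ∩ (E2 ∩ (E3 ∩ E4)) ⊆ {ω | (fun s => B s ω) ∈ SS σ r a b c k} := by
    rintro ω ⟨⟨h1, h1'⟩, h2, h3, h4⟩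
    have h2' : |σ * (B b ω - B a ω) - k| ≤ 1 := h2
    have h3' : |σ * (B c ω - B b ω) - k| ≤ 1 := h3
    have h5 : |σ * B b ω - k| ≤ r + 1 := by
      have : σ * B b ω - k = (σ * (B b ω - B a ω) - k) + σ * B a ω := by ring
      rw [this]
      refine (abs_add_le _ _).trans ?_
      linarith
    refine ⟨h1', h5, fun n hn hn' => ?_⟩
    have h6 := h4 n hn hn'
    have : σ * B (qs n) ω - 2 * k = σ * (B (qs n) ω - B c ω) +
        ((σ * (B c ω - B b ω) - k) + (σ * B b ω - k)) := by ring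
    show |σ * B (qs n) ω - 2 * k| ≤ 3 * r + 2
    rw [this]
    refine (abs_add_le _ _).trans ?_
    have := abs_add_le (σ * (B c ω - B b ω) - k) (σ * B b ω - k)
    linarith
  -- independence at c
  have hP3 : P' (E3 ∩ E4) = P' E3 * P' E4 := by
    have hF : MeasurableSet {w : Set.Iic c → ℝ |
        |σ * (w ⟨c, Set.mem_Iic.2 le_rfl⟩ - w ⟨b, Set.mem_Iic.2 hbc.le⟩) - k| ≤ 1} :=
      meas_abs_le (fun w : Set.Iic c → ℝ =>
        σ * (w ⟨c, Set.mem_Iic.2 le_rfl⟩ - w ⟨b, Set.mem_Iic.2 hbc.le⟩) - k) (by fun_prop) _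
    have hG : MeasurableSet {w : ℝ≥0 → ℝ | ∀ n, c ≤ qs n → qs n ≤ 1 →
        |σ * w (qs n - c)| ≤ 2 * r} := by
      refine meas_all fun n => meas_imp fun _ => meas_imp fun _ => ?_
      exact meas_abs_le (fun w : ℝ≥0 → ℝ => σ * w (qs n - c)) (by fun_prop) _
    have h := ind_step hB c hF hG
    have e4 : {ω | (fun t => B (c + t) ω - B c ω) ∈ {w : ℝ≥0 → ℝ | ∀ n, c ≤ qs n → qs n ≤ 1 →
        |σ * w (qs n - c)| ≤ 2 * r}} = E4 := by
      ext ω
      simp only [hE4, Set.mem_ofPred_eq]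
      refine forall_congr' fun n => forall_congr' fun hn => ?_
      rw [add_tsub_cancel_of_le hn]
    rw [e4] at h
    exact h
  have hP2 : P' (E2 ∩ (E3 ∩ E4)) = P' E2 * P' (E3 ∩ E4) := by
    have hF : MeasurableSet {w : Set.Iic b → ℝ |
        |σ * (w ⟨b, Set.mem_Iic.2 le_rfl⟩ - w ⟨a, Set.mem_Iic.2 hab.le⟩) - k| ≤ 1} :=
      meas_abs_le (fun w : Set.Iic b → ℝ =>
        σ * (w ⟨b, Set.mem_Iic.2 le_rfl⟩ - w ⟨a, Set.mem_Iic.2 hab.le⟩) - k) (by fun_prop) _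
    have hG : MeasurableSet {w : ℝ≥0 → ℝ | |σ * w (c - b) - k| ≤ 1 ∧
        ∀ n, c ≤ qs n → qs n ≤ 1 → |σ * (w (qs n - b) - w (c - b))| ≤ 2 * r} := by
      refine meas_and ?_ (meas_all fun n => meas_imp fun _ => meas_imp fun _ => ?_)
      · exact meas_abs_le (fun w : ℝ≥0 → ℝ => σ * w (c - b) - k) (by fun_prop) _
      · exact meas_abs_le (fun w : ℝ≥0 → ℝ => σ * (w (qs n - b) - w (c - b))) (by fun_prop) _
    have h := ind_step hB b hF hG
    have e4 : {ω | (fun t => B (b + t) ω - B b ω) ∈ {w : ℝ≥0 → ℝ | |σ * w (c - b) - k| ≤ 1 ∧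
        ∀ n, c ≤ qs n → qs n ≤ 1 → |σ * (w (qs n - b) - w (c - b))| ≤ 2 * r}} = E3 ∩ E4 := by
      ext ω
      simp only [hE4, hE3, Set.mem_ofPred_eq, Set.mem_inter_iff]
      rw [add_tsub_cancel_of_le hbc.le]
      refine and_congr Iff.rfl ?_
      refine forall_congr' fun n => forall_congr' fun hn => ?_
      rw [add_tsub_cancel_of_le (hbc.le.trans hn)]
      rw [sub_sub_sub_cancel_right]
    rw [e4] at h
    exact h
  have hP1 : P' (E1 ∩ (E2 ∩ (E3 ∩ E4))) = P' E1 * P' (E2 ∩ (E3 ∩ E4)) := by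
    have hF : MeasurableSet {w : Set.Iic a → ℝ | |σ * w ⟨a, Set.mem_Iic.2 le_rfl⟩| ≤ r ∧
        ∀ n, ∀ h : qs n ≤ a, |σ * w ⟨qs n, Set.mem_Iic.2 h⟩| ≤ r} := by
      refine meas_and ?_ (meas_all fun n => meas_imp fun h => ?_)
      · exact meas_abs_le (fun w : Set.Iic a → ℝ => σ * w ⟨a, Set.mem_Iic.2 le_rfl⟩)
          (by fun_prop) _
      · exact meas_abs_le (fun w : Set.Iic a → ℝ => σ * w ⟨qs n, Set.mem_Iic.2 h⟩)
          (by fun_prop) _
    have hG : MeasurableSet {w : ℝ≥0 → ℝ | |σ * w (b - a) - k| ≤ 1 ∧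
        |σ * (w (c - a) - w (b - a)) - k| ≤ 1 ∧
        ∀ n, c ≤ qs n → qs n ≤ 1 → |σ * (w (qs n - a) - w (c - a))| ≤ 2 * r} := by
      refine meas_and ?_ (meas_and ?_ (meas_all fun n => meas_imp fun _ => meas_imp fun _ => ?_))
      · exact meas_abs_le (fun w : ℝ≥0 → ℝ => σ * w (b - a) - k) (by fun_prop) _
      · exact meas_abs_le (fun w : ℝ≥0 → ℝ => σ * (w (c - a) - w (b - a)) - k) (by fun_prop) _
      · exact meas_abs_le (fun w : ℝ≥0 → ℝ => σ * (w (qs n - a) - w (c - a))) (by fun_prop) _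
    have h := ind_step hB a hF hG
    have e4 : {ω | (fun t => B (a + t) ω - B a ω) ∈ {w : ℝ≥0 → ℝ | |σ * w (b - a) - k| ≤ 1 ∧
        |σ * (w (c - a) - w (b - a)) - k| ≤ 1 ∧
        ∀ n, c ≤ qs n → qs n ≤ 1 → |σ * (w (qs n - a) - w (c - a))| ≤ 2 * r}} =
        E2 ∩ (E3 ∩ E4) := by
      ext ω
      simp only [hE4, hE3, hE2, Set.mem_ofPred_eq, Set.mem_inter_iff]
      rw [add_tsub_cancel_of_le hab.le, add_tsub_cancel_of_le hac.le, sub_sub_sub_cancel_right]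
      refine and_congr Iff.rfl (and_congr Iff.rfl ?_)
      refine forall_congr' fun n => forall_congr' fun hn => ?_
      rw [add_tsub_cancel_of_le (hac.le.trans hn)]
      rw [sub_sub_sub_cancel_right]
    rw [e4] at h
    exact h
  have hE1p : 0 < P' E1 := by
    refine lt_of_lt_of_le hr (measure_mono ?_)
    intro ω hω
    exact ⟨hω a (hac.le.trans hc), fun n hn => hω _ (hn.trans (hac.le.trans hc))⟩
  have hE4p : 0 < P' E4 := by
    refine lt_of_lt_of_le hr (measure_mono ?_)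
    intro ω hω n hn hn'
    have h1 := hω (qs n) hn'
    have h2 := hω c hc
    rw [mul_sub]
    refine (abs_sub _ _).trans ?_
    linarith
  refine lt_of_lt_of_le ?_ (measure_mono hsub)
  rw [hP1, hP2, hP3]
  exact ENNReal.mul_pos hE1p.ne' (ENNReal.mul_pos (incr_pos hB hab hσ k).ne'
    (ENNReal.mul_pos (incr_pos hB hbc hσ k).ne' hE4p.ne').ne').ne'

end

end Pool.Agent.W845.Traps
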