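import Mathlib

/-!
# Random walk among mobile traps on `ℤ^d` (MP_f8dce5_pr): definitions
-/

set_option autoImplicit false

namespace Pool.Agent.W845.Traps

open MeasureTheory ProbabilityTheory Filter Topology
open scoped ENNReal NNReal

universe u v

/-! ## The model -/

/-- The law of `N⁺ - N⁻` for independent Poisson variables `N⁺`, `N⁻` of mean `s / 2`: the law at
time `s` of the continuous time simple symmetric random walk on `ℤ` with jump rate `1`. -/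
noncomputable def skellam (s : ℝ≥0) : Measure ℤ :=
  ((poissonMeasure (s / 2)).prod (poissonMeasure (s / 2))).map fun p : ℕ × ℕ => (p.1 : ℤ) - p.2

/-- The law of the displacement, during a time interval of length `s`, of the continuous time
simple symmetric random walk on `ℤ^d` with jump rate `κ`. Each of the `2 d` unit steps occurs at
rate `κ / (2 d)`: the coordinates are independent, and each one is the difference of two
independent Poisson variables of mean `κ s / (2 d)`. -/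
noncomputable def stepLaw (d : ℕ) (κ s : ℝ≥0) : Measure (Fin d → ℤ) :=
  Measure.pi fun _ => skellam (κ * s / d)

/-- `X` is a continuous time simple symmetric random walk on `ℤ^d` with jump rate `κ`, started at
`0`: independent increments with the law `stepLaw`, and almost surely right-continuous paths with
left limits (in the discrete space `ℤ^d`). -/
structure IsWalk {d : ℕ} {Ω : Type u} [MeasurableSpace Ω] (P : Measure Ω) (κ : ℝ≥0)
    (X : ℝ≥0 → Ω → Fin d → ℤ) : Prop where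
  meas : ∀ t, Measurable (X t)
  zero : ∀ᵐ ω ∂P, X 0 ω = 0
  rightCont : ∀ᵐ ω ∂P, ∀ t, ∀ᶠ u in 𝓝[≥] t, X u ω = X t ω
  leftLim : ∀ᵐ ω ∂P, ∀ t, ∃ x, ∀ᶠ u in 𝓝[<] t, X u ω = x
  indep : HasIndepIncrements X P
  law : ∀ s t, s ≤ t → P.map (fun ω => X t ω - X s ω) = stepLaw d κ (t - s)

/-- The walk `X` (jump rate `κ`) and the Poisson system of traps: `N y` traps start at the site
`y` (Poisson of mean `ν`), the `j`-th one (`j < N y`) is at `y + Y y j s` at time `s` and has jump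
rate `ρ`; everything is independent. -/
structure TrapModel {d : ℕ} {Ω : Type u} [MeasurableSpace Ω] (P : Measure Ω) (κ ρ ν : ℝ≥0)
    (X : ℝ≥0 → Ω → Fin d → ℤ) (N : (Fin d → ℤ) → Ω → ℕ)
    (Y : (Fin d → ℤ) → ℕ → ℝ≥0 → Ω → Fin d → ℤ) : Prop where
  walk : IsWalk P κ X
  number_meas : ∀ y, Measurable (N y)
  number : ∀ y, P.map (N y) = poissonMeasure ν
  trap : ∀ y j, IsWalk P ρ (Y y j)
  indepN : iIndepFun N P
  indepY : iIndepFun (fun (i : (Fin d → ℤ) × ℕ) (ω : Ω) (s : ℝ≥0) => Y i.1 i.2 s ω) P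
  indepNY : IndepFun (fun (ω : Ω) (y : Fin d → ℤ) => N y ω)
    (fun (ω : Ω) (i : (Fin d → ℤ) × ℕ) (s : ℝ≥0) => Y i.1 i.2 s ω) P
  indepX : IndepFun (fun (ω : Ω) (s : ℝ≥0) => X s ω)
    (fun (ω : Ω) => ((fun (y : Fin d → ℤ) => N y ω),
      (fun (i : (Fin d → ℤ) × ℕ) (s : ℝ≥0) => Y i.1 i.2 s ω))) P

/-- `ξ(s, x)`: the number of traps at the site `x` at time `s`. -/
noncomputable def trapField {d : ℕ} {Ω : Type u} (N : (Fin d → ℤ) → Ω → ℕ)
    (Y : (Fin d → ℤ) → ℕ → ℝ≥0 → Ω → Fin d → ℤ) (s : ℝ≥0) (x : Fin d → ℤ) (ω : Ω) : ℝ≥0∞ :=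
  ∑' y : Fin d → ℤ, ∑ j ∈ Finset.range (N y ω), if y + Y y j s ω = x then 1 else 0

/-- `∫_0^t ξ(s, X_s) ds`. -/
noncomputable def exposure {d : ℕ} {Ω : Type u} (X : ℝ≥0 → Ω → Fin d → ℤ)
    (N : (Fin d → ℤ) → Ω → ℕ) (Y : (Fin d → ℤ) → ℕ → ℝ≥0 → Ω → Fin d → ℤ) (t : ℝ≥0) (ω : Ω) :
    ℝ≥0∞ :=
  ∫⁻ s in Set.Icc (0 : ℝ) t, trapField N Y s.toNNReal (X s.toNNReal ω) ω

/-- The survival weight `exp (-γ ∫_0^t ξ(s, X_s) ds)`. -/
noncomputable def weight {d : ℕ} {Ω : Type u} (γ : ℝ≥0) (X : ℝ≥0 → Ω → Fin d → ℤ)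
    (N : (Fin d → ℤ) → Ω → ℕ) (Y : (Fin d → ℤ) → ℕ → ℝ≥0 → Ω → Fin d → ℤ) (t : ℝ≥0) (ω : Ω) :
    ℝ≥0∞ :=
  EReal.exp (-((γ * exposure X N Y t ω : ℝ≥0∞) : EReal))

/-- `Z_{γ,t}`, the annealed survival probability. -/
noncomputable def survival {d : ℕ} {Ω : Type u} [MeasurableSpace Ω] (P : Measure Ω) (γ : ℝ≥0)
    (X : ℝ≥0 → Ω → Fin d → ℤ) (N : (Fin d → ℤ) → Ω → ℕ)
    (Y : (Fin d → ℤ) → ℕ → ℝ≥0 → Ω → Fin d → ℤ) (t : ℝ≥0) : ℝ≥0∞ :=
  ∫⁻ ω, weight γ X N Y t ω ∂P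

/-- `P_{γ,t}`: the measure `P` tilted by the survival weight. Its image under `X` is the annealed
path measure. -/
noncomputable def pathMeasure {d : ℕ} {Ω : Type u} [MeasurableSpace Ω] (P : Measure Ω) (γ : ℝ≥0)
    (X : ℝ≥0 → Ω → Fin d → ℤ) (N : (Fin d → ℤ) → Ω → ℕ)
    (Y : (Fin d → ℤ) → ℕ → ℝ≥0 → Ω → Fin d → ℤ) (t : ℝ≥0) : Measure Ω :=
  (survival P γ X N Y t)⁻¹ • P.withDensity (weight γ X N Y t)

/-! ## Weak convergence in the Skorokhod space `D([0,1], ℝ^d)` -/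

/-- `f` is right-continuous with left limits. -/
def IsCadlag {E : Type v} [TopologicalSpace E] (f : Set.Icc (0 : ℝ) 1 → E) : Prop :=
  ∀ u, ContinuousWithinAt f (Set.Ici u) u ∧ ∃ l, Tendsto f (𝓝[<] u) (𝓝 l)

/-- Convergence `f n → g` in the Skorokhod `J₁` topology on `[0,1]`: for some increasing bijections
`τ n` of `[0,1]`, `τ n` converges uniformly to the identity and `f n ∘ τ n` converges uniformly
to `g`. -/
def SkorokhodTendsto {E : Type v} [PseudoMetricSpace E] (f : ℕ → Set.Icc (0 : ℝ) 1 → E)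
    (g : Set.Icc (0 : ℝ) 1 → E) : Prop :=
  ∃ τ : ℕ → (Set.Icc (0 : ℝ) 1 ≃o Set.Icc (0 : ℝ) 1), ∀ ε > 0, ∀ᶠ n in atTop,
    ∀ u, dist (τ n u) u < ε ∧ dist (f n (τ n u)) (g u) < ε

/-- `Φ` is continuous on the Skorokhod space `D([0,1], E)`. -/
def SkorokhodContinuous {E : Type v} [PseudoMetricSpace E]
    (Φ : (Set.Icc (0 : ℝ) 1 → E) → ℝ) : Prop :=
  ∀ (f : ℕ → Set.Icc (0 : ℝ) 1 → E) (g : Set.Icc (0 : ℝ) 1 → E), (∀ n, IsCadlag (f n)) →
    IsCadlag g → SkorokhodTendsto f g → Tendsto (fun n => Φ (f n)) atTop (𝓝 (Φ g))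

/-- The rescaled path `u ↦ X_{ut} / √t`, `0 ≤ u ≤ 1`. -/
noncomputable def rescaled {d : ℕ} {Ω : Type u} (X : ℝ≥0 → Ω → Fin d → ℤ) (t : ℝ≥0) (ω : Ω) :
    Set.Icc (0 : ℝ) 1 → Fin d → ℝ :=
  fun s i => (X (s.1.toNNReal * t) ω i : ℝ) / √(t : ℝ)

/-- `B` is a standard `d`-dimensional Brownian motion (with almost surely continuous paths). -/
structure IsStdBrownian {d : ℕ} {Ω' : Type v} [MeasurableSpace Ω'] (P' : Measure Ω')
    (B : Fin d → ℝ≥0 → Ω' → ℝ) : Prop where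
  brownian : ∀ i, IsBrownianReal (B i) P'
  indep : iIndepFun (fun (i : Fin d) (ω : Ω') (s : ℝ≥0) => B i s ω) P'

/-- The law of the rescaled path `(X_{ut} / √t)_{0 ≤ u ≤ 1}` under `Q t` converges weakly, as
`t → ∞`, in the Skorokhod space `D([0,1], ℝ^d)` to the law of `(σ B_u)_{0 ≤ u ≤ 1}`. -/
def ConvergesToBrownian {d : ℕ} {Ω : Type u} [MeasurableSpace Ω] (Q : ℝ≥0 → Measure Ω)
    (X : ℝ≥0 → Ω → Fin d → ℤ) {Ω' : Type v} [MeasurableSpace Ω'] (P' : Measure Ω')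
    (B : Fin d → ℝ≥0 → Ω' → ℝ) (σ : ℝ) : Prop :=
  ∀ Φ : (Set.Icc (0 : ℝ) 1 → Fin d → ℝ) → ℝ, (∃ C, ∀ f, |Φ f| ≤ C) → SkorokhodContinuous Φ →
    Tendsto (fun t : ℝ≥0 => ∫ ω, Φ (rescaled X t ω) ∂(Q t)) atTop
      (𝓝 (∫ ω', Φ (fun s i => σ * B i s.1.toNNReal ω') ∂P'))

end Pool.Agent.W845.Traps
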