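import Pool.Agent.W845.Pivot

/-! The energy gain of the reflection. -/

set_option autoImplicit false
set_option linter.unusedSectionVars false

namespace Pool.Agent.W845.Traps

open MeasureTheory ProbabilityTheory Filter Topology
open scoped ENNReal NNReal

universe u

theorem sum_Icc_one {M : Type*} [AddCommMonoid M] (f : ℕ → M) (n : ℕ) :
    ∑ j ∈ Finset.Icc 1 n, f j = ∑ j ∈ Finset.range n, f (j + 1) := by
  have : Finset.Icc 1 n = (Finset.range n).image (fun j => j + 1) := by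
    ext k
    simp only [Finset.mem_Icc, Finset.mem_image, Finset.mem_range]
    constructor
    · rintro ⟨h1, h2⟩; exact ⟨k - 1, by omega, by omega⟩
    · rintro ⟨j, hj, rfl⟩; omega
  rw [this, Finset.sum_image (fun a _ b _ h => by simpa using h)]

theorem bb_anti {a b : ℝ} (ha : 0 < a) (hab : a ≤ b) : bb b ≤ bb a := by
  unfold bb
  have hb : 0 < b := lt_of_lt_of_le ha hab
  have : 0 < √a := Real.sqrt_pos.2 ha
  apply one_div_le_one_div_of_le (by positivity)
  gcongr

/-- the double sum of the kernel bound, in `ℝ≥0∞` -/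
theorem double_sum_le {h : ℝ≥0} (hh : 0 < h) {C : ℝ} (hC : 0 ≤ C) (γ : ℝ) (hγ : 0 ≤ γ)
    (I n : ℕ) :
    ENNReal.ofReal (γ * h) * ENNReal.ofReal (γ * h) * ∑ i ∈ Finset.range I, ∑ j ∈ Finset.Icc 1 n,
      ENNReal.ofReal (C * bb (((i + j : ℕ) : ℝ) * h)) ≤
      ENNReal.ofReal (γ ^ 2 * C * (3 * √h + 4 * √(I * h))) := by
  have hh' : (0 : ℝ) < h := by exact_mod_cast hh
  simp_rw [sum_Icc_one]
  have h0 : ∀ i j : ℕ, 0 ≤ C * bb (((i + (j + 1) : ℕ) : ℝ) * h) := fun i j =>
    mul_nonneg hC (bb_nonneg (by positivity))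
  have h1 : ∑ i ∈ Finset.range I, ∑ j ∈ Finset.range n,
      ENNReal.ofReal (C * bb (((i + (j + 1) : ℕ) : ℝ) * h)) =
      ENNReal.ofReal (∑ i ∈ Finset.range I, ∑ j ∈ Finset.range n,
        C * bb (((i + (j + 1) : ℕ) : ℝ) * h)) := by
    rw [ENNReal.ofReal_sum_of_nonneg (fun i _ => Finset.sum_nonneg fun j _ => h0 i j)]
    refine Finset.sum_congr rfl fun i _ => ?_
    rw [ENNReal.ofReal_sum_of_nonneg (fun j _ => h0 i j)]
  rw [h1, ← ENNReal.ofReal_mul (by positivity), ← ENNReal.ofReal_mul (by positivity)]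
  apply ENNReal.ofReal_le_ofReal
  have h2 := double_sum hh' I n
  have h3 : γ * h * (γ * h) * ∑ i ∈ Finset.range I, ∑ j ∈ Finset.range n,
        C * bb (((i + (j + 1) : ℕ) : ℝ) * h) =
      γ ^ 2 * C * ∑ i ∈ Finset.range I, ∑ j ∈ Finset.range n,
        h * h * bb (((i + (j + 1) : ℕ) : ℝ) * h) := by
    rw [Finset.mul_sum, Finset.mul_sum]
    refine Finset.sum_congr rfl fun i _ => ?_
    rw [Finset.mul_sum, Finset.mul_sum]
    refine Finset.sum_congr rfl fun j _ => ?_
    ring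
  rw [h3]
  exact mul_le_mul_of_nonneg_left h2 (by positivity)

/-- the tube (on the grid with `2 n` steps, pivot `n`) -/
def Tube (M K ε : ℝ) (t : ℝ≥0) (n : ℕ) (x : ℕ → Fin 3 → ℤ) : Prop :=
  (∀ k : ℕ, (k : ℝ) ≤ (1 - 2 * ε) * n → ∀ i, |(x k i : ℝ)| ≤ M * √(t : ℝ)) ∧
  (∀ i, |(x n i : ℝ) - (if i = 0 then K * √(t : ℝ) else 0)| ≤ M * √(t : ℝ)) ∧
  (∀ k : ℕ, k ≤ 2 * n → (1 + 2 * ε) * n ≤ k →
    ∀ i, |(x k i : ℝ) - (if i = 0 then 2 * K * √(t : ℝ) else 0)| ≤ M * √(t : ℝ))

section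

variable {Ω : Type u} [MeasurableSpace Ω] {P : Measure Ω} [IsProbabilityMeasure P] {ρ : ℝ≥0}
  {Y : ℝ≥0 → Ω → Fin 3 → ℤ}

theorem energy (hY : IsWalk P ρ Y) (hρ : 0 < ρ) {γ : ℝ} (hγ : 0 < γ) {M : ℝ} (hM : 0 ≤ M) :
    ∃ K ε c : ℝ, 0 < K ∧ 0 < ε ∧ ε < 1 / 4 ∧ 0 < c ∧ ∃ t0 : ℝ≥0, 0 < t0 ∧ ∀ t : ℝ≥0, t0 ≤ t →
      ∀ᶠ n : ℕ in atTop, ∀ x : ℕ → Fin 3 → ℤ, Tube M K ε t n x →
        Cn P (γ * (t / (2 * n : ℕ) : ℝ≥0)) Y (t / (2 * n : ℕ)) n (refl n x) +
            ENNReal.ofReal (c * √(t : ℝ)) ≤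
          Cn P (γ * (t / (2 * n : ℕ) : ℝ≥0)) Y (t / (2 * n : ℕ)) n x := by
  obtain ⟨C₁, hC₁, hup⟩ := gk_upper ρ hρ
  obtain ⟨C₂, c₂, T₀, hC₂, hc₂, hT₀, hfar⟩ := gk_far ρ hρ
  obtain ⟨c₃, hc₃, s₀, hs₀, hlow⟩ := gk_lower ρ hρ (8 * M)
  obtain ⟨C₄, hC₄, hup'⟩ := gk_upper' ρ hρ
  set Kγ : ℝ := 1 + γ + 4 * γ * C₄ with hKγ
  have hKγ0 : 0 < Kγ := by positivity
  set c₅ : ℝ := γ ^ 2 * c₃ / (64 * Kγ ^ 2) with hc₅
  have hc₅0 : 0 < c₅ := by positivity
  -- choice of ε
  obtain ⟨ε, hε0, hε4, hε⟩ : ∃ ε : ℝ, 0 < ε ∧ ε < 1 / 4 ∧ γ ^ 2 * (14 * C₁ * √ε) ≤ c₅ / 4 := by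
    have h1 : Tendsto (fun ε : ℝ => γ ^ 2 * (14 * C₁ * √ε)) (𝓝[>] 0) (𝓝 0) := by
      have : Tendsto (fun ε : ℝ => γ ^ 2 * (14 * C₁ * √ε)) (𝓝 0)
          (𝓝 (γ ^ 2 * (14 * C₁ * √0))) := by
        apply Continuous.tendsto; fun_prop
      simp only [Real.sqrt_zero, mul_zero] at this
      exact this.mono_left nhdsWithin_le_nhds
    have h2 : ∀ᶠ ε : ℝ in 𝓝[>] 0, γ ^ 2 * (14 * C₁ * √ε) < c₅ / 4 :=
      h1.eventually_lt_const (by positivity)
    have h3 : ∀ᶠ ε : ℝ in 𝓝[>] (0 : ℝ), ε ∈ Set.Ioo (0 : ℝ) (1 / 4) :=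
      Ioo_mem_nhdsGT (by norm_num)
    obtain ⟨ε, h4, h5⟩ := (h2.and h3).exists
    exact ⟨ε, h5.1, h5.2, h4.le⟩
  -- choice of K
  obtain ⟨K, hK0, hKM, hK⟩ : ∃ K : ℝ, 0 < K ∧ 2 * M ≤ K ∧
      γ ^ 2 * (C₂ * Real.exp (-(c₂ * K)) * 7) ≤ c₅ / 4 := by
    have h1 : Tendsto (fun K : ℝ => γ ^ 2 * (C₂ * Real.exp (-(c₂ * K)) * 7)) atTop (𝓝 0) := by
      have h2 : Tendsto (fun K : ℝ => Real.exp (-(c₂ * K))) atTop (𝓝 0) :=
        Real.tendsto_exp_neg_atTop_nhds_zero.comp (tendsto_id.const_mul_atTop hc₂)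
      have := ((h2.const_mul C₂).mul_const 7).const_mul (γ ^ 2)
      simpa using this
    have h2 : ∀ᶠ K : ℝ in atTop, γ ^ 2 * (C₂ * Real.exp (-(c₂ * K)) * 7) < c₅ / 4 :=
      h1.eventually_lt_const (by positivity)
    obtain ⟨K, h3, h4, h5⟩ := (h2.and ((eventually_ge_atTop (2 * M)).and
      (eventually_gt_atTop 0))).exists
    exact ⟨K, h5, h4, h3.le⟩
  refine ⟨K, ε, c₅ / 2, hK0, hε0, hε4, by positivity, max (max (2 * s₀) T₀.toNNReal) 1,
    by positivity, fun t ht => ?_⟩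
  have ht1 : (1 : ℝ) ≤ t := by exact_mod_cast (le_max_right _ _).trans ht
  have hts : 2 * s₀ ≤ t := ((le_max_left _ _).trans (le_max_left _ _)).trans ht
  have htT : T₀ ≤ t := by
    have : T₀.toNNReal ≤ t := ((le_max_right _ _).trans (le_max_left _ _)).trans ht
    exact Real.toNNReal_le_iff_le_coe.1 this
  have ht0 : (0 : ℝ) < t := by linarith
  have htn : 0 < t := by exact_mod_cast ht0
  have hst : 1 ≤ √(t : ℝ) := Real.one_le_sqrt.2 ht1
  -- mesh small
  have hmesh : Tendsto (fun n : ℕ => ((t / (2 * n : ℕ) : ℝ≥0) : ℝ)) atTop (𝓝 0) := by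
    have h1 : Tendsto (fun n : ℕ => (t : ℝ) / 2 / n) atTop (𝓝 0) :=
      tendsto_const_div_atTop_nhds_zero_nat _
    refine h1.congr fun n => ?_
    push_cast
    rw [div_div]
  have hev : ∀ᶠ n : ℕ in atTop, ((t / (2 * n : ℕ) : ℝ≥0) : ℝ) < ε / 9 :=
    hmesh.eventually_lt_const (by positivity)
  filter_upwards [hev, eventually_ge_atTop 2] with n hn hn2 x hx
  set h : ℝ≥0 := t / (2 * n : ℕ) with hh
  have hn0 : (0 : ℝ) < n := by
    have : 0 < n := by omega
    exact_mod_cast this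
  have hh0 : 0 < h := by
    rw [hh]; positivity
  have hh0' : (0 : ℝ) < h := by exact_mod_cast hh0
  have hnh : (n : ℝ) * h = t / 2 := by
    rw [hh]; push_cast; field_simp
  have hnh2 : ((2 * n : ℕ) : ℝ) * h = t := by
    push_cast; linarith
  have hh1 : (h : ℝ) ≤ 1 := by linarith
  have hsh : 3 * √(h : ℝ) ≤ √ε := by
    have h1 : √(h : ℝ) ≤ √(ε / 9) := Real.sqrt_le_sqrt hn.le
    have h2 : √(ε / 9) = √ε / 3 := by
      rw [Real.sqrt_div hε0.le]; congr 1
      rw [show (9 : ℝ) = 3 ^ 2 by norm_num]; exact Real.sqrt_sq (by norm_num)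
    linarith
  have hθ : 0 ≤ γ * (h : ℝ) := by positivity
  obtain ⟨hx1, hx2, hx3⟩ := hx
  -- upper bound for the overlap of x
  have hU : ∑' z, ff P (γ * h) (Wm Y h n) (xm n x) (Finset.range n) z *
        ff P (γ * h) (Wp Y h n) (xp n x) (Finset.Icc 1 n) z ≤
      ENNReal.ofReal (c₅ / 2 * √(t : ℝ)) := by
    refine (overlap_le hY hθ h n x).trans ?_
    set I : ℕ := ⌈2 * ε * n⌉₊ with hI
    have hIle : (I : ℝ) ≤ 2 * ε * n + 1 := (Nat.ceil_lt_add_one (by positivity)).le
    have hIn : I ≤ n := by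
      apply Nat.ceil_le.2
      nlinarith
    have hIh : (I : ℝ) * h ≤ 2 * ε * t := by
      calc (I : ℝ) * h ≤ (2 * ε * n + 1) * h := by gcongr
        _ = 2 * ε * (n * h) + h := by ring
        _ = ε * t + h := by rw [hnh]; ring
        _ ≤ 2 * ε * t := by nlinarith
    have hsI : √((I : ℝ) * h) ≤ 3 / 2 * (√ε * √t) := by
      have h1 : √((I : ℝ) * h) ≤ √(2 * ε * t) := Real.sqrt_le_sqrt hIh
      have h2 : √(2 * ε * t) = √2 * (√ε * √t) := by
        rw [mul_assoc, Real.sqrt_mul (by norm_num), Real.sqrt_mul hε0.le]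
      have h3 : √2 ≤ 3 / 2 := by
        rw [Real.sqrt_le_left (by norm_num)]; norm_num
      rw [h2] at h1
      refine h1.trans ?_
      gcongr
    have hnear : 3 * √(h : ℝ) + 4 * √((I : ℝ) * h) ≤ 7 * (√ε * √t) := by
      have h1 : √ε ≤ √ε * √t := le_mul_of_one_le_right (Real.sqrt_nonneg _) hst
      linarith
    -- pointwise bound by the three pieces
    have hpt : ∀ i ∈ Finset.range n, ∀ j ∈ Finset.Icc 1 n,
        gk ρ ((i + j : ℕ) * h) (x (n + j) - x (n - i)) ≤
          (if i < I then ENNReal.ofReal (C₁ * bb (((i + j : ℕ) : ℝ) * h)) else 0) +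
          (if j < I then ENNReal.ofReal (C₁ * bb (((i + j : ℕ) : ℝ) * h)) else 0) +
          ENNReal.ofReal (C₂ * Real.exp (-(c₂ * K)) * bb (((i + j : ℕ) : ℝ) * h)) := by
      intro i hi j hj
      have hi' := Finset.mem_range.1 hi
      have hj' := Finset.mem_Icc.1 hj
      have hs0 : 0 < ((i + j : ℕ) : ℝ≥0) * h := by
        have : 0 < i + j := by omega
        have : 0 < ((i + j : ℕ) : ℝ≥0) := by exact_mod_cast this
        positivity
      have hC1 := hup (((i + j : ℕ) : ℝ≥0) * h) (x (n + j) - x (n - i)) hs0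
      have e1 : C₁ / (((((i + j : ℕ) : ℝ≥0) * h : ℝ≥0) : ℝ) *
          √((((i + j : ℕ) : ℝ≥0) * h : ℝ≥0) : ℝ)) = C₁ * bb (((i + j : ℕ) : ℝ) * h) := by
        unfold bb
        push_cast
        ring
      rw [e1] at hC1
      by_cases hiI : i < I
      · rw [if_pos hiI]
        exact hC1.trans (le_add_right (le_add_right le_rfl))
      by_cases hjI : j < I
      · rw [if_pos hjI]
        exact hC1.trans (le_add_right (le_add_left le_rfl))
      push Not at hiI hjI
      have hiε : 2 * ε * n ≤ i := Nat.ceil_le.1 hiI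
      have hjε : 2 * ε * n ≤ j := Nat.ceil_le.1 hjI
      have h1 := hx1 (n - i) (by
        rw [Nat.cast_sub hi'.le]; linarith) 0
      have h3 := hx3 (n + j) (by omega) (by push_cast; linarith) 0
      rw [if_pos rfl] at h3
      have h4 : K * √(t : ℝ) ≤ |((x (n + j) - x (n - i)) 0 : ℝ)| := by
        have e2 : ((x (n + j) - x (n - i)) 0 : ℤ) = x (n + j) 0 - x (n - i) 0 := rfl
        rw [e2]
        push_cast
        have h5 := abs_le.1 h1
        have h6 := abs_le.1 h3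
        have h7 : 2 * M * √(t : ℝ) ≤ K * √(t : ℝ) := by gcongr
        refine le_trans ?_ (le_abs_self _)
        linarith
      have hsle : ((((i + j : ℕ) : ℝ≥0) * h : ℝ≥0) : ℝ) ≤ t := by
        have h8 : ((i + j : ℕ) : ℝ) ≤ ((2 * n : ℕ) : ℝ) := by
          exact_mod_cast (by omega : i + j ≤ 2 * n)
        push_cast at h8 hnh2 ⊢
        calc ((i : ℝ) + j) * h ≤ (2 * n) * h := by gcongr
          _ = t := hnh2
      have h9 := hfar t htT (((i + j : ℕ) : ℝ≥0) * h) (x (n + j) - x (n - i)) hs0 hsle K h4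
      have e3 : C₂ * Real.exp (-(c₂ * K)) / (((((i + j : ℕ) : ℝ≥0) * h : ℝ≥0) : ℝ) *
          √((((i + j : ℕ) : ℝ≥0) * h : ℝ≥0) : ℝ)) =
            C₂ * Real.exp (-(c₂ * K)) * bb (((i + j : ℕ) : ℝ) * h) := by
        unfold bb
        push_cast
        ring
      rw [e3] at h9
      exact h9.trans (le_add_left le_rfl)
    have hA1 : ∑ i ∈ Finset.range n, ∑ j ∈ Finset.Icc 1 n,
        (if i < I then ENNReal.ofReal (C₁ * bb (((i + j : ℕ) : ℝ) * h)) else 0) =
        ∑ i ∈ Finset.range I, ∑ j ∈ Finset.Icc 1 n,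
          ENNReal.ofReal (C₁ * bb (((i + j : ℕ) : ℝ) * h)) := by
      have h1 : (Finset.range n).filter (fun i => i < I) = Finset.range I := by
        ext i; simp only [Finset.mem_filter, Finset.mem_range]; omega
      rw [← h1, Finset.sum_filter]
      refine Finset.sum_congr rfl fun i _ => ?_
      split_ifs
      · rfl
      · simp
    have hA2 : ∑ i ∈ Finset.range n, ∑ j ∈ Finset.Icc 1 n,
        (if j < I then ENNReal.ofReal (C₁ * bb (((i + j : ℕ) : ℝ) * h)) else 0) ≤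
        ∑ i ∈ Finset.range I, ∑ j ∈ Finset.Icc 1 n,
          ENNReal.ofReal (C₁ * bb (((i + j : ℕ) : ℝ) * h)) := by
      rw [Finset.sum_comm]
      simp_rw [sum_Icc_one]
      calc ∑ j ∈ Finset.range n, ∑ i ∈ Finset.range n,
            (if j + 1 < I then ENNReal.ofReal (C₁ * bb (((i + (j + 1) : ℕ) : ℝ) * h)) else 0)
          ≤ ∑ j ∈ Finset.range n, (if j < I then ∑ i ∈ Finset.range n,
            ENNReal.ofReal (C₁ * bb (((j + (i + 1) : ℕ) : ℝ) * h)) else 0) := by
            refine Finset.sum_le_sum fun j _ => ?_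
            by_cases hj : j + 1 < I
            · rw [if_pos (show j < I by omega)]
              refine Finset.sum_le_sum fun i _ => ?_
              rw [if_pos hj, show i + (j + 1) = j + (i + 1) by omega]
            · simp only [if_neg hj, Finset.sum_const_zero]
              exact zero_le
        _ = _ := by
            have h1 : (Finset.range n).filter (fun i => i < I) = Finset.range I := by
              ext i; simp only [Finset.mem_filter, Finset.mem_range]; omega
            rw [← Finset.sum_filter, h1]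
    calc _ ≤ ENNReal.ofReal (γ * h) * ENNReal.ofReal (γ * h) * ∑ i ∈ Finset.range n,
          ∑ j ∈ Finset.Icc 1 n,
          ((if i < I then ENNReal.ofReal (C₁ * bb (((i + j : ℕ) : ℝ) * h)) else 0) +
          (if j < I then ENNReal.ofReal (C₁ * bb (((i + j : ℕ) : ℝ) * h)) else 0) +
          ENNReal.ofReal (C₂ * Real.exp (-(c₂ * K)) * bb (((i + j : ℕ) : ℝ) * h))) := by
          gcongr with i hi j hj
          exact hpt i hi j hj
      _ ≤ ENNReal.ofReal (γ * h) * ENNReal.ofReal (γ * h) *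
          (∑ i ∈ Finset.range I, ∑ j ∈ Finset.Icc 1 n,
            ENNReal.ofReal (C₁ * bb (((i + j : ℕ) : ℝ) * h)) +
          ∑ i ∈ Finset.range I, ∑ j ∈ Finset.Icc 1 n,
            ENNReal.ofReal (C₁ * bb (((i + j : ℕ) : ℝ) * h)) +
          ∑ i ∈ Finset.range n, ∑ j ∈ Finset.Icc 1 n,
            ENNReal.ofReal (C₂ * Real.exp (-(c₂ * K)) * bb (((i + j : ℕ) : ℝ) * h))) := by
          simp_rw [Finset.sum_add_distrib]
          rw [hA1]
          gcongr
      _ = ENNReal.ofReal (γ * h) * ENNReal.ofReal (γ * h) *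
          (∑ i ∈ Finset.range I, ∑ j ∈ Finset.Icc 1 n,
            ENNReal.ofReal (C₁ * bb (((i + j : ℕ) : ℝ) * h))) +
          ENNReal.ofReal (γ * h) * ENNReal.ofReal (γ * h) *
          (∑ i ∈ Finset.range I, ∑ j ∈ Finset.Icc 1 n,
            ENNReal.ofReal (C₁ * bb (((i + j : ℕ) : ℝ) * h))) +
          ENNReal.ofReal (γ * h) * ENNReal.ofReal (γ * h) *
          (∑ i ∈ Finset.range n, ∑ j ∈ Finset.Icc 1 n,
            ENNReal.ofReal (C₂ * Real.exp (-(c₂ * K)) * bb (((i + j : ℕ) : ℝ) * h))) := by ring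
      _ ≤ ENNReal.ofReal (γ ^ 2 * C₁ * (3 * √h + 4 * √(I * h))) +
          ENNReal.ofReal (γ ^ 2 * C₁ * (3 * √h + 4 * √(I * h))) +
          ENNReal.ofReal (γ ^ 2 * (C₂ * Real.exp (-(c₂ * K))) * (3 * √h + 4 * √(n * h))) := by
          gcongr
          · exact double_sum_le hh0 hC₁.le γ hγ.le I n
          · exact double_sum_le hh0 hC₁.le γ hγ.le I n
          · exact double_sum_le hh0 (by positivity) γ hγ.le n n
      _ ≤ _ := by
          rw [← ENNReal.ofReal_add (by positivity) (by positivity),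
            ← ENNReal.ofReal_add (by positivity) (by positivity)]
          apply ENNReal.ofReal_le_ofReal
          have h1 : γ ^ 2 * C₁ * (3 * √h + 4 * √(I * h)) ≤ γ ^ 2 * C₁ * (7 * (√ε * √t)) := by
            gcongr
          have h2 : 3 * √(h : ℝ) + 4 * √(n * h) ≤ 7 * √t := by
            have h3 : √((n : ℝ) * h) ≤ √(t : ℝ) := Real.sqrt_le_sqrt (by rw [hnh]; linarith)
            have h4 : √(h : ℝ) ≤ √(t : ℝ) := Real.sqrt_le_sqrt (by linarith)
            linarith
          have h3 : γ ^ 2 * (C₂ * Real.exp (-(c₂ * K))) * (3 * √h + 4 * √(n * h)) ≤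
              γ ^ 2 * (C₂ * Real.exp (-(c₂ * K))) * (7 * √t) := by gcongr
          have h4 : γ ^ 2 * (14 * C₁ * √ε) * √(t : ℝ) ≤ c₅ / 4 * √t := by gcongr
          have h5 : γ ^ 2 * (C₂ * Real.exp (-(c₂ * K)) * 7) * √(t : ℝ) ≤ c₅ / 4 * √t := by gcongr
          nlinarith [h1, h3, h4, h5]
  -- lower bound for the overlap of the reflected path
  have hL : ENNReal.ofReal (c₅ * √(t : ℝ)) ≤
      ∑' z, ff P (γ * h) (Wm Y h n) (xm n (refl n x)) (Finset.range n) z *
        ff P (γ * h) (Wp Y h n) (xp n (refl n x)) (Finset.Icc 1 n) z := by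
    set Im : Finset ℕ := (Finset.range n).filter (fun i => n ≤ 2 * i) with hIm
    set Ip : Finset ℕ := (Finset.Icc 1 n).filter (fun j => n ≤ 2 * j) with hIp
    have hcm : (n : ℝ) / 4 ≤ Im.card := by
      have h1 : Im.card = n - (n + 1) / 2 := by
        have : Im = Finset.Ico ((n + 1) / 2) n := by
          ext i; simp only [hIm, Finset.mem_filter, Finset.mem_range, Finset.mem_Ico]; omega
        rw [this, Nat.card_Ico]
      have h2 : n ≤ 4 * Im.card := by omega
      have h3 : (n : ℝ) ≤ 4 * Im.card := by exact_mod_cast h2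
      linarith
    have hcp : (n : ℝ) / 4 ≤ Ip.card := by
      have h1 : Ip.card = n + 1 - (n + 1) / 2 := by
        have : Ip = Finset.Ico ((n + 1) / 2) (n + 1) := by
          ext i; simp only [hIp, Finset.mem_filter, Finset.mem_Icc, Finset.mem_Ico]; omega
        rw [this, Nat.card_Ico]
      have h2 : n ≤ 4 * Ip.card := by omega
      have h3 : (n : ℝ) ≤ 4 * Ip.card := by exact_mod_cast h2
      linarith
    have hge := overlap_ge hY (θ := γ * h) (K := Kγ) (G := 2 * C₄ / h) hθ hKγ0 (by positivity)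
      (by
        have : γ * (h : ℝ) * (1 + 2 * (2 * C₄ / h)) = γ * h + 4 * γ * C₄ := by
          field_simp; ring
        rw [this, hKγ]
        have : γ * (h : ℝ) ≤ γ := by nlinarith
        linarith) h n (fun l => ENNReal.ofReal (C₄ * bb (1 + (l * h : ℝ≥0))))
      (fun l v => hup' _ v) (by
        rw [← ENNReal.ofReal_sum_of_nonneg (fun l _ => mul_nonneg hC₄.le
          (bb_nonneg (by positivity)))]
        apply ENNReal.ofReal_le_ofReal
        have h1 := sum_bb hh0' 1 one_pos n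
        rw [Real.sqrt_one, div_one] at h1
        have h2 : ∑ l ∈ Finset.range n, C₄ * bb (1 + (((l + 1 : ℕ) * h : ℝ≥0) : ℝ)) =
            C₄ / h * ∑ j ∈ Finset.range n, (h : ℝ) * bb (1 + (j + 1) * h) := by
          rw [Finset.mul_sum]
          refine Finset.sum_congr rfl fun j _ => ?_
          push_cast
          field_simp
        rw [h2]
        calc C₄ / h * ∑ j ∈ Finset.range n, (h : ℝ) * bb (1 + (j + 1) * h) ≤ C₄ / h * 2 := by
              gcongr
          _ = 2 * C₄ / h := by ring)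
      Im Ip (Finset.filter_subset _ _) (Finset.filter_subset _ _) (refl n x)
    refine le_trans ?_ hge
    have hpt : ∀ i ∈ Im, ∀ j ∈ Ip, ENNReal.ofReal (c₃ * bb t) ≤
        gk ρ ((i + j : ℕ) * h) (refl n x (n + j) - refl n x (n - i)) := by
      intro i hi j hj
      have hi1 := Finset.mem_filter.1 hi
      have hj1 := Finset.mem_filter.1 hj
      have hi2 := Finset.mem_range.1 hi1.1
      have hj2 := Finset.mem_Icc.1 hj1.1
      have hi3 : (n : ℝ) ≤ 2 * i := by exact_mod_cast hi1.2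
      have hj3 : (n : ℝ) ≤ 2 * j := by exact_mod_cast hj1.2
      have hs1 : (t : ℝ) / 2 ≤ ((i + j : ℕ) : ℝ) * h := by
        rw [← hnh]
        push_cast
        gcongr
        linarith
      have hs2 : ((i + j : ℕ) : ℝ) * h ≤ t := by
        have h8 : ((i + j : ℕ) : ℝ) ≤ ((2 * n : ℕ) : ℝ) := by
          exact_mod_cast (by omega : i + j ≤ 2 * n)
        rw [← hnh2]
        gcongr
      have e1 : refl n x (n - i) = x (n - i) := by
        unfold refl; rw [if_pos (Nat.sub_le n i)]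
      have e2 : refl n x (n + j) = x n + x n - x (n + j) := by
        unfold refl; rw [if_neg (by omega)]
      have hv : ∀ l, |((refl n x (n + j) - refl n x (n - i)) l : ℝ)| ≤
          8 * M * √((((i + j : ℕ) : ℝ≥0) * h : ℝ≥0) : ℝ) := by
        intro l
        rw [e1, e2]
        have e3 : ((x n + x n - x (n + j) - x (n - i)) l : ℤ) =
          x n l + x n l - x (n + j) l - x (n - i) l := rfl
        rw [e3]
        have h1 := abs_le.1 (hx1 (n - i) (by
          rw [Nat.cast_sub hi2.le]; nlinarith) l)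
        have h2 := abs_le.1 (hx2 l)
        have h3 := abs_le.1 (hx3 (n + j) (by omega) (by push_cast; nlinarith) l)
        have h4 : √(t : ℝ) ≤ 2 * √((((i + j : ℕ) : ℝ≥0) * h : ℝ≥0) : ℝ) := by
          rw [Real.sqrt_le_left (by positivity), mul_pow, Real.sq_sqrt (by positivity)]
          push_cast at hs1 ⊢
          linarith
        have h5 : |((x n l + x n l - x (n + j) l - x (n - i) l : ℤ) : ℝ)| ≤ 4 * M * √(t : ℝ) := by
          push_cast
          rw [abs_le]
          by_cases hl : l = 0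
          · rw [if_pos hl] at h2 h3
            constructor <;> linarith
          · rw [if_neg hl] at h2 h3
            constructor <;> linarith
        refine h5.trans ?_
        calc 4 * M * √(t : ℝ) ≤ 4 * M * (2 * √((((i + j : ℕ) : ℝ≥0) * h : ℝ≥0) : ℝ)) := by gcongr
          _ = _ := by ring
      have hs3 : s₀ ≤ ((i + j : ℕ) : ℝ≥0) * h := by
        have h1 : ((2 * s₀ : ℝ≥0) : ℝ) ≤ t := by exact_mod_cast hts
        have h2 : (s₀ : ℝ) ≤ ((((i + j : ℕ) : ℝ≥0) * h : ℝ≥0) : ℝ) := by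
          push_cast at h1 hs1 ⊢
          linarith
        exact_mod_cast h2
      refine le_trans ?_ (hlow _ _ hs3 hv)
      apply ENNReal.ofReal_le_ofReal
      have hs4 : (0 : ℝ) < ((i + j : ℕ) : ℝ) * h := by linarith
      have h6 := bb_anti hs4 hs2
      calc c₃ * bb t ≤ c₃ * bb (((i + j : ℕ) : ℝ) * h) := by gcongr
        _ = _ := by
          unfold bb
          push_cast
          ring
    calc ENNReal.ofReal (c₅ * √(t : ℝ))
        ≤ ENNReal.ofReal (γ * h / Kγ) * ENNReal.ofReal (γ * h / Kγ) *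
          (Im.card * (Ip.card * ENNReal.ofReal (c₃ * bb t))) := by
          have e1 : (Im.card : ℝ≥0∞) = ENNReal.ofReal (Im.card : ℝ) := by simp
          have e2 : (Ip.card : ℝ≥0∞) = ENNReal.ofReal (Ip.card : ℝ) := by simp
          have hbt : 0 ≤ bb (t : ℝ) := bb_nonneg ht0.le
          rw [e1, e2, ← ENNReal.ofReal_mul (by positivity), ← ENNReal.ofReal_mul (by positivity),
            ← ENNReal.ofReal_mul (by positivity), ← ENNReal.ofReal_mul (by positivity)]
          apply ENNReal.ofReal_le_ofReal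
          have h1 : c₅ * √(t : ℝ) = γ * h / Kγ * (γ * h / Kγ) * (n / 4 * (n / 4 * (c₃ * bb t))) := by
            have h2 : γ * h / Kγ * (γ * h / Kγ) * (n / 4 * (n / 4 * (c₃ * bb t))) =
                γ ^ 2 / Kγ ^ 2 * c₃ / 16 * (((n : ℝ) * h) * (n * h)) * bb t := by
              ring
            rw [h2, hnh, hc₅]
            unfold bb
            have h3 : √(t : ℝ) * √(t : ℝ) = t := Real.mul_self_sqrt ht0.le
            have h4 : 0 < √(t : ℝ) := by linarith
            have h5 : (t : ℝ) / 2 * (t / 2) * (1 / (t * √(t : ℝ))) = √(t : ℝ) / 4 := by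
              rw [mul_one_div, div_eq_div_iff (by positivity) (by norm_num)]
              nlinarith
            calc γ ^ 2 * c₃ / (64 * Kγ ^ 2) * √(t : ℝ)
                = γ ^ 2 / Kγ ^ 2 * c₃ / 16 * (√(t : ℝ) / 4) := by field_simp; ring
              _ = γ ^ 2 / Kγ ^ 2 * c₃ / 16 * ((t : ℝ) / 2 * (t / 2) * (1 / (t * √(t : ℝ)))) := by
                  rw [h5]
              _ = _ := by ring
          rw [h1]
          gcongr
      _ = ENNReal.ofReal (γ * h / Kγ) * ENNReal.ofReal (γ * h / Kγ) * ∑ i ∈ Im, ∑ j ∈ Ip,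
          ENNReal.ofReal (c₃ * bb t) := by
          simp only [Finset.sum_const, nsmul_eq_mul]
      _ ≤ _ := by
          gcongr with i hi j hj
          exact hpt i hi j hj
  refine Cn_compare hY hθ h n x _ (ENNReal.ofReal (c₅ / 2 * √(t : ℝ))) ENNReal.ofReal_ne_top hU ?_
  refine le_trans (le_of_eq ?_) hL
  rw [← ENNReal.ofReal_add (by positivity) (by positivity)]
  congr 1
  ring

end

end Pool.Agent.W845.Traps
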