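import Pool.Agent.W845.Limit
import Pool.Agent.W845.Energy

/-! The annealed path measure of the tube event. -/

set_option autoImplicit false
set_option linter.unusedSectionVars false

namespace Pool.Agent.W845.Traps

open MeasureTheory ProbabilityTheory Filter Topology
open scoped ENNReal NNReal

universe u

theorem tube_congr {M K ε : ℝ} (hε : 0 ≤ ε) {t : ℝ≥0} {n : ℕ} {x x' : ℕ → Fin 3 → ℤ}
    (h : ∀ k ≤ 2 * n, x k = x' k) (hx : Tube M K ε t n x) : Tube M K ε t n x' := by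
  obtain ⟨h1, h2, h3⟩ := hx
  refine ⟨fun k hk i => ?_, fun i => ?_, fun k hk hk' i => ?_⟩
  · have hk2 : k ≤ 2 * n := by
      have h4 : (k : ℝ) ≤ n := by
        have : 0 ≤ ε * n := by positivity
        nlinarith
      have : k ≤ n := by exact_mod_cast h4
      omega
    rw [← h k hk2]
    exact h1 k hk i
  · rw [← h n (by omega)]
    exact h2 i
  · rw [← h k hk]
    exact h3 k hk hk' i

section

variable {Ω : Type u} [MeasurableSpace Ω] {P : Measure Ω} [IsProbabilityMeasure P]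
  {κ ρ ν : ℝ≥0} {X : ℝ≥0 → Ω → Fin 3 → ℤ} {N : (Fin 3 → ℤ) → Ω → ℕ}
  {Y : (Fin 3 → ℤ) → ℕ → ℝ≥0 → Ω → Fin 3 → ℤ}

theorem pathMeasure_le (hT : TrapModel P κ ρ ν X N Y) (γ : ℝ≥0) {t : ℝ≥0} (ht : 0 < t)
    (A : Set Ω) (c : ℝ≥0∞)
    (h : ∫⁻ ω in A, weight γ X N Y t ω ∂P ≤ c * survival P γ X N Y t) :
    pathMeasure P γ X N Y t A ≤ c := by
  unfold pathMeasure
  rw [Measure.smul_apply, withDensity_apply' _ A, smul_eq_mul]
  have h0 := survival_pos hT γ ht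
  have h1 := survival_ne_top (P := P) (X := X) (N := N) (Y := Y) γ t
  calc (survival P γ X N Y t)⁻¹ * ∫⁻ ω in A, weight γ X N Y t ω ∂P
      ≤ (survival P γ X N Y t)⁻¹ * (c * survival P γ X N Y t) := by gcongr
    _ = c * ((survival P γ X N Y t)⁻¹ * survival P γ X N Y t) := by ring
    _ = c := by rw [ENNReal.inv_mul_cancel h0 h1, mul_one]

theorem tube_small (hT : TrapModel P κ ρ ν X N Y) (hρ : 0 < ρ) {γ : ℝ≥0} (hγ : 0 < γ) {M : ℝ}
    (hM : 0 ≤ M) :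
    ∃ K ε c : ℝ, 0 < K ∧ 0 < ε ∧ ε < 1 / 4 ∧ 0 < c ∧ ∃ t0 : ℝ≥0, 0 < t0 ∧ ∀ t : ℝ≥0, t0 ≤ t →
      ∀ A : Set Ω, (∀ᶠ n in atTop, ∀ ω ∈ A, Tube M K ε t n (gr X (mesh t n) ω)) →
        pathMeasure P γ X N Y t A ≤ ENNReal.ofReal (Real.exp (-(ν * (c * √(t : ℝ))))) := by
  have hγ' : (0 : ℝ) < γ := by exact_mod_cast hγ
  obtain ⟨K, ε, c, hK, hε, hε4, hc, t0, ht0, h⟩ := energy (hT.trap 0 0) hρ hγ' hM
  refine ⟨K, ε, c, hK, hε, hε4, hc, t0, ht0, fun t ht A hA => ?_⟩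
  have htp : 0 < t := lt_of_lt_of_le ht0 ht
  refine pathMeasure_le hT γ htp A _ ?_
  have h1 := reflect_limit hT γ htp A (fun n => Tube M K ε t n)
    (fun n x x' hx => ⟨tube_congr hε.le hx, tube_congr hε.le (fun k hk => (hx k hk).symm)⟩) hA
    (ENNReal.ofReal (c * √(t : ℝ))) (h t ht)
  rw [show ENNReal.ofReal (Real.exp (-(ν * (c * √(t : ℝ))))) =
    En (ν * ENNReal.ofReal (c * √(t : ℝ))) from ?_]
  · exact h1
  · rw [← ENNReal.ofReal_coe_nnreal, ← ENNReal.ofReal_mul (by positivity),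
      En_ofReal (by positivity)]

end

end Pool.Agent.W845.Traps
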