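import Pool.Agent.W845.Brown
import Pool.Agent.W845.Tail

/-! Failure of the invariance principle. -/

set_option autoImplicit false
set_option linter.unusedSectionVars false

namespace Pool.Agent.W845.Traps

open MeasureTheory ProbabilityTheory Filter Topology
open scoped ENNReal NNReal

universe u v

/-- centre of the tube -/
noncomputable def ctr (K ε : ℝ) (u : Set.Icc (0 : ℝ) 1) (i : Fin 3) : ℝ :=
  if i = 0 then K * max 0 (min 2 ((u.1 - (1 / 2 - ε)) / ε)) else 0

/-- width of the tube -/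
noncomputable def wid (M L ε : ℝ) (u : Set.Icc (0 : ℝ) 1) : ℝ :=
  M + L * (max 0 ((u.1 - (1 / 2 - ε)) * ((1 / 2 + ε) - u.1)) * |u.1 - 1 / 2|)

theorem ctr_cont (K ε : ℝ) : Continuous (ctr K ε) := by
  refine continuous_pi fun i => ?_
  unfold ctr
  by_cases hi : i = 0
  · simp only [hi, if_true]
    fun_prop
  · simp only [hi, if_false]
    fun_prop

theorem wid_cont (M L ε : ℝ) : Continuous (wid M L ε) := by
  unfold wid
  fun_prop

theorem ctr_left {K ε : ℝ} (hε : 0 < ε) {u : Set.Icc (0 : ℝ) 1} (hu : u.1 ≤ 1 / 2 - ε)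
    (i : Fin 3) : ctr K ε u i = 0 := by
  unfold ctr
  split_ifs
  · have h1 : (u.1 - (1 / 2 - ε)) / ε ≤ 0 := div_nonpos_of_nonpos_of_nonneg (by linarith) hε.le
    rw [min_eq_right (by linarith), max_eq_left h1, mul_zero]
  · rfl

theorem ctr_mid {K ε : ℝ} (hε : 0 < ε) {u : Set.Icc (0 : ℝ) 1} (hu : u.1 = 1 / 2)
    (i : Fin 3) : ctr K ε u i = if i = 0 then K else 0 := by
  unfold ctr
  split_ifs
  · have h1 : (u.1 - (1 / 2 - ε)) / ε = 1 := by
      rw [hu, div_eq_one_iff_eq hε.ne']; ring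
    rw [h1, min_eq_right (by norm_num), max_eq_right (by norm_num), mul_one]
  · rfl

theorem ctr_right {K ε : ℝ} (hε : 0 < ε) {u : Set.Icc (0 : ℝ) 1} (hu : 1 / 2 + ε ≤ u.1)
    (i : Fin 3) : ctr K ε u i = 2 * (if i = 0 then K else 0) := by
  unfold ctr
  split_ifs
  · have h1 : 2 ≤ (u.1 - (1 / 2 - ε)) / ε := by
      rw [le_div_iff₀ hε]; linarith
    rw [min_eq_left h1, max_eq_right (by norm_num), mul_comm]
  · simp

theorem wid_left {M L ε : ℝ} (hε : 0 < ε) {u : Set.Icc (0 : ℝ) 1} (hu : u.1 ≤ 1 / 2 - ε) :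
    wid M L ε u = M := by
  unfold wid
  have : (u.1 - (1 / 2 - ε)) * ((1 / 2 + ε) - u.1) ≤ 0 :=
    mul_nonpos_of_nonpos_of_nonneg (by linarith) (by linarith)
  rw [max_eq_left this]; ring

theorem wid_mid {M L ε : ℝ} {u : Set.Icc (0 : ℝ) 1} (hu : u.1 = 1 / 2) :
    wid M L ε u = M := by
  unfold wid
  rw [hu]; simp

theorem wid_right {M L ε : ℝ} (hε : 0 < ε) {u : Set.Icc (0 : ℝ) 1} (hu : 1 / 2 + ε ≤ u.1) :
    wid M L ε u = M := by
  unfold wid
  have : (u.1 - (1 / 2 - ε)) * ((1 / 2 + ε) - u.1) ≤ 0 :=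
    mul_nonpos_of_nonneg_of_nonpos (by linarith) (by linarith)
  rw [max_eq_left this]; ring

section

variable {Ω : Type u} {X : ℝ≥0 → Ω → Fin 3 → ℤ}

/-- a nonzero value of the test functional puts the grid path in the tube -/
theorem tube_of_tst {M L K ε : ℝ} (hε : 0 < ε) {t : ℝ≥0} (ht : 0 < t) {ω : Ω}
    (h : tst (ctr K ε) (wid M L ε) (rescaled X t ω) ≠ 0) {n : ℕ} (hn : 1 ≤ n) :
    Tube (M + 1) K ε t n (gr X (mesh t n) ω) := by
  have ht' : (0 : ℝ) < t := by exact_mod_cast ht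
  have hst : 0 < √(t : ℝ) := Real.sqrt_pos.2 ht'
  have hn' : (0 : ℝ) < n := by exact_mod_cast hn
  have hexc := exc_lt_of_tst h
  -- the time of the grid
  have hu : ∀ k : ℕ, k ≤ 2 * n → ∃ u : Set.Icc (0 : ℝ) 1, u.1 = (k : ℝ) / (2 * n) ∧
      ∀ i, rescaled X t ω u i = (gr X (mesh t n) ω k i : ℝ) / √(t : ℝ) := by
    intro k hk
    have hk' : (k : ℝ) ≤ 2 * n := by exact_mod_cast hk
    refine ⟨⟨(k : ℝ) / (2 * n), by positivity, (div_le_one (by positivity)).2 hk'⟩, rfl,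
      fun i => ?_⟩
    unfold rescaled gr
    have h1 : ((k : ℝ) / (2 * n)).toNNReal * t = (k : ℝ≥0) * mesh t n := by
      apply NNReal.coe_injective
      unfold mesh
      push_cast
      rw [Real.coe_toNNReal _ (by positivity)]
      ring
    simp only [h1]
  have hcoord : ∀ (u : Set.Icc (0 : ℝ) 1) (i : Fin 3),
      |rescaled X t ω u i - ctr K ε u i| ≤ wid M L ε u + 1 := fun u i =>
    (norm_le_pi_norm (rescaled X t ω u - ctr K ε u) i).trans (hexc u)
  have hscale : ∀ (z c M' : ℝ), |z / √(t : ℝ) - c| ≤ M' → |z - c * √(t : ℝ)| ≤ M' * √(t : ℝ) := by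
    intro z c M' h1
    have : z - c * √(t : ℝ) = (z / √(t : ℝ) - c) * √(t : ℝ) := by
      field_simp
    rw [this, abs_mul, abs_of_pos hst]
    gcongr
  refine ⟨fun k hk i => ?_, fun i => ?_, fun k hk hk' i => ?_⟩
  · have hk2 : k ≤ 2 * n := by
      have h4 : (k : ℝ) ≤ n := by
        have : 0 ≤ ε * n := by positivity
        nlinarith
      have : k ≤ n := by exact_mod_cast h4
      omega
    obtain ⟨u, hu1, hu2⟩ := hu k hk2
    have hul : u.1 ≤ 1 / 2 - ε := by
      rw [hu1, div_le_iff₀ (by positivity)]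
      nlinarith
    have h1 := hcoord u i
    rw [hu2, ctr_left hε hul, wid_left hε hul] at h1
    have h2 := hscale _ _ _ h1
    simpa using h2
  · obtain ⟨u, hu1, hu2⟩ := hu n (by omega)
    have hum : u.1 = 1 / 2 := by
      rw [hu1]; field_simp
    have h1 := hcoord u i
    rw [hu2, ctr_mid hε hum, wid_mid hum] at h1
    have h2 := hscale _ _ _ h1
    split_ifs with hi
    · rw [if_pos hi] at h2
      exact h2
    · rw [if_neg hi] at h2
      simpa using h2
  · obtain ⟨u, hu1, hu2⟩ := hu k hk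
    have hur : 1 / 2 + ε ≤ u.1 := by
      rw [hu1, le_div_iff₀ (by positivity)]
      nlinarith
    have h1 := hcoord u i
    rw [hu2, ctr_right hε hur, wid_right hε hur] at h1
    have h2 := hscale _ _ _ h1
    split_ifs with hi
    · rw [if_pos hi] at h2
      exact h2
    · rw [if_neg hi] at h2
      simpa using h2

end

section

variable {Ω' : Type v} [MeasurableSpace Ω'] {P' : Measure Ω'} {B : Fin 3 → ℝ≥0 → Ω' → ℝ}

theorem brown_prob (hB : IsStdBrownian P' B) : IsProbabilityMeasure P' :=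
  (hB.brownian 0).isGaussianProcess.isProbabilityMeasure

theorem ae_cont (hB : IsStdBrownian P' B) : ∀ᵐ ω ∂P', ∀ i, Continuous fun s => B i s ω := by
  rw [ae_all_iff]
  exact fun i => (hB.brownian i).cont

theorem exists_r (hB : IsStdBrownian P' B) (σ : ℝ) :
    ∃ r : ℝ, 0 ≤ r ∧ 0 < P' {ω | ∀ i, ∀ u : ℝ≥0, u ≤ 1 → |σ * B i u ω| ≤ r} := by
  have := brown_prob hB
  by_contra hcon
  push Not at hcon
  have h1 : P' (⋃ r : ℕ, {ω | ∀ i, ∀ u : ℝ≥0, u ≤ 1 → |σ * B i u ω| ≤ r}) = 0 := by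
    rw [measure_iUnion_null_iff]
    intro r
    exact nonpos_iff_eq_zero.1 (hcon r (Nat.cast_nonneg r))
  have h2 : ∀ᵐ ω ∂P', ω ∉ (⋃ r : ℕ, {ω | ∀ i, ∀ u : ℝ≥0, u ≤ 1 → |σ * B i u ω| ≤ r}) :=
    measure_eq_zero_iff_ae_notMem.1 h1
  obtain ⟨ω, hω1, hω2⟩ := (h2.and (ae_cont hB)).exists
  apply hω1
  have h3 : ∀ i, ∃ C : ℝ, ∀ u : ℝ≥0, u ≤ 1 → |σ * B i u ω| ≤ C := by
    intro i
    have hc : Continuous fun u : ℝ≥0 => |σ * B i u ω| := by
      have := hω2 i
      fun_prop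
    obtain ⟨C, hC⟩ := (isCompact_Icc (a := (0 : ℝ≥0)) (b := 1)).bddAbove_image hc.continuousOn
    exact ⟨C, fun u hu => hC ⟨u, ⟨zero_le, hu⟩, rfl⟩⟩
  choose C hC using h3
  obtain ⟨r, hr⟩ := exists_nat_ge (∑ i, |C i|)
  rw [Set.mem_iUnion]
  refine ⟨r, fun i u hu => ?_⟩
  calc |σ * B i u ω| ≤ C i := hC i u hu
    _ ≤ |C i| := le_abs_self _
    _ ≤ ∑ i, |C i| := Finset.single_le_sum (f := fun i => |C i|) (fun j _ => abs_nonneg _)
        (Finset.mem_univ i)
    _ ≤ r := hr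

/-- the Brownian tube event -/
theorem brown_pos (hB : IsStdBrownian P' B) {σ r : ℝ} (hσ : 0 < σ)
    (hr : 0 < P' {ω | ∀ i, ∀ u : ℝ≥0, u ≤ 1 → |σ * B i u ω| ≤ r}) {a b c : ℝ≥0} (hab : a < b)
    (hbc : b < c) (hc : c ≤ 1) (k : Fin 3 → ℝ) :
    0 < P' {ω | ∀ i, (fun s => B i s ω) ∈ SS σ r a b c (k i)} := by
  have h1 := hB.indep.measure_inter_preimage_eq_mul Finset.univ
    (sets := fun i => SS σ r a b c (k i)) (fun i _ => SS_meas σ r a b c (k i))
  have h2 : {ω | ∀ i, (fun s => B i s ω) ∈ SS σ r a b c (k i)} =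
      ⋂ i ∈ (Finset.univ : Finset (Fin 3)), (fun ω s => B i s ω) ⁻¹' SS σ r a b c (k i) := by
    ext ω
    simp only [Set.mem_ofPred_eq, Finset.mem_univ, Set.iInter_true, Set.mem_iInter,
      Set.mem_preimage]
  rw [h2, h1]
  rw [pos_iff_ne_zero, Finset.prod_ne_zero_iff]
  intro i _
  have h3 := bm_one (hB.brownian i).toIsPreBrownianReal hσ
    (lt_of_lt_of_le hr (measure_mono fun ω hω => hω i)) hab hbc hc (k i)
  exact h3.ne'

/-- measurability of the test functional along Brownian motion -/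
theorem tst_aemeas (hB : IsStdBrownian P' B) (σ : ℝ) {ψ : Set.Icc (0 : ℝ) 1 → Fin 3 → ℝ}
    {w : Set.Icc (0 : ℝ) 1 → ℝ} (hψ : Continuous ψ) (hw : Continuous w) :
    AEMeasurable (fun ω' => tst ψ w (fun s i => σ * B i s.1.toNNReal ω')) P' := by
  set q : ℕ → Set.Icc (0 : ℝ) 1 := TopologicalSpace.denseSeq (Set.Icc (0 : ℝ) 1) with hq
  have hqd : DenseRange q := TopologicalSpace.denseRange_denseSeq _
  have h1 : AEMeasurable (fun ω' => (1 - ⨆ n, ENNReal.ofReal
      (‖(fun i => σ * B i (q n).1.toNNReal ω') - ψ (q n)‖ - w (q n))).toReal) P' := by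
    refine AEMeasurable.ennreal_toReal (AEMeasurable.const_sub (AEMeasurable.iSup fun n => ?_) _)
    refine AEMeasurable.ennreal_ofReal (AEMeasurable.sub_const ?_ _)
    refine AEMeasurable.norm ?_
    refine AEMeasurable.sub_const ?_ _
    exact aemeasurable_pi_lambda _ fun i => ((hB.brownian i).aemeasurable _).const_mul σ
  refine h1.congr ?_
  filter_upwards [ae_cont hB] with ω' hω
  unfold tst exc
  congr 2
  apply le_antisymm
  · exact iSup_le fun n => le_iSup (fun u : Set.Icc (0 : ℝ) 1 =>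
      ENNReal.ofReal (‖(fun i => σ * B i u.1.toNNReal ω') - ψ u‖ - w u)) (q n)
  · refine iSup_le fun u => ?_
    have hcont : Continuous fun u : Set.Icc (0 : ℝ) 1 =>
        ENNReal.ofReal (‖(fun i => σ * B i u.1.toNNReal ω') - ψ u‖ - w u) := by
      refine ENNReal.continuous_ofReal.comp (Continuous.sub (Continuous.norm ?_) hw)
      refine Continuous.sub ?_ hψ
      refine continuous_pi fun i => continuous_const.mul ?_
      exact (hω i).comp (continuous_real_toNNReal.comp continuous_subtype_val)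
    have hcl : IsClosed {u : Set.Icc (0 : ℝ) 1 |
        ENNReal.ofReal (‖(fun i => σ * B i u.1.toNNReal ω') - ψ u‖ - w u) ≤
        ⨆ n, ENNReal.ofReal (‖(fun i => σ * B i (q n).1.toNNReal ω') - ψ (q n)‖ - w (q n))} :=
      isClosed_le hcont continuous_const
    have hsub : Set.range q ⊆ {u : Set.Icc (0 : ℝ) 1 |
        ENNReal.ofReal (‖(fun i => σ * B i u.1.toNNReal ω') - ψ u‖ - w u) ≤
        ⨆ n, ENNReal.ofReal (‖(fun i => σ * B i (q n).1.toNNReal ω') - ψ (q n)‖ - w (q n))} := by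
      rintro _ ⟨n, rfl⟩
      exact le_iSup (fun n => ENNReal.ofReal
        (‖(fun i => σ * B i (q n).1.toNNReal ω') - ψ (q n)‖ - w (q n))) n
    have := closure_minimal hsub hcl
    rw [hqd.closure_range] at this
    exact this (Set.mem_univ u)

/-- compactness: some `L` works for a continuous path in the tube -/
theorem exists_L {f : Set.Icc (0 : ℝ) 1 → Fin 3 → ℝ} (hf : Continuous f) {M K ε : ℝ}
    (hε : 0 < ε)
    (h1 : ∀ u : Set.Icc (0 : ℝ) 1, u.1 ≤ 1 / 2 - ε → ∀ i, |f u i| ≤ M)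
    (h2 : ∀ u : Set.Icc (0 : ℝ) 1, u.1 = 1 / 2 → ∀ i, |f u i - if i = 0 then K else 0| ≤ M)
    (h3 : ∀ u : Set.Icc (0 : ℝ) 1, 1 / 2 + ε ≤ u.1 →
      ∀ i, |f u i - 2 * (if i = 0 then K else 0)| ≤ M) (hM : 0 ≤ M) :
    ∃ L : ℕ, 0 < tst (ctr K ε) (wid M L ε) f := by
  set U : ℕ → Set (Set.Icc (0 : ℝ) 1) := fun L => {u | ‖f u - ctr K ε u‖ - wid M L ε u < 1 / 2}
    with hU
  have hopen : ∀ L, IsOpen (U L) := fun L =>
    isOpen_lt (((hf.sub (ctr_cont K ε)).norm).sub (wid_cont M L ε)) continuous_const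
  have hcov : (Set.univ : Set (Set.Icc (0 : ℝ) 1)) ⊆ ⋃ L, U L := by
    intro u _
    rw [Set.mem_iUnion]
    have hnorm : ∀ (hh : ∀ i, |f u i - ctr K ε u i| ≤ M), ‖f u - ctr K ε u‖ ≤ M := by
      intro hh
      rw [pi_norm_le_iff_of_nonneg hM]
      exact hh
    by_cases ha : u.1 ≤ 1 / 2 - ε
    · refine ⟨0, ?_⟩
      show ‖f u - ctr K ε u‖ - wid M (0 : ℕ) ε u < 1 / 2
      rw [wid_left hε ha]
      have := hnorm (fun i => by rw [ctr_left hε ha, sub_zero]; exact h1 u ha i)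
      linarith
    by_cases hb : u.1 = 1 / 2
    · refine ⟨0, ?_⟩
      show ‖f u - ctr K ε u‖ - wid M (0 : ℕ) ε u < 1 / 2
      rw [wid_mid hb]
      have := hnorm (fun i => by rw [ctr_mid hε hb]; exact h2 u hb i)
      linarith
    by_cases hc : 1 / 2 + ε ≤ u.1
    · refine ⟨0, ?_⟩
      show ‖f u - ctr K ε u‖ - wid M (0 : ℕ) ε u < 1 / 2
      rw [wid_right hε hc]
      have := hnorm (fun i => by rw [ctr_right hε hc]; exact h3 u hc i)
      linarith
    · push Not at ha hc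
      set d : ℝ := max 0 ((u.1 - (1 / 2 - ε)) * ((1 / 2 + ε) - u.1)) * |u.1 - 1 / 2| with hd
      have hdpos : 0 < d := by
        have h4 : 0 < (u.1 - (1 / 2 - ε)) * ((1 / 2 + ε) - u.1) :=
          mul_pos (by linarith) (by linarith)
        have h5 : 0 < |u.1 - 1 / 2| := abs_pos.2 (sub_ne_zero.2 hb)
        rw [hd, max_eq_right h4.le]
        exact mul_pos h4 h5
      obtain ⟨L, hL⟩ := exists_nat_ge (‖f u - ctr K ε u‖ / d)
      refine ⟨L, ?_⟩
      rw [div_le_iff₀ hdpos] at hL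
      show ‖f u - ctr K ε u‖ - (M + (L : ℝ) * d) < 1 / 2
      linarith
  have hmono : Monotone U := by
    intro L L' hL u hu
    have hu' : ‖f u - ctr K ε u‖ - wid M L ε u < 1 / 2 := hu
    show ‖f u - ctr K ε u‖ - wid M L' ε u < 1 / 2
    refine lt_of_le_of_lt ?_ hu'
    have hL' : (L : ℝ) ≤ L' := by exact_mod_cast hL
    have h5 : 0 ≤ max 0 ((u.1 - (1 / 2 - ε)) * ((1 / 2 + ε) - u.1)) * |u.1 - 1 / 2| := by
      positivity
    unfold wid
    nlinarith
  obtain ⟨L, hL⟩ := isCompact_univ.elim_directed_cover U hopen hcov hmono.directed_le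
  refine ⟨L, tst_pos_of_exc fun u => ?_⟩
  have : ‖f u - ctr K ε u‖ - wid M L ε u < 1 / 2 := hL (Set.mem_univ u)
  exact this.le

/-- some test functional sees Brownian motion -/
theorem exists_tst (hB : IsStdBrownian P' B) {σ r : ℝ} (hσ : 0 < σ) (hr0 : 0 ≤ r)
    (hr : 0 < P' {ω | ∀ i, ∀ u : ℝ≥0, u ≤ 1 → |σ * B i u ω| ≤ r}) {K ε : ℝ} (hε : 0 < ε)
    (hε4 : ε < 1 / 4) :
    ∃ L : ℕ, 0 < ∫ ω', tst (ctr K ε) (wid (3 * r + 2) L ε)
      (fun s i => σ * B i s.1.toNNReal ω') ∂P' := by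
  have := brown_prob hB
  set a : ℝ≥0 := (1 / 2 - ε).toNNReal with ha
  set b : ℝ≥0 := (1 / 2 : ℝ).toNNReal with hb
  set c : ℝ≥0 := (1 / 2 + ε).toNNReal with hc
  have ha' : (a : ℝ) = 1 / 2 - ε := Real.coe_toNNReal _ (by linarith)
  have hb' : (b : ℝ) = 1 / 2 := Real.coe_toNNReal _ (by norm_num)
  have hc' : (c : ℝ) = 1 / 2 + ε := Real.coe_toNNReal _ (by linarith)
  have ha0 : 0 < a := by rw [← NNReal.coe_pos, ha']; linarith
  have hab : a < b := by rw [← NNReal.coe_lt_coe, ha', hb']; linarith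
  have hbc : b < c := by rw [← NNReal.coe_lt_coe, hb', hc']; linarith
  have hc1 : c < 1 := by rw [← NNReal.coe_lt_coe, hc', NNReal.coe_one]; linarith
  have hpos := brown_pos hB hσ hr hab hbc hc1.le (fun i => if i = 0 then K else 0)
  set E : Set Ω' := {ω | ∀ i, (fun s => B i s ω) ∈ SS σ r a b c (if i = 0 then K else 0)} with hE
  -- for almost every point of `E` some `L` works
  have hae : ∀ᵐ ω ∂P', ω ∈ E → ∃ L : ℕ, 0 < tst (ctr K ε) (wid (3 * r + 2) L ε)
      (fun s i => σ * B i s.1.toNNReal ω) := by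
    filter_upwards [ae_cont hB] with ω hω hωE
    refine exists_L ?_ hε ?_ ?_ ?_ (by positivity)
    · refine continuous_pi fun i => continuous_const.mul ?_
      exact (hω i).comp (continuous_real_toNNReal.comp continuous_subtype_val)
    · intro u hu i
      obtain ⟨h1, -, -⟩ := hωE i
      have hcl : IsClosed {x : ℝ | |σ * x| ≤ r} :=
        isClosed_le (by fun_prop) continuous_const
      have h2 := ext_Iic (hω i) hcl ha0 h1 u.1.toNNReal (by
        rw [Real.toNNReal_le_iff_le_coe, ha']; exact hu)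
      have h3 : |σ * B i u.1.toNNReal ω| ≤ r := h2
      linarith
    · intro u hu i
      obtain ⟨-, h1, -⟩ := hωE i
      have h2 : u.1.toNNReal = b := by rw [hu, hb]
      have h3 : |σ * B i b ω - (if i = 0 then K else 0)| ≤ r + 1 := h1
      rw [h2]
      linarith
    · intro u hu i
      obtain ⟨-, -, h1⟩ := hωE i
      have hcl : IsClosed {x : ℝ | |σ * x - 2 * (if i = 0 then K else 0)| ≤ 3 * r + 2} :=
        isClosed_le (by fun_prop) continuous_const
      exact ext_Icc (hω i) hcl hc1 h1 u.1.toNNReal (by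
        rw [← NNReal.coe_le_coe, hc', Real.coe_toNNReal _ u.2.1]; exact hu) (by
        rw [Real.toNNReal_le_iff_le_coe, NNReal.coe_one]; exact u.2.2)
  -- hence one `L` works with positive probability
  obtain ⟨L, hL⟩ : ∃ L : ℕ, P' {ω | 0 < tst (ctr K ε) (wid (3 * r + 2) L ε)
      (fun s i => σ * B i s.1.toNNReal ω)} ≠ 0 := by
    by_contra hcon
    push Not at hcon
    have h1 : P' (⋃ L : ℕ, {ω | 0 < tst (ctr K ε) (wid (3 * r + 2) L ε)
      (fun s i => σ * B i s.1.toNNReal ω)}) = 0 := measure_iUnion_null_iff.2 hcon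
    have h2 : P' E = 0 := by
      have h3 : E ≤ᵐ[P'] (⋃ L : ℕ, {ω | 0 < tst (ctr K ε) (wid (3 * r + 2) L ε)
        (fun s i => σ * B i s.1.toNNReal ω)} : Set Ω') := by
        filter_upwards [hae] with ω hω hωE
        obtain ⟨L, hL⟩ := hω hωE
        exact Set.mem_iUnion.2 ⟨L, hL⟩
      exact nonpos_iff_eq_zero.1 ((measure_mono_ae h3).trans h1.le)
    exact hpos.ne' h2
  refine ⟨L, ?_⟩
  have hm := tst_aemeas hB σ (ctr_cont K ε) (wid_cont (3 * r + 2) L ε)
  have hint : Integrable (fun ω' => tst (ctr K ε) (wid (3 * r + 2) L ε)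
      (fun s i => σ * B i s.1.toNNReal ω')) P' := by
    refine Integrable.of_bound hm.aestronglyMeasurable 1 ?_
    refine Eventually.of_forall fun ω' => ?_
    rw [Real.norm_eq_abs, abs_of_nonneg (tst_nonneg _ _ _)]
    exact tst_le_one _ _ _
  rw [integral_pos_iff_support_of_nonneg (fun ω' => tst_nonneg _ _ _) hint]
  rw [pos_iff_ne_zero]
  intro h0
  apply hL
  refine measure_mono_null ?_ h0
  intro ω hω
  exact (show 0 < tst (ctr K ε) (wid (3 * r + 2) L ε)
      (fun s i => σ * B i s.1.toNNReal ω) from hω).ne'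

end

/-- **The invariance principle fails.** -/
theorem not_converges {Ω : Type u} [MeasurableSpace Ω] {P : Measure Ω} {κ ρ ν γ : ℝ≥0}
    {X : ℝ≥0 → Ω → Fin 3 → ℤ} {N : (Fin 3 → ℤ) → Ω → ℕ}
    {Y : (Fin 3 → ℤ) → ℕ → ℝ≥0 → Ω → Fin 3 → ℤ} (hρ : 0 < ρ) (hν : 0 < ν) (hγ : 0 < γ)
    (hT : TrapModel P κ ρ ν X N Y) {Ω' : Type v} [MeasurableSpace Ω'] {P' : Measure Ω'}
    {B : Fin 3 → ℝ≥0 → Ω' → ℝ} (hB : IsStdBrownian P' B) {σ : ℝ} (hσ : 0 < σ) :
    ¬ ConvergesToBrownian (fun t => pathMeasure P γ X N Y t) X P' B σ := by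
  have hP : IsProbabilityMeasure P := by
    have h1 := hT.number 0
    have h2 : P.map (N 0) Set.univ = 1 := by rw [h1]; exact measure_univ
    rw [Measure.map_apply (hT.number_meas 0) MeasurableSet.univ, Set.preimage_univ] at h2
    exact ⟨h2⟩
  intro hconv
  obtain ⟨r, hr0, hr⟩ := exists_r hB σ
  obtain ⟨K, ε, c, hK, hε, hε4, hc, t0, ht0, hsmall⟩ := tube_small hT hρ hγ
    (M := 3 * r + 2 + 1) (by positivity)
  obtain ⟨L, hL⟩ := exists_tst hB hσ hr0 hr (K := K) hε hε4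
  set Φ := tst (ctr K ε) (wid (3 * r + 2) L ε) with hΦ
  have h1 := hconv Φ ⟨1, fun f => by
    rw [abs_of_nonneg (tst_nonneg _ _ _)]; exact tst_le_one _ _ _⟩
    (tst_skor (ctr_cont K ε) (wid_cont _ _ _))
  -- the integrals tend to zero
  have h2 : Tendsto (fun t : ℝ≥0 => ∫ ω, Φ (rescaled X t ω) ∂(pathMeasure P γ X N Y t)) atTop
      (𝓝 0) := by
    have hbound : ∀ᶠ t : ℝ≥0 in atTop, |∫ ω, Φ (rescaled X t ω) ∂(pathMeasure P γ X N Y t)| ≤
        Real.exp (-(ν * (c * √(t : ℝ)))) := by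
      filter_upwards [eventually_ge_atTop t0] with t ht
      have htp : 0 < t := lt_of_lt_of_le ht0 ht
      set A : Set Ω := {ω | Φ (rescaled X t ω) ≠ 0} with hA
      have hQ := hsmall t ht A (by
        filter_upwards [eventually_ge_atTop 1] with n hn ω hω
        exact tube_of_tst hε htp hω hn)
      have h3 : ‖∫ ω, Φ (rescaled X t ω) ∂(pathMeasure P γ X N Y t)‖ₑ ≤
          ENNReal.ofReal (Real.exp (-(ν * (c * √(t : ℝ))))) := by
        refine (enorm_integral_le_lintegral_enorm _).trans (le_trans ?_ hQ)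
        calc ∫⁻ ω, ‖Φ (rescaled X t ω)‖ₑ ∂(pathMeasure P γ X N Y t)
            ≤ ∫⁻ ω, (toMeasurable (pathMeasure P γ X N Y t) A).indicator 1 ω
              ∂(pathMeasure P γ X N Y t) := by
              refine lintegral_mono fun ω => ?_
              by_cases hω : ω ∈ A
              · rw [Set.indicator_of_mem (subset_toMeasurable _ _ hω)]
                rw [Real.enorm_eq_ofReal (tst_nonneg _ _ _)]
                show ENNReal.ofReal (Φ (rescaled X t ω)) ≤ 1
                rw [ENNReal.ofReal_le_one]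
                exact tst_le_one _ _ _
              · have : Φ (rescaled X t ω) = 0 := by
                  by_contra h
                  exact hω h
                rw [this]
                simp
          _ = pathMeasure P γ X N Y t A := by
              rw [lintegral_indicator_one (measurableSet_toMeasurable _ _), measure_toMeasurable]
      rw [← ofReal_norm] at h3
      rw [← Real.norm_eq_abs]
      exact (ENNReal.ofReal_le_ofReal_iff (Real.exp_pos _).le).1 h3
    rw [tendsto_zero_iff_abs_tendsto_zero]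
    refine squeeze_zero' (Eventually.of_forall fun _ => abs_nonneg _) hbound ?_
    have hν' : (0 : ℝ) < ν := by exact_mod_cast hν
    refine Real.tendsto_exp_neg_atTop_nhds_zero.comp ?_
    refine Tendsto.const_mul_atTop hν' (Tendsto.const_mul_atTop hc ?_)
    exact Real.tendsto_sqrt_atTop.comp (NNReal.tendsto_coe_atTop.2 tendsto_id)
  have h3 := tendsto_nhds_unique h1 h2
  rw [h3] at hL
  exact lt_irrefl _ hL

end Pool.Agent.W845.Traps
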