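import Pool.Agent.W845.Sums

/-! Probability that a trap is marked: first and second moment bounds. -/

set_option autoImplicit false

namespace Pool.Agent.W845.Traps

open MeasureTheory ProbabilityTheory Filter Topology
open scoped ENNReal NNReal

universe u

/-- `exp (-θ m)` -/
noncomputable def ee (θ : ℝ) (m : ℕ) : ℝ≥0∞ := ENNReal.ofReal (Real.exp (-(θ * m)))

theorem ee_le_one {θ : ℝ} (hθ : 0 ≤ θ) (m : ℕ) : ee θ m ≤ 1 := by
  unfold ee
  rw [ENNReal.ofReal_le_one, Real.exp_le_one_iff]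
  have : 0 ≤ θ * m := by positivity
  linarith

theorem ee_ne_top (θ : ℝ) (m : ℕ) : ee θ m ≠ ∞ := ENNReal.ofReal_ne_top

theorem ee_add (θ : ℝ) (m n : ℕ) : ee θ (m + n) = ee θ m * ee θ n := by
  unfold ee
  rw [← ENNReal.ofReal_mul (Real.exp_pos _).le, ← Real.exp_add]
  congr 2
  push_cast; ring

theorem ee_anti {θ : ℝ} (hθ : 0 ≤ θ) {m n : ℕ} (h : m ≤ n) : ee θ n ≤ ee θ m := by
  unfold ee
  apply ENNReal.ofReal_le_ofReal
  rw [Real.exp_le_exp]
  have : (m : ℝ) ≤ n := by exact_mod_cast h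
  nlinarith

theorem one_sub_ee_le {θ : ℝ} (hθ : 0 ≤ θ) (m : ℕ) : 1 - ee θ m ≤ ENNReal.ofReal θ * m := by
  unfold ee
  rw [← ENNReal.ofReal_one, ← ENNReal.ofReal_sub _ (Real.exp_pos _).le,
    ← ENNReal.ofReal_natCast, ← ENNReal.ofReal_mul hθ]
  apply ENNReal.ofReal_le_ofReal
  have := Real.add_one_le_exp (-(θ * m))
  linarith

/-- quadratic lower bound -/
theorem one_sub_ee_ge {θ K : ℝ} (hθ : 0 ≤ θ) (hK : 0 < K) (m : ℕ) :
    ENNReal.ofReal (2 * θ / K) * m ≤
      (1 - ee θ m) + ENNReal.ofReal (θ / K ^ 2) * m + ENNReal.ofReal (θ ^ 2 / K ^ 2) * (m * m) := by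
  unfold ee
  rw [← ENNReal.ofReal_one, ← ENNReal.ofReal_sub _ (Real.exp_pos _).le,
    ← ENNReal.ofReal_natCast, ← ENNReal.ofReal_mul (by positivity),
    ← ENNReal.ofReal_mul (by positivity), ← ENNReal.ofReal_mul (by positivity),
    ← ENNReal.ofReal_mul (by positivity)]
  have he : 0 ≤ 1 - Real.exp (-(θ * m)) := by
    have : Real.exp (-(θ * m)) ≤ 1 := by
      rw [Real.exp_le_one_iff]
      have : 0 ≤ θ * m := by positivity
      linarith
    linarith
  rw [← ENNReal.ofReal_add he (by positivity), ← ENNReal.ofReal_add (by positivity) (by positivity)]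
  apply ENNReal.ofReal_le_ofReal
  set a : ℝ := θ * m with ha
  have ha0 : 0 ≤ a := by positivity
  have h1 : a / (1 + a) ≤ 1 - Real.exp (-a) := by
    have h2 : Real.exp (-a) ≤ 1 / (1 + a) := by
      rw [Real.exp_neg, ← one_div]
      apply one_div_le_one_div_of_le (by positivity)
      linarith [Real.add_one_le_exp a]
    have h3 : a / (1 + a) = 1 - 1 / (1 + a) := by field_simp; ring
    linarith
  have h4 : 2 * a / K ≤ a / (1 + a) + a * (1 + a) / K ^ 2 := by
    rw [div_add_div _ _ (by positivity) (by positivity), div_le_div_iff₀ hK (by positivity)]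
    have : 0 ≤ a * K * (K - (1 + a)) ^ 2 := by positivity
    nlinarith
  have e1 : 2 * θ / K * m = 2 * a / K := by rw [ha]; ring
  have e2 : θ / K ^ 2 * m + θ ^ 2 / K ^ 2 * (m * m) = a * (1 + a) / K ^ 2 := by rw [ha]; ring
  rw [e1, add_assoc, e2]
  linarith

section

variable {Ω : Type u} [MeasurableSpace Ω]

/-- number of coincidences of the trap `z + W` with the path `w` -/
def cnt (W : ℕ → Ω → Fin 3 → ℤ) (w : ℕ → Fin 3 → ℤ) (S : Finset ℕ) (z : Fin 3 → ℤ) (ω : Ω) : ℕ :=
  (S.filter fun j => z + W j ω = w j).card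

/-- probability that the trap started from `z` is marked -/
noncomputable def ff (P : Measure Ω) (θ : ℝ) (W : ℕ → Ω → Fin 3 → ℤ) (w : ℕ → Fin 3 → ℤ)
    (S : Finset ℕ) (z : Fin 3 → ℤ) : ℝ≥0∞ :=
  ∫⁻ ω, (1 - ee θ (cnt W w S z ω)) ∂P

omit [MeasurableSpace Ω] in
theorem cnt_eq (W : ℕ → Ω → Fin 3 → ℤ) (w : ℕ → Fin 3 → ℤ) (S : Finset ℕ) (z : Fin 3 → ℤ)
    (ω : Ω) : (cnt W w S z ω : ℝ≥0∞) =
      ∑ j ∈ S, ({ω | W j ω = w j - z} : Set Ω).indicator 1 ω := by
  classical
  unfold cnt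
  rw [Finset.card_filter]
  push_cast
  refine Finset.sum_congr rfl fun j _ => ?_
  have : (z + W j ω = w j) ↔ ω ∈ ({ω | W j ω = w j - z} : Set Ω) := by
    simp only [Set.mem_ofPred_eq]
    constructor
    · intro h; rw [← h]; abel
    · intro h; rw [h]; abel
  by_cases h : z + W j ω = w j
  · rw [if_pos h, Set.indicator_of_mem (this.1 h)]; rfl
  · rw [if_neg h, Set.indicator_of_notMem (fun h' => h (this.2 h'))]

theorem cnt_meas {W : ℕ → Ω → Fin 3 → ℤ} (hW : ∀ j, Measurable (W j)) (w : ℕ → Fin 3 → ℤ)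
    (S : Finset ℕ) (z : Fin 3 → ℤ) : Measurable (cnt W w S z) := by
  classical
  unfold cnt
  simp_rw [Finset.card_filter]
  refine Finset.measurable_sum _ fun j _ => ?_
  refine Measurable.ite ?_ measurable_const measurable_const
  exact (measurableSet_eq_fun (measurable_const.add (hW j)) measurable_const)

theorem lintegral_cnt {P : Measure Ω} {W : ℕ → Ω → Fin 3 → ℤ} (hW : ∀ j, Measurable (W j))
    (w : ℕ → Fin 3 → ℤ) (S : Finset ℕ) (z : Fin 3 → ℤ) :
    ∫⁻ ω, (cnt W w S z ω : ℝ≥0∞) ∂P = ∑ j ∈ S, P {ω | W j ω = w j - z} := by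
  have hm : ∀ j, MeasurableSet {ω | W j ω = w j - z} := fun j =>
    measurableSet_eq_fun (hW j) measurable_const
  simp_rw [cnt_eq]
  rw [lintegral_finsetSum _ (fun j _ => measurable_one.indicator (hm j))]
  refine Finset.sum_congr rfl fun j _ => ?_
  rw [lintegral_indicator_one (hm j)]

theorem lintegral_cnt_sq {P : Measure Ω} {W : ℕ → Ω → Fin 3 → ℤ} (hW : ∀ j, Measurable (W j))
    (w : ℕ → Fin 3 → ℤ) (S : Finset ℕ) (z : Fin 3 → ℤ) :
    ∫⁻ ω, (cnt W w S z ω : ℝ≥0∞) * cnt W w S z ω ∂P =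
      ∑ i ∈ S, ∑ j ∈ S, P {ω | W i ω = w i - z ∧ W j ω = w j - z} := by
  have hm : ∀ i j, MeasurableSet {ω | W i ω = w i - z ∧ W j ω = w j - z} := fun i j =>
    (measurableSet_eq_fun (hW i) measurable_const).inter
      (measurableSet_eq_fun (hW j) measurable_const)
  have h1 : ∀ ω, (cnt W w S z ω : ℝ≥0∞) * cnt W w S z ω =
      ∑ i ∈ S, ∑ j ∈ S, ({ω | W i ω = w i - z ∧ W j ω = w j - z} : Set Ω).indicator 1 ω := by
    intro ω
    rw [cnt_eq, Finset.sum_mul_sum]
    refine Finset.sum_congr rfl fun i _ => Finset.sum_congr rfl fun j _ => ?_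
    rw [← Set.inter_indicator_mul]
    simp only [Pi.one_apply, mul_one]
    rfl
  simp_rw [h1]
  rw [lintegral_finsetSum]
  · refine Finset.sum_congr rfl fun i _ => ?_
    rw [lintegral_finsetSum _ (fun j _ => measurable_one.indicator (hm i j))]
    refine Finset.sum_congr rfl fun j _ => ?_
    rw [lintegral_indicator_one (hm i j)]
  · intro i _
    exact Finset.measurable_sum _ fun j _ => measurable_one.indicator (hm i j)

/-- first moment upper bound -/
theorem ff_le {P : Measure Ω} {θ : ℝ} (hθ : 0 ≤ θ) {W : ℕ → Ω → Fin 3 → ℤ}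
    (hW : ∀ j, Measurable (W j)) (w : ℕ → Fin 3 → ℤ) (S : Finset ℕ) (z : Fin 3 → ℤ)
    (g : ℕ → (Fin 3 → ℤ) → ℝ≥0∞) (hg : ∀ j ∈ S, ∀ v, P {ω | W j ω = v} = g j v) :
    ff P θ W w S z ≤ ENNReal.ofReal θ * ∑ j ∈ S, g j (w j - z) := by
  unfold ff
  calc ∫⁻ ω, (1 - ee θ (cnt W w S z ω)) ∂P
      ≤ ∫⁻ ω, ENNReal.ofReal θ * cnt W w S z ω ∂P :=
        lintegral_mono fun ω => one_sub_ee_le hθ _
    _ = ENNReal.ofReal θ * ∑ j ∈ S, P {ω | W j ω = w j - z} := by
        have hmc : Measurable fun ω => (cnt W w S z ω : ℝ≥0∞) :=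
          (measurable_of_countable _).comp (cnt_meas hW w S z)
        rw [lintegral_const_mul _ hmc, lintegral_cnt hW]
    _ = _ := by
        congr 1
        exact Finset.sum_congr rfl fun j hj => hg j hj _

/-- second moment lower bound -/
theorem ff_ge {P : Measure Ω} [IsProbabilityMeasure P] {θ K G : ℝ} (hθ : 0 ≤ θ) (hK : 0 < K)
    (hG0 : 0 ≤ G) (hKG : 1 + θ * (1 + 2 * G) ≤ K) {W : ℕ → Ω → Fin 3 → ℤ}
    (hW : ∀ j, Measurable (W j)) (w : ℕ → Fin 3 → ℤ) (S I : Finset ℕ) (hIS : I ⊆ S)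
    (z : Fin 3 → ℤ)
    (g : ℕ → (Fin 3 → ℤ) → ℝ≥0∞) (q : ℕ → ℝ≥0∞) (n : ℕ) (hI : I ⊆ Finset.range (n + 1))
    (hg : ∀ j ∈ I, ∀ v, P {ω | W j ω = v} = g j v)
    (hg2 : ∀ i ∈ I, ∀ j ∈ I, i < j → ∀ v v', P {ω | W i ω = v ∧ W j ω = v'} ≤ g i v * q (j - i))
    (hq : ∑ l ∈ Finset.range n, q (l + 1) ≤ ENNReal.ofReal G) :
    ENNReal.ofReal (θ / K) * ∑ j ∈ I, g j (w j - z) ≤ ff P θ W w S z := by
  classical
  set A : ℝ≥0∞ := ∑ j ∈ I, g j (w j - z) with hA
  have hA' : ∫⁻ ω, (cnt W w I z ω : ℝ≥0∞) ∂P = A := by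
    rw [lintegral_cnt hW]
    exact Finset.sum_congr rfl fun j hj => hg j hj _
  have hAtop : A ≠ ∞ := by
    rw [hA, ENNReal.sum_ne_top]
    intro j hj
    rw [← hg j hj]
    exact measure_ne_top _ _
  have hsq : ∫⁻ ω, (cnt W w I z ω : ℝ≥0∞) * cnt W w I z ω ∂P ≤ A * ENNReal.ofReal (1 + 2 * G) := by
    rw [lintegral_cnt_sq hW]
    have hpt : ∀ i ∈ I, ∀ j ∈ I, P {ω | W i ω = w i - z ∧ W j ω = w j - z} ≤
        (if i = j then g i (w i - z) else 0) + (if i < j then g i (w i - z) * q (j - i) else 0) +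
          (if j < i then g j (w j - z) * q (i - j) else 0) := by
      intro i hi j hj
      rcases lt_trichotomy i j with h | h | h
      · rw [if_pos h]
        refine (hg2 i hi j hj h _ _).trans ?_
        exact le_add_right (le_add_left le_rfl)
      · subst h
        rw [if_pos rfl, ← hg i hi]
        refine le_add_right (le_add_right (measure_mono fun ω hω => hω.1))
      · rw [if_pos h]
        refine le_trans ?_ (le_add_left le_rfl)
        refine le_trans (le_of_eq ?_) (hg2 j hj i hi h (w j - z) (w i - z))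
        congr 1
        ext ω
        exact and_comm
    have hsum : ∀ i ∈ I, ∑ j ∈ I, (if i < j then g i (w i - z) * q (j - i) else 0) ≤
        g i (w i - z) * ENNReal.ofReal G := by
      intro i hi
      rw [← Finset.sum_filter, ← Finset.mul_sum]
      gcongr
      refine le_trans ?_ hq
      have h1 : ∑ j ∈ I.filter (fun j => i < j), q (j - i) =
          ∑ l ∈ (I.filter (fun j => i < j)).image (fun j => j - i - 1), q (l + 1) := by
        rw [Finset.sum_image]
        · refine Finset.sum_congr rfl fun j hj => ?_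
          have := (Finset.mem_filter.1 hj).2
          congr 1; omega
        · intro a ha b hb hab
          have h1 := (Finset.mem_filter.1 ha).2
          have h2 := (Finset.mem_filter.1 hb).2
          simp only at hab
          omega
      rw [h1]
      apply Finset.sum_le_sum_of_subset
      intro l hl
      obtain ⟨j, hj, rfl⟩ := Finset.mem_image.1 hl
      have h2 := Finset.mem_filter.1 hj
      have h3 := Finset.mem_range.1 (hI h2.1)
      rw [Finset.mem_range]
      omega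
    calc _ ≤ ∑ i ∈ I, ∑ j ∈ I, ((if i = j then g i (w i - z) else 0) +
            (if i < j then g i (w i - z) * q (j - i) else 0) +
            (if j < i then g j (w j - z) * q (i - j) else 0)) :=
          Finset.sum_le_sum fun i hi => Finset.sum_le_sum fun j hj => hpt i hi j hj
      _ = (∑ i ∈ I, ∑ j ∈ I, (if i = j then g i (w i - z) else 0)) +
          (∑ i ∈ I, ∑ j ∈ I, (if i < j then g i (w i - z) * q (j - i) else 0)) +
          (∑ j ∈ I, ∑ i ∈ I, (if j < i then g j (w j - z) * q (i - j) else 0)) := by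
          simp_rw [Finset.sum_add_distrib]
          congr 1
          exact Finset.sum_comm
      _ ≤ A + A * ENNReal.ofReal G + A * ENNReal.ofReal G := by
          gcongr
          · rw [hA]
            refine Finset.sum_le_sum fun i hi => ?_
            rw [Finset.sum_ite_eq, if_pos hi]
          · rw [hA, Finset.sum_mul]
            exact Finset.sum_le_sum hsum
          · rw [hA, Finset.sum_mul]
            exact Finset.sum_le_sum hsum
      _ = A * ENNReal.ofReal (1 + 2 * G) := by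
          rw [ENNReal.ofReal_add zero_le_one (by positivity), ENNReal.ofReal_mul (by norm_num),
            ENNReal.ofReal_one, show ENNReal.ofReal 2 = 2 by simp]
          ring
  have hmono : ∀ ω, (1 - ee θ (cnt W w I z ω)) ≤ (1 - ee θ (cnt W w S z ω)) := by
    intro ω
    apply tsub_le_tsub_left
    apply ee_anti hθ
    exact Finset.card_le_card (Finset.filter_subset_filter _ hIS)
  have hmc : Measurable fun ω => (cnt W w I z ω : ℝ≥0∞) :=
    (measurable_of_countable _).comp (cnt_meas hW w I z)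
  have hint : ENNReal.ofReal (2 * θ / K) * A ≤ ff P θ W w S z + ENNReal.ofReal (θ / K ^ 2) * A +
      ENNReal.ofReal (θ ^ 2 / K ^ 2) * (A * ENNReal.ofReal (1 + 2 * G)) := by
    calc ENNReal.ofReal (2 * θ / K) * A
        = ∫⁻ ω, ENNReal.ofReal (2 * θ / K) * cnt W w I z ω ∂P := by
          rw [lintegral_const_mul _ hmc, hA']
      _ ≤ ∫⁻ ω, ((1 - ee θ (cnt W w S z ω)) + ENNReal.ofReal (θ / K ^ 2) * cnt W w I z ω +
          ENNReal.ofReal (θ ^ 2 / K ^ 2) * (cnt W w I z ω * cnt W w I z ω)) ∂P := by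
          refine lintegral_mono fun ω => ?_
          refine (one_sub_ee_ge hθ hK _).trans ?_
          exact add_le_add (add_le_add (hmono ω) le_rfl) le_rfl
      _ = ff P θ W w S z + ENNReal.ofReal (θ / K ^ 2) * A +
          ENNReal.ofReal (θ ^ 2 / K ^ 2) *
            ∫⁻ ω, (cnt W w I z ω : ℝ≥0∞) * cnt W w I z ω ∂P := by
          have hmc2 : Measurable fun ω => (cnt W w I z ω : ℝ≥0∞) * cnt W w I z ω := hmc.mul hmc
          have hmc3 : Measurable fun ω => ENNReal.ofReal (θ ^ 2 / K ^ 2) *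
              ((cnt W w I z ω : ℝ≥0∞) * cnt W w I z ω) := hmc2.const_mul _
          have hmc4 : Measurable fun ω => ENNReal.ofReal (θ / K ^ 2) *
              (cnt W w I z ω : ℝ≥0∞) := hmc.const_mul _
          rw [lintegral_add_right _ hmc3,
            lintegral_add_right _ hmc4, lintegral_const_mul _ hmc,
            lintegral_const_mul _ hmc2, hA']
          rfl
      _ ≤ _ := by gcongr
  have hsplit : ENNReal.ofReal (θ / K) * A + (ENNReal.ofReal (θ / K ^ 2) * A +
      ENNReal.ofReal (θ ^ 2 / K ^ 2) * (A * ENNReal.ofReal (1 + 2 * G))) ≤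
      ff P θ W w S z + (ENNReal.ofReal (θ / K ^ 2) * A +
      ENNReal.ofReal (θ ^ 2 / K ^ 2) * (A * ENNReal.ofReal (1 + 2 * G))) := by
    rw [← add_assoc (ff P θ W w S z)]
    refine le_trans ?_ hint
    have e1 : ENNReal.ofReal (θ ^ 2 / K ^ 2) * (A * ENNReal.ofReal (1 + 2 * G)) =
        ENNReal.ofReal (θ ^ 2 / K ^ 2 * (1 + 2 * G)) * A := by
      rw [ENNReal.ofReal_mul (by positivity)]; ring
    rw [e1, ← add_mul, ← add_mul, ← ENNReal.ofReal_add (by positivity) (by positivity),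
      ← ENNReal.ofReal_add (by positivity) (by positivity)]
    gcongr
    have h1 : θ / K ^ 2 + θ ^ 2 / K ^ 2 * (1 + 2 * G) = θ * (1 + θ * (1 + 2 * G)) / K ^ 2 := by
      ring
    rw [h1]
    have h2 : θ * (1 + θ * (1 + 2 * G)) / K ^ 2 ≤ θ * K / K ^ 2 := by gcongr
    have h3 : θ * K / K ^ 2 = θ / K := by field_simp
    have h4 : 2 * θ / K = θ / K + θ / K := by ring
    linarith
  refine (ENNReal.add_le_add_iff_right ?_).1 hsplit
  refine ENNReal.add_ne_top.2 ⟨ENNReal.mul_ne_top ENNReal.ofReal_ne_top hAtop,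
    ENNReal.mul_ne_top ENNReal.ofReal_ne_top (ENNReal.mul_ne_top hAtop ENNReal.ofReal_ne_top)⟩

end

end Pool.Agent.W845.Traps
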