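import Pool.Agent.W845.Defs
import Pool.Agent.H663R5.MTA1
import Pool.Agent.H509R3.MT.A3
import Pool.Agent.H174R3.MT.A4
import Pool.Agent.H973R3.MT.A5

/-! Bounds for the transition kernel of the continuous time walk on `ℤ^3`. -/

set_option autoImplicit false

namespace Pool.Agent.W845.Traps

open MeasureTheory ProbabilityTheory Filter Topology
open scoped ENNReal NNReal
open Pool.Agent.H143R3.MT (sk TaskA1 TaskA3 TaskA4 TaskA5)

theorem skellam_eq (s : ℝ≥0) : skellam s = Pool.Agent.H143R3.MT.skellam s := rfl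

instance (s : ℝ≥0) : IsProbabilityMeasure (skellam s) :=
  Pool.Agent.H663R5.MTA1.taskA1.1 s

instance (d : ℕ) (κ s : ℝ≥0) : IsProbabilityMeasure (stepLaw d κ s) := by
  unfold stepLaw; infer_instance

/-- the kernel -/
noncomputable def gk (ρ : ℝ≥0) (s : ℝ≥0) (v : Fin 3 → ℤ) : ℝ≥0∞ := stepLaw 3 ρ s {v}

theorem gk_eq (ρ s : ℝ≥0) (v : Fin 3 → ℤ) :
    gk ρ s v = sk (ρ * s / 3) (v 0) * sk (ρ * s / 3) (v 1) * sk (ρ * s / 3) (v 2) := by
  unfold gk stepLaw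
  rw [Measure.pi_singleton, Fin.prod_univ_three]
  rfl

theorem gk_neg (ρ s : ℝ≥0) (v : Fin 3 → ℤ) : gk ρ s (-v) = gk ρ s v := by
  rw [gk_eq, gk_eq]
  simp only [Pi.neg_apply, Pool.Agent.H663R5.MTA1.taskA1.2.1]

theorem gk_le_one (ρ s : ℝ≥0) (v : Fin 3 → ℤ) : gk ρ s v ≤ 1 := prob_le_one

theorem tsum_gk (ρ s : ℝ≥0) : ∑' v, gk ρ s v = 1 := by
  have h := lintegral_countable' (μ := stepLaw 3 ρ s) (fun _ => (1 : ℝ≥0∞))
  simp only [lintegral_const, measure_univ, mul_one, one_mul] at h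
  exact h.symm

/-- upper bound -/
theorem gk_upper (ρ : ℝ≥0) (hρ : 0 < ρ) : ∃ C : ℝ, 0 < C ∧ ∀ (s : ℝ≥0) (v : Fin 3 → ℤ), 0 < s →
    gk ρ s v ≤ ENNReal.ofReal (C / (s * √(s : ℝ))) := by
  obtain ⟨C, hC⟩ := Pool.Agent.H509R3.MT.taskA3
  refine ⟨(C + 1) ^ 3 / ((ρ / 3 : ℝ) * √(ρ / 3 : ℝ)), by positivity, fun s v hs => ?_⟩
  have hr : 0 < ρ * s / 3 := by positivity
  have h1 : ∀ k, sk (ρ * s / 3) k ≤ ENNReal.ofReal ((C + 1) / √((ρ * s / 3 : ℝ≥0) : ℝ)) := fun k =>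
    (hC _ k hr).trans (ENNReal.ofReal_le_ofReal (by gcongr; linarith))
  rw [gk_eq]
  calc sk (ρ * s / 3) (v 0) * sk (ρ * s / 3) (v 1) * sk (ρ * s / 3) (v 2)
      ≤ ENNReal.ofReal ((C + 1) / √((ρ * s / 3 : ℝ≥0) : ℝ)) *
        ENNReal.ofReal ((C + 1) / √((ρ * s / 3 : ℝ≥0) : ℝ)) *
        ENNReal.ofReal ((C + 1) / √((ρ * s / 3 : ℝ≥0) : ℝ)) := by
        gcongr <;> apply h1
    _ = ENNReal.ofReal (((C + 1) / √((ρ * s / 3 : ℝ≥0) : ℝ)) *
        ((C + 1) / √((ρ * s / 3 : ℝ≥0) : ℝ)) * ((C + 1) / √((ρ * s / 3 : ℝ≥0) : ℝ))) := by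
        rw [ENNReal.ofReal_mul (by positivity), ENNReal.ofReal_mul (by positivity)]
    _ = _ := by
        congr 1
        have e1 : ((ρ * s / 3 : ℝ≥0) : ℝ) = (ρ / 3 : ℝ) * s := by push_cast; ring
        have hs' : (0 : ℝ) < s := by exact_mod_cast hs
        have hρ' : (0 : ℝ) < ρ := by exact_mod_cast hρ
        rw [e1, Real.sqrt_mul (by positivity)]
        have h2 : √(ρ / 3 : ℝ) * √(ρ / 3 : ℝ) = ρ / 3 := Real.mul_self_sqrt (by positivity)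
        have h3 : √(s : ℝ) * √(s : ℝ) = s := Real.mul_self_sqrt (by positivity)
        have h4 : 0 < √(ρ / 3 : ℝ) := Real.sqrt_pos.2 (by positivity)
        have h5 : 0 < √(s : ℝ) := Real.sqrt_pos.2 hs'
        have e3 : √(ρ / 3 : ℝ) * √(s : ℝ) * (√(ρ / 3 : ℝ) * √(s : ℝ)) * (√(ρ / 3 : ℝ) * √(s : ℝ)) =
            (ρ / 3 : ℝ) * √(ρ / 3 : ℝ) * (s * √(s : ℝ)) := by
          calc _ = (√(ρ / 3 : ℝ) * √(ρ / 3 : ℝ)) * √(ρ / 3 : ℝ) *
                ((√(s : ℝ) * √(s : ℝ)) * √(s : ℝ)) := by ring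
            _ = _ := by rw [h2, h3]
        rw [div_mul_div_comm, div_mul_div_comm, div_div, e3]
        congr 1
        ring

/-- lower bound on the diffusive scale -/
theorem gk_lower (ρ : ℝ≥0) (hρ : 0 < ρ) (K : ℝ) : ∃ c : ℝ, 0 < c ∧ ∃ s0 : ℝ≥0, 0 < s0 ∧
    ∀ (s : ℝ≥0) (v : Fin 3 → ℤ), s0 ≤ s → (∀ i, |(v i : ℝ)| ≤ K * √(s : ℝ)) →
      ENNReal.ofReal (c / (s * √(s : ℝ))) ≤ gk ρ s v := by
  obtain ⟨c, hc, s0, hs0, h⟩ := Pool.Agent.H174R3.MTA4.taskA4 (K / √(ρ / 3 : ℝ))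
  refine ⟨c ^ 3 / ((ρ / 3 : ℝ) * √(ρ / 3 : ℝ)), by positivity, s0 * 3 / ρ, by positivity,
    fun s v hs hv => ?_⟩
  have hs' : s0 ≤ ρ * s / 3 := by
    have h1 : s0 * 3 / ρ * ρ / 3 ≤ s * ρ / 3 := by gcongr
    have h2 : s0 * 3 / ρ * ρ / 3 = s0 := by field_simp
    rw [h2] at h1
    rwa [mul_comm ρ s]
  have hspos : 0 < s := lt_of_lt_of_le (by positivity) hs
  have hs'' : (0 : ℝ) < s := by exact_mod_cast hspos
  have hρ' : (0 : ℝ) < ρ := by exact_mod_cast hρ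
  have h4 : 0 < √(ρ / 3 : ℝ) := Real.sqrt_pos.2 (by positivity)
  have h5 : 0 < √(s : ℝ) := Real.sqrt_pos.2 hs''
  have e1 : ((ρ * s / 3 : ℝ≥0) : ℝ) = (ρ / 3 : ℝ) * s := by push_cast; ring
  have e2 : √((ρ * s / 3 : ℝ≥0) : ℝ) = √(ρ / 3 : ℝ) * √(s : ℝ) := by
    rw [e1, Real.sqrt_mul (by positivity)]
  have h1 : ∀ i, ENNReal.ofReal (c / √((ρ * s / 3 : ℝ≥0) : ℝ)) ≤ sk (ρ * s / 3) (v i) := by
    intro i
    refine h _ hs' _ ((hv i).trans (le_of_eq ?_))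
    rw [e2]
    field_simp
  rw [gk_eq]
  calc ENNReal.ofReal (c ^ 3 / ((ρ / 3 : ℝ) * √(ρ / 3 : ℝ)) / (s * √(s : ℝ)))
      = ENNReal.ofReal ((c / √((ρ * s / 3 : ℝ≥0) : ℝ)) *
        (c / √((ρ * s / 3 : ℝ≥0) : ℝ)) * (c / √((ρ * s / 3 : ℝ≥0) : ℝ))) := by
        congr 1
        rw [e2]
        have h2 : √(ρ / 3 : ℝ) * √(ρ / 3 : ℝ) = ρ / 3 := Real.mul_self_sqrt (by positivity)
        have h3 : √(s : ℝ) * √(s : ℝ) = s := Real.mul_self_sqrt (by positivity)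
        have e3 : √(ρ / 3 : ℝ) * √(s : ℝ) * (√(ρ / 3 : ℝ) * √(s : ℝ)) * (√(ρ / 3 : ℝ) * √(s : ℝ)) =
            (ρ / 3 : ℝ) * √(ρ / 3 : ℝ) * (s * √(s : ℝ)) := by
          calc _ = (√(ρ / 3 : ℝ) * √(ρ / 3 : ℝ)) * √(ρ / 3 : ℝ) *
                ((√(s : ℝ) * √(s : ℝ)) * √(s : ℝ)) := by ring
            _ = _ := by rw [h2, h3]
        rw [div_mul_div_comm, div_mul_div_comm, div_div, e3]
        congr 1
        ring
    _ = ENNReal.ofReal (c / √((ρ * s / 3 : ℝ≥0) : ℝ)) *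
        ENNReal.ofReal (c / √((ρ * s / 3 : ℝ≥0) : ℝ)) *
        ENNReal.ofReal (c / √((ρ * s / 3 : ℝ≥0) : ℝ)) := by
        rw [ENNReal.ofReal_mul (by positivity), ENNReal.ofReal_mul (by positivity)]
    _ ≤ _ := by gcongr <;> apply h1

/-- tail of the Skellam law -/
theorem sk_tail (r : ℝ≥0) (R : ℝ) (hR : 1 ≤ R) (hr : (r : ℝ) ≤ R) (M : ℝ) (a : ℝ)
    (ha : M * √R ≤ a) :
    ∑' j : ℤ, (if a ≤ |(j : ℝ)| then sk r j else 0) ≤ ENNReal.ofReal (2 * Real.exp (1 - M)) := by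
  set θ : ℝ := 1 / √R with hθ
  have hsR : 1 ≤ √R := by rw [Real.one_le_sqrt]; exact hR
  have hθ0 : 0 < θ := by positivity
  have hθ1 : θ ≤ 1 := by rw [hθ, div_le_one (by linarith)]; exact hsR
  have hA := Pool.Agent.H973R3.MT.taskA5
  have hcosh : r * (Real.cosh θ - 1) ≤ 1 := by
    have h1 : Real.cosh θ ≤ 1 + θ ^ 2 := by
      have h2 := Real.cosh_le_exp_half_sq θ
      have h3 : Real.exp (θ ^ 2 / 2) ≤ 1 + θ ^ 2 := by
        have hx : θ ^ 2 / 2 ≤ 1 := by nlinarith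
        have hx0 : 0 ≤ θ ^ 2 / 2 := by positivity
        have h4 := Real.abs_exp_sub_one_le (x := θ ^ 2 / 2) (by rw [abs_of_nonneg hx0]; exact hx)
        rw [abs_of_nonneg hx0] at h4
        have h5 := le_abs_self (Real.exp (θ ^ 2 / 2) - 1)
        linarith
      linarith
    have h2 : θ ^ 2 = 1 / R := by
      rw [hθ, div_pow, Real.sq_sqrt (by linarith)]; norm_num
    calc r * (Real.cosh θ - 1) ≤ R * (Real.cosh θ - 1) := by
          apply mul_le_mul_of_nonneg_right hr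
          linarith [Real.one_le_cosh θ]
      _ ≤ R * θ ^ 2 := by
          apply mul_le_mul_of_nonneg_left _ (by linarith)
          linarith
      _ = 1 := by rw [h2]; field_simp
  have key : ∀ j : ℤ, (if a ≤ |(j : ℝ)| then sk r j else 0) ≤
      ENNReal.ofReal (Real.exp (-M)) * (sk r j * ENNReal.ofReal (Real.exp (θ * j)) +
        sk r j * ENNReal.ofReal (Real.exp (-θ * j))) := by
    intro j
    split_ifs with hj
    · have h1 : M ≤ θ * |(j : ℝ)| := by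
        calc M = θ * (M * √R) := by rw [hθ]; field_simp
          _ ≤ θ * |(j : ℝ)| := by
            apply mul_le_mul_of_nonneg_left (ha.trans hj) hθ0.le
      have h2 : (1 : ℝ) ≤ Real.exp (-M) * (Real.exp (θ * j) + Real.exp (-θ * j)) := by
        have h3 : Real.exp (θ * |(j : ℝ)|) ≤ Real.exp (θ * j) + Real.exp (-θ * j) := by
          rcases abs_cases (j : ℝ) with ⟨h, _⟩ | ⟨h, _⟩
          · rw [h]; linarith [Real.exp_pos (-θ * j)]
          · rw [h, mul_neg, ← neg_mul]; linarith [Real.exp_pos (θ * j)]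
        calc (1 : ℝ) = Real.exp (-M) * Real.exp M := by rw [← Real.exp_add]; simp
          _ ≤ Real.exp (-M) * Real.exp (θ * |(j : ℝ)|) := by
            apply mul_le_mul_of_nonneg_left _ (Real.exp_pos _).le
            exact Real.exp_le_exp.2 h1
          _ ≤ _ := by
            apply mul_le_mul_of_nonneg_left h3 (Real.exp_pos _).le
      calc sk r j = sk r j * 1 := (mul_one _).symm
        _ ≤ sk r j * ENNReal.ofReal (Real.exp (-M) * (Real.exp (θ * j) + Real.exp (-θ * j))) := by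
          gcongr
          rw [ENNReal.one_le_ofReal]
          exact h2
        _ = _ := by
          rw [ENNReal.ofReal_mul (Real.exp_pos _).le, ENNReal.ofReal_add (Real.exp_pos _).le
            (Real.exp_pos _).le]
          ring
    · exact zero_le
  calc ∑' j : ℤ, (if a ≤ |(j : ℝ)| then sk r j else 0)
      ≤ ∑' j : ℤ, ENNReal.ofReal (Real.exp (-M)) * (sk r j * ENNReal.ofReal (Real.exp (θ * j)) +
        sk r j * ENNReal.ofReal (Real.exp (-θ * j))) := ENNReal.tsum_le_tsum key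
    _ = ENNReal.ofReal (Real.exp (-M)) * (ENNReal.ofReal (Real.exp (r * (Real.cosh θ - 1))) +
        ENNReal.ofReal (Real.exp (r * (Real.cosh θ - 1)))) := by
        rw [ENNReal.tsum_mul_left, ENNReal.tsum_add, hA r θ, hA r (-θ), Real.cosh_neg]
    _ ≤ ENNReal.ofReal (Real.exp (-M)) * (ENNReal.ofReal (Real.exp 1) +
        ENNReal.ofReal (Real.exp 1)) := by gcongr
    _ = _ := by
        rw [← ENNReal.ofReal_add (Real.exp_pos _).le (Real.exp_pos _).le,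
          ← ENNReal.ofReal_mul (Real.exp_pos _).le]
        congr 1
        rw [sub_eq_add_neg, Real.exp_add]; ring

/-- pointwise bound far away, uniformly in the time -/
theorem sk_far : ∃ C : ℝ, 0 < C ∧ ∀ (r : ℝ≥0) (R : ℝ), 0 < r → 1 ≤ R → (r : ℝ) ≤ R →
    ∀ (M : ℝ) (k : ℤ), 2 * M * √R ≤ |(k : ℝ)| →
      sk r k ≤ ENNReal.ofReal (C * Real.exp (-M) / √(r : ℝ)) := by
  obtain ⟨C, hC⟩ := Pool.Agent.H509R3.MT.taskA3
  refine ⟨4 * Real.exp 1 * √2 * (C + 1), by positivity, fun r R hr hR hrR M k hk => ?_⟩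
  have hr2 : 0 < r / 2 := by positivity
  have h1 : ∀ k, sk (r / 2) k ≤ ENNReal.ofReal ((C + 1) / √((r / 2 : ℝ≥0) : ℝ)) := fun k =>
    (hC _ k hr2).trans (ENNReal.ofReal_le_ofReal (by gcongr; linarith))
  have hconv := Pool.Agent.H663R5.MTA1.taskA1.2.2.2 (r / 2) (r / 2) k
  rw [add_halves] at hconv
  set B : ℝ≥0∞ := ENNReal.ofReal ((C + 1) / √((r / 2 : ℝ≥0) : ℝ)) with hB
  set a : ℝ := |(k : ℝ)| / 2 with ha
  have key : ∀ j : ℤ, sk (r / 2) j * sk (r / 2) (k - j) ≤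
      (if a ≤ |(j : ℝ)| then sk (r / 2) j else 0) * B +
      B * (if a ≤ |((k - j : ℤ) : ℝ)| then sk (r / 2) (k - j) else 0) := by
    intro j
    by_cases hj : a ≤ |(j : ℝ)|
    · rw [if_pos hj]
      exact le_add_right (by gcongr; exact h1 _)
    · have hj2 : a ≤ |((k - j : ℤ) : ℝ)| := by
        push_cast
        push Not at hj
        have h2 : |(k : ℝ)| ≤ |(k : ℝ) - j| + |(j : ℝ)| := by
          have := abs_add_le ((k : ℝ) - j) j
          simpa using this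
        linarith
      rw [if_pos hj2]
      exact le_add_left (by gcongr; exact h1 _)
  have hr2R : ((r / 2 : ℝ≥0) : ℝ) ≤ R := by
    have h0 : (0 : ℝ) ≤ r := r.2
    push_cast; linarith
  have hMa : M * √R ≤ a := by rw [ha]; linarith
  have ht := sk_tail (r / 2) R hR hr2R M a hMa
  rw [hconv]
  calc ∑' j : ℤ, sk (r / 2) j * sk (r / 2) (k - j)
      ≤ ∑' j : ℤ, ((if a ≤ |(j : ℝ)| then sk (r / 2) j else 0) * B +
      B * (if a ≤ |((k - j : ℤ) : ℝ)| then sk (r / 2) (k - j) else 0)) := ENNReal.tsum_le_tsum key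
    _ = (∑' j : ℤ, (if a ≤ |(j : ℝ)| then sk (r / 2) j else 0)) * B +
      B * (∑' j : ℤ, (if a ≤ |(j : ℝ)| then sk (r / 2) j else 0)) := by
        rw [ENNReal.tsum_add, ENNReal.tsum_mul_right, ENNReal.tsum_mul_left]
        congr 2
        exact (Equiv.subLeft k).tsum_eq (fun j : ℤ => if a ≤ |(j : ℝ)| then sk (r / 2) j else 0)
    _ ≤ ENNReal.ofReal (2 * Real.exp (1 - M)) * B + B * ENNReal.ofReal (2 * Real.exp (1 - M)) := by
        gcongr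
    _ = ENNReal.ofReal (2 * (2 * Real.exp (1 - M)) * ((C + 1) / √((r / 2 : ℝ≥0) : ℝ))) := by
        rw [hB, mul_comm (ENNReal.ofReal ((C + 1) / √((r / 2 : ℝ≥0) : ℝ))), ← two_mul,
          ← ENNReal.ofReal_mul (by positivity), ENNReal.ofReal_mul (by positivity)]
        rw [show (2 : ℝ≥0∞) = ENNReal.ofReal 2 by simp, ← ENNReal.ofReal_mul (by positivity),
          ← ENNReal.ofReal_mul (by positivity)]
        congr 1
        ring
    _ = _ := by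
        congr 1
        have hr' : (0 : ℝ) < r := by exact_mod_cast hr
        have e1 : √((r / 2 : ℝ≥0) : ℝ) = √(r : ℝ) / √2 := by
          push_cast
          rw [Real.sqrt_div (by positivity)]
        rw [e1, sub_eq_add_neg, Real.exp_add]
        have h5 : 0 < √(r : ℝ) := Real.sqrt_pos.2 hr'
        field_simp
        ring

/-- pointwise bound far away, uniformly in the time -/
theorem gk_far (ρ : ℝ≥0) (hρ : 0 < ρ) : ∃ C c T0 : ℝ, 0 < C ∧ 0 < c ∧ 0 < T0 ∧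
    ∀ (T : ℝ), T0 ≤ T → ∀ (s : ℝ≥0) (v : Fin 3 → ℤ), 0 < s → (s : ℝ) ≤ T → ∀ M : ℝ,
      M * √T ≤ |(v 0 : ℝ)| →
        gk ρ s v ≤ ENNReal.ofReal (C * Real.exp (-(c * M)) / (s * √(s : ℝ))) := by
  obtain ⟨C, hC⟩ := Pool.Agent.H509R3.MT.taskA3
  obtain ⟨C', hC', hfar⟩ := sk_far
  have hρ' : (0 : ℝ) < ρ := by exact_mod_cast hρ
  have h4 : 0 < √(ρ / 3 : ℝ) := Real.sqrt_pos.2 (by positivity)
  refine ⟨C' * (C + 1) ^ 2 / ((ρ / 3 : ℝ) * √(ρ / 3 : ℝ)), 1 / (2 * √(ρ / 3 : ℝ)), 3 / ρ,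
    by positivity, by positivity, by positivity, fun T hT s v hs hsT M hv => ?_⟩
  have hs' : (0 : ℝ) < s := by exact_mod_cast hs
  have hT0 : 0 < T := lt_of_lt_of_le hs' hsT
  have hr : 0 < ρ * s / 3 := by positivity
  have hR : 1 ≤ (ρ / 3 : ℝ) * T := by
    calc (1 : ℝ) = (ρ / 3) * (3 / ρ) := by field_simp
      _ ≤ _ := by gcongr
  have e1 : ((ρ * s / 3 : ℝ≥0) : ℝ) = (ρ / 3 : ℝ) * s := by push_cast; ring
  have e2 : √((ρ * s / 3 : ℝ≥0) : ℝ) = √(ρ / 3 : ℝ) * √(s : ℝ) := by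
    rw [e1, Real.sqrt_mul (by positivity)]
  have h5 : 0 < √(s : ℝ) := Real.sqrt_pos.2 hs'
  have hrR : ((ρ * s / 3 : ℝ≥0) : ℝ) ≤ (ρ / 3 : ℝ) * T := by rw [e1]; gcongr
  have h0 := hfar (ρ * s / 3) ((ρ / 3 : ℝ) * T) hr hR hrR (1 / (2 * √(ρ / 3 : ℝ)) * M) (v 0) (by
    rw [Real.sqrt_mul (by positivity)]
    calc 2 * (1 / (2 * √(ρ / 3 : ℝ)) * M) * (√(ρ / 3 : ℝ) * √T) = M * √T := by field_simp
      _ ≤ _ := hv)
  have h1 : ∀ k, sk (ρ * s / 3) k ≤ ENNReal.ofReal ((C + 1) / √((ρ * s / 3 : ℝ≥0) : ℝ)) := fun k =>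
    (hC _ k hr).trans (ENNReal.ofReal_le_ofReal (by gcongr; linarith))
  rw [gk_eq]
  calc sk (ρ * s / 3) (v 0) * sk (ρ * s / 3) (v 1) * sk (ρ * s / 3) (v 2)
      ≤ ENNReal.ofReal (C' * Real.exp (-(1 / (2 * √(ρ / 3 : ℝ)) * M)) /
          √((ρ * s / 3 : ℝ≥0) : ℝ)) *
        ENNReal.ofReal ((C + 1) / √((ρ * s / 3 : ℝ≥0) : ℝ)) *
        ENNReal.ofReal ((C + 1) / √((ρ * s / 3 : ℝ≥0) : ℝ)) := by
        gcongr
        · exact h1 _
        · exact h1 _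
    _ = ENNReal.ofReal ((C' * Real.exp (-(1 / (2 * √(ρ / 3 : ℝ)) * M)) /
          √((ρ * s / 3 : ℝ≥0) : ℝ)) *
        ((C + 1) / √((ρ * s / 3 : ℝ≥0) : ℝ)) * ((C + 1) / √((ρ * s / 3 : ℝ≥0) : ℝ))) := by
        rw [ENNReal.ofReal_mul (by positivity), ENNReal.ofReal_mul (by positivity)]
    _ = _ := by
        congr 1
        rw [e2]
        have h2 : √(ρ / 3 : ℝ) * √(ρ / 3 : ℝ) = ρ / 3 := Real.mul_self_sqrt (by positivity)
        have h3 : √(s : ℝ) * √(s : ℝ) = s := Real.mul_self_sqrt (by positivity)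
        have e3 : √(ρ / 3 : ℝ) * √(s : ℝ) * (√(ρ / 3 : ℝ) * √(s : ℝ)) * (√(ρ / 3 : ℝ) * √(s : ℝ)) =
            (ρ / 3 : ℝ) * √(ρ / 3 : ℝ) * (s * √(s : ℝ)) := by
          calc _ = (√(ρ / 3 : ℝ) * √(ρ / 3 : ℝ)) * √(ρ / 3 : ℝ) *
                ((√(s : ℝ) * √(s : ℝ)) * √(s : ℝ)) := by ring
            _ = _ := by rw [h2, h3]
        generalize Real.exp (-(1 / (2 * √(ρ / 3 : ℝ)) * M)) = E
        rw [div_mul_div_comm, div_mul_div_comm, e3]
        have h6 : (ρ / 3 : ℝ) * √(ρ / 3 : ℝ) ≠ 0 := by positivity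
        have h7 : (s : ℝ) * √(s : ℝ) ≠ 0 := by positivity
        generalize (ρ / 3 : ℝ) * √(ρ / 3 : ℝ) = A at h6 ⊢
        generalize (s : ℝ) * √(s : ℝ) = A' at h7 ⊢
        field_simp

end Pool.Agent.W845.Traps
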