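import Pool.Agent.W845.Walk

/-! The number of traps marked by a path, split at a pivot. -/

set_option autoImplicit false
set_option linter.unusedSectionVars false

namespace Pool.Agent.W845.Traps

open MeasureTheory ProbabilityTheory Filter Topology
open scoped ENNReal NNReal

universe u

section

variable {Ω : Type u} [MeasurableSpace Ω] {P : Measure Ω} [IsProbabilityMeasure P] {ρ : ℝ≥0}
  {Y : ℝ≥0 → Ω → Fin 3 → ℤ}

/-- forward increments from the pivot -/
def Wp (Y : ℝ≥0 → Ω → Fin 3 → ℤ) (h : ℝ≥0) (n : ℕ) (j : ℕ) (ω : Ω) : Fin 3 → ℤ :=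
  Y ((n + j : ℕ) * h) ω - Y (n * h) ω

/-- backward increments from the pivot -/
def Wm (Y : ℝ≥0 → Ω → Fin 3 → ℤ) (h : ℝ≥0) (n : ℕ) (j : ℕ) (ω : Ω) : Fin 3 → ℤ :=
  Y ((n - j : ℕ) * h) ω - Y (n * h) ω

theorem Wp_meas (hY : IsWalk P ρ Y) (h : ℝ≥0) (n j : ℕ) : Measurable (Wp Y h n j) :=
  sub_meas hY _ _

theorem Wm_meas (hY : IsWalk P ρ Y) (h : ℝ≥0) (n j : ℕ) : Measurable (Wm Y h n j) :=
  sub_meas hY _ _

theorem time_sub (h : ℝ≥0) (a b : ℕ) (_hab : a ≤ b) :
    (b : ℝ≥0) * h - a * h = ((b - a : ℕ) : ℝ≥0) * h := by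
  rw [← tsub_mul]
  congr 1
  rw [Nat.cast_tsub]

theorem Wp_prob (hY : IsWalk P ρ Y) (h : ℝ≥0) (n j : ℕ) (v : Fin 3 → ℤ) :
    P {ω | Wp Y h n j ω = v} = gk ρ (j * h) v := by
  unfold Wp
  rw [prob_sub hY (mono_grid h (Nat.le_add_right n j)), time_sub h _ _ (Nat.le_add_right n j),
    Nat.add_sub_cancel_left]

theorem Wm_prob (hY : IsWalk P ρ Y) (h : ℝ≥0) (n j : ℕ) (hj : j ≤ n) (v : Fin 3 → ℤ) :
    P {ω | Wm Y h n j ω = v} = gk ρ (j * h) v := by
  have h1 : {ω | Wm Y h n j ω = v} = {ω | Y (n * h) ω - Y ((n - j : ℕ) * h) ω = -v} := by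
    ext ω
    unfold Wm
    simp only [Set.mem_ofPred_eq]
    constructor
    · intro h; rw [← h]; abel
    · intro h; rw [← neg_eq_iff_eq_neg] at h; rw [← h]; abel
  rw [h1, prob_sub hY (mono_grid h (Nat.sub_le n j)), time_sub h _ _ (Nat.sub_le n j), gk_neg,
    Nat.sub_sub_self hj]

theorem Wp_prob2 (hY : IsWalk P ρ Y) (h : ℝ≥0) (n i j : ℕ) (hij : i < j) (v v' : Fin 3 → ℤ) :
    P {ω | Wp Y h n i ω = v ∧ Wp Y h n j ω = v'} =
      gk ρ (i * h) v * gk ρ ((j - i : ℕ) * h) (v' - v) := by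
  have h1 : {ω | Wp Y h n i ω = v ∧ Wp Y h n j ω = v'} =
      {ω | Y ((n + i : ℕ) * h) ω - Y (n * h) ω = v ∧
        Y ((n + j : ℕ) * h) ω - Y ((n + i : ℕ) * h) ω = v' - v} := by
    ext ω
    unfold Wp
    simp only [Set.mem_ofPred_eq]
    constructor
    · rintro ⟨h1, h2⟩; exact ⟨h1, by rw [← h1, ← h2]; abel⟩
    · rintro ⟨h1, h2⟩
      refine ⟨h1, ?_⟩
      have : v' = (v' - v) + v := by abel
      rw [this, ← h2, ← h1]; abel
  rw [h1, prob_sub_sub hY (mono_grid h (Nat.le_add_right n i)) (mono_grid h (by omega)),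
    time_sub h _ _ (Nat.le_add_right n i), time_sub h _ _ (by omega), Nat.add_sub_cancel_left]
  congr 4
  omega

theorem Wm_prob2 (hY : IsWalk P ρ Y) (h : ℝ≥0) (n i j : ℕ) (hij : i < j) (hj : j ≤ n)
    (v v' : Fin 3 → ℤ) :
    P {ω | Wm Y h n i ω = v ∧ Wm Y h n j ω = v'} =
      gk ρ (i * h) v * gk ρ ((j - i : ℕ) * h) (v' - v) := by
  have h1 : {ω | Wm Y h n i ω = v ∧ Wm Y h n j ω = v'} =
      {ω | Y ((n - i : ℕ) * h) ω - Y ((n - j : ℕ) * h) ω = -(v' - v) ∧
        Y (n * h) ω - Y ((n - i : ℕ) * h) ω = -v} := by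
    ext ω
    unfold Wm
    simp only [Set.mem_ofPred_eq]
    constructor
    · rintro ⟨h1, h2⟩; exact ⟨by rw [← h1, ← h2]; abel, by rw [← h1]; abel⟩
    · rintro ⟨h1, h2⟩
      have h3 : Y ((n - i : ℕ) * h) ω - Y (n * h) ω = v := by
        rw [← neg_eq_iff_eq_neg] at h2; rw [← h2]; abel
      refine ⟨h3, ?_⟩
      have : v' = v - -(v' - v) := by abel
      rw [this, ← h1, ← h3]; abel
  rw [h1, prob_sub_sub hY (mono_grid h (by omega)) (mono_grid h (Nat.sub_le n i)),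
    time_sub h _ _ (by omega), time_sub h _ _ (Nat.sub_le n i), gk_neg, gk_neg,
    Nat.sub_sub_self (by omega), mul_comm]
  congr 4
  omega

/-- the paths seen from the pivot -/
def xm (n : ℕ) (x : ℕ → Fin 3 → ℤ) (j : ℕ) : Fin 3 → ℤ := x (n - j)

def xp (n : ℕ) (x : ℕ → Fin 3 → ℤ) (j : ℕ) : Fin 3 → ℤ := x (n + j)

/-- the grid walk -/
def gw (Y : ℝ≥0 → Ω → Fin 3 → ℤ) (h : ℝ≥0) (k : ℕ) (ω : Ω) : Fin 3 → ℤ := Y (k * h) ω

theorem cnt_split (h : ℝ≥0) (n : ℕ) (x : ℕ → Fin 3 → ℤ) (z : Fin 3 → ℤ) (ω : Ω) :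
    cnt (gw Y h) x (Finset.Icc 1 (2 * n)) (z - Y (n * h) ω) ω =
      cnt (Wm Y h n) (xm n x) (Finset.range n) z ω +
        cnt (Wp Y h n) (xp n x) (Finset.Icc 1 n) z ω := by
  classical
  unfold cnt
  have h1 : Finset.Icc 1 (2 * n) = (Finset.range n).image (fun j => n - j) ∪
      (Finset.Icc 1 n).image (fun j => n + j) := by
    ext k
    simp only [Finset.mem_Icc, Finset.mem_union, Finset.mem_image, Finset.mem_range]
    constructor
    · rintro ⟨h1, h2⟩
      by_cases hk : k ≤ n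
      · exact Or.inl ⟨n - k, by omega, by omega⟩
      · exact Or.inr ⟨k - n, by omega, by omega⟩
    · rintro (⟨j, hj, rfl⟩ | ⟨j, hj, rfl⟩) <;> omega
  have hdisj : Disjoint ((Finset.range n).image (fun j => n - j))
      ((Finset.Icc 1 n).image (fun j => n + j)) := by
    rw [Finset.disjoint_left]
    intro k hk hk'
    obtain ⟨j, hj, rfl⟩ := Finset.mem_image.1 hk
    obtain ⟨j', hj', h2⟩ := Finset.mem_image.1 hk'
    have := Finset.mem_Icc.1 hj'
    omega
  rw [h1, Finset.filter_union, Finset.card_union_of_disjoint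
    (Finset.disjoint_filter_filter hdisj), Finset.filter_image, Finset.filter_image,
    Finset.card_image_of_injOn, Finset.card_image_of_injOn]
  · congr 2
    · apply Finset.filter_congr
      intro j _
      unfold gw Wm xm
      rw [show z - Y (n * h) ω + Y ((n - j : ℕ) * h) ω = z + (Y ((n - j : ℕ) * h) ω - Y (n * h) ω) by
        abel]
    · apply Finset.filter_congr
      intro j _
      unfold gw Wp xp
      rw [show z - Y (n * h) ω + Y ((n + j : ℕ) * h) ω = z + (Y ((n + j : ℕ) * h) ω - Y (n * h) ω) by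
        abel]
  · intro a _ b _ hab
    simpa using hab
  · intro a ha b hb hab
    have h2 := Finset.mem_range.1 (Finset.mem_filter.1 ha).1
    have h3 := Finset.mem_range.1 (Finset.mem_filter.1 hb).1
    simp only at hab
    omega

/-- past and future of the pivot are independent -/
theorem cnt_indep (hY : IsWalk P ρ Y) (h : ℝ≥0) (n : ℕ) (w w' : ℕ → Fin 3 → ℤ)
    (z : Fin 3 → ℤ) :
    IndepFun (cnt (Wm Y h n) w (Finset.range n) z) (cnt (Wp Y h n) w' (Finset.Icc 1 n) z) P := by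
  classical
  have h0 := iIndep_incr hY h
  have h1 := h0.indepFun_finset (Finset.range n) (Finset.Ico n (2 * n)) (by
    rw [Finset.disjoint_left]
    intro k hk hk'
    have h1 := Finset.mem_range.1 hk
    have h2 := Finset.mem_Ico.1 hk'
    omega) (fun k => sub_meas hY _ _)
  let e1 : (↥(Finset.range n) → Fin 3 → ℤ) → ℕ → Fin 3 → ℤ := fun a k =>
    if hk : k ∈ Finset.range n then a ⟨k, hk⟩ else 0
  let e2 : (↥(Finset.Ico n (2 * n)) → Fin 3 → ℤ) → ℕ → Fin 3 → ℤ := fun a k =>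
    if hk : k ∈ Finset.Ico n (2 * n) then a ⟨k, hk⟩ else 0
  let F1 : (↥(Finset.range n) → Fin 3 → ℤ) → ℕ := fun a =>
    ((Finset.range n).filter fun j => z + -(∑ k ∈ Finset.Ico (n - j) n, e1 a k) = w j).card
  let F2 : (↥(Finset.Ico n (2 * n)) → Fin 3 → ℤ) → ℕ := fun a =>
    ((Finset.Icc 1 n).filter fun j => z + ∑ k ∈ Finset.Ico n (n + j), e2 a k = w' j).card
  have h2 := h1.comp (measurable_of_countable F1) (measurable_of_countable F2)
  have g1 : cnt (Wm Y h n) w (Finset.range n) z =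
      F1 ∘ fun a (i : ↥(Finset.range n)) => Y (((i : ℕ) + 1 : ℕ) * h) a - Y ((i : ℕ) * h) a := by
    funext ω
    unfold cnt
    simp only [Function.comp, F1]
    congr 1
    apply Finset.filter_congr
    intro j hj
    have : Wm Y h n j ω = -(∑ k ∈ Finset.Ico (n - j) n, e1
        (fun i => Y (((i : ℕ) + 1 : ℕ) * h) ω - Y ((i : ℕ) * h) ω) k) := by
      have h3 : ∀ k ∈ Finset.Ico (n - j) n, e1
          (fun i => Y (((i : ℕ) + 1 : ℕ) * h) ω - Y ((i : ℕ) * h) ω) k =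
          Y ((k + 1 : ℕ) * h) ω - Y (k * h) ω := by
        intro k hk
        have := Finset.mem_Ico.1 hk
        simp only [e1]
        rw [dif_pos (Finset.mem_range.2 this.2)]
      rw [Finset.sum_congr rfl h3, Finset.sum_Ico_eq_sub _ (Nat.sub_le n j),
        Finset.sum_range_sub (fun i : ℕ => Y (i * h) ω),
        Finset.sum_range_sub (fun i : ℕ => Y (i * h) ω)]
      unfold Wm
      abel
    rw [this]
  have g2 : cnt (Wp Y h n) w' (Finset.Icc 1 n) z =
      F2 ∘ fun a (i : ↥(Finset.Ico n (2 * n))) =>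
        Y (((i : ℕ) + 1 : ℕ) * h) a - Y ((i : ℕ) * h) a := by
    funext ω
    unfold cnt
    simp only [Function.comp, F2]
    congr 1
    apply Finset.filter_congr
    intro j hj
    have hj' := Finset.mem_Icc.1 hj
    have : Wp Y h n j ω = ∑ k ∈ Finset.Ico n (n + j), e2
        (fun i => Y (((i : ℕ) + 1 : ℕ) * h) ω - Y ((i : ℕ) * h) ω) k := by
      have h3 : ∀ k ∈ Finset.Ico n (n + j), e2
          (fun i => Y (((i : ℕ) + 1 : ℕ) * h) ω - Y ((i : ℕ) * h) ω) k =
          Y ((k + 1 : ℕ) * h) ω - Y (k * h) ω := by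
        intro k hk
        have := Finset.mem_Ico.1 hk
        simp only [e2]
        rw [dif_pos (Finset.mem_Ico.2 ⟨this.1, by omega⟩)]
      rw [Finset.sum_congr rfl h3, Finset.sum_Ico_eq_sub _ (Nat.le_add_right n j),
        Finset.sum_range_sub (fun i : ℕ => Y (i * h) ω),
        Finset.sum_range_sub (fun i : ℕ => Y (i * h) ω)]
      unfold Wp
      abel
    rw [this]
  rw [g1, g2]
  exact h2

/-- expected number (density one) of traps marked by the grid path -/
noncomputable def Cn (P : Measure Ω) (θ : ℝ) (Y : ℝ≥0 → Ω → Fin 3 → ℤ) (h : ℝ≥0) (n : ℕ)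
    (x : ℕ → Fin 3 → ℤ) : ℝ≥0∞ :=
  ∫⁻ ω, ∑' y : Fin 3 → ℤ, (1 - ee θ (cnt (gw Y h) x (Finset.Icc 1 (2 * n)) y ω)) ∂P

theorem one_sub_identity {a b : ℝ≥0∞} (ha : a ≤ 1) (hb : b ≤ 1) :
    (1 - a * b) + (1 - a) * (1 - b) = (1 - a) + (1 - b) := by
  obtain ⟨a', rfl⟩ : ∃ a' : ℝ≥0, a = a' :=
    ⟨a.toNNReal, (ENNReal.coe_toNNReal (ne_top_of_le_ne_top ENNReal.one_ne_top ha)).symm⟩
  obtain ⟨b', rfl⟩ : ∃ b' : ℝ≥0, b = b' :=
    ⟨b.toNNReal, (ENNReal.coe_toNNReal (ne_top_of_le_ne_top ENNReal.one_ne_top hb)).symm⟩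
  have ha' : a' ≤ 1 := by exact_mod_cast ha
  have hb' : b' ≤ 1 := by exact_mod_cast hb
  have hab : a' * b' ≤ 1 := mul_le_one' ha' hb'
  norm_cast
  apply NNReal.coe_injective
  push_cast [NNReal.coe_sub ha', NNReal.coe_sub hb', NNReal.coe_sub hab]
  ring

theorem meas_ee {W : ℕ → Ω → Fin 3 → ℤ} (hW : ∀ j, Measurable (W j)) (θ : ℝ)
    (w : ℕ → Fin 3 → ℤ) (S : Finset ℕ) (z : Fin 3 → ℤ) :
    Measurable fun ω => 1 - ee θ (cnt W w S z ω) :=
  (measurable_of_countable fun m : ℕ => 1 - ee θ m).comp (cnt_meas hW w S z)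

/-- splitting at the pivot -/
theorem Cn_split (hY : IsWalk P ρ Y) {θ : ℝ} (hθ : 0 ≤ θ) (h : ℝ≥0) (n : ℕ)
    (x : ℕ → Fin 3 → ℤ) :
    Cn P θ Y h n x + ∑' z, ff P θ (Wm Y h n) (xm n x) (Finset.range n) z *
        ff P θ (Wp Y h n) (xp n x) (Finset.Icc 1 n) z =
      ∑' z, ff P θ (Wm Y h n) (xm n x) (Finset.range n) z +
        ∑' z, ff P θ (Wp Y h n) (xp n x) (Finset.Icc 1 n) z := by
  have hWm := fun j => Wm_meas hY h n j
  have hWp := fun j => Wp_meas hY h n j
  have e1 : Cn P θ Y h n x = ∑' z : Fin 3 → ℤ, ∫⁻ ω,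
      (1 - ee θ (cnt (Wm Y h n) (xm n x) (Finset.range n) z ω) *
        ee θ (cnt (Wp Y h n) (xp n x) (Finset.Icc 1 n) z ω)) ∂P := by
    rw [← lintegral_tsum]
    · unfold Cn
      refine lintegral_congr fun ω => ?_
      rw [← (Equiv.subRight (Y (n * h) ω)).tsum_eq]
      refine tsum_congr fun z => ?_
      simp only [Equiv.subRight_apply]
      rw [cnt_split, ee_add]
    · intro z
      have : Measurable fun ω => 1 - ee θ (cnt (Wm Y h n) (xm n x) (Finset.range n) z ω +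
        cnt (Wp Y h n) (xp n x) (Finset.Icc 1 n) z ω) :=
        (measurable_of_countable fun m : ℕ => 1 - ee θ m).comp
          ((cnt_meas hWm _ _ _).add (cnt_meas hWp _ _ _))
      simp only [ee_add] at this
      exact this.aemeasurable
  rw [e1, ← ENNReal.tsum_add, ← ENNReal.tsum_add]
  refine tsum_congr fun z => ?_
  have h1 : ff P θ (Wm Y h n) (xm n x) (Finset.range n) z *
        ff P θ (Wp Y h n) (xp n x) (Finset.Icc 1 n) z =
      ∫⁻ ω, (1 - ee θ (cnt (Wm Y h n) (xm n x) (Finset.range n) z ω)) *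
        (1 - ee θ (cnt (Wp Y h n) (xp n x) (Finset.Icc 1 n) z ω)) ∂P := by
    unfold ff
    rw [← lintegral_mul_eq_lintegral_mul_lintegral_of_indepFun'' (meas_ee hWm _ _ _ _).aemeasurable
      (meas_ee hWp _ _ _ _).aemeasurable]
    exact (cnt_indep hY h n (xm n x) (xp n x) z).comp
      (measurable_of_countable fun m : ℕ => 1 - ee θ m)
      (measurable_of_countable fun m : ℕ => 1 - ee θ m)
  have hm1 : Measurable fun ω => (1 - ee θ (cnt (Wm Y h n) (xm n x) (Finset.range n) z ω)) *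
        (1 - ee θ (cnt (Wp Y h n) (xp n x) (Finset.Icc 1 n) z ω)) :=
    (meas_ee hWm _ _ _ _).mul (meas_ee hWp _ _ _ _)
  rw [h1, ← lintegral_add_right _ hm1]
  unfold ff
  rw [← lintegral_add_right _ (meas_ee hWp _ _ _ _)]
  refine lintegral_congr fun ω => ?_
  exact one_sub_identity (ee_le_one hθ _) (ee_le_one hθ _)

/-- upper bound for the overlap -/
theorem overlap_le (hY : IsWalk P ρ Y) {θ : ℝ} (hθ : 0 ≤ θ) (h : ℝ≥0) (n : ℕ)
    (x : ℕ → Fin 3 → ℤ) :
    ∑' z, ff P θ (Wm Y h n) (xm n x) (Finset.range n) z *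
        ff P θ (Wp Y h n) (xp n x) (Finset.Icc 1 n) z ≤
      ENNReal.ofReal θ * ENNReal.ofReal θ * ∑ i ∈ Finset.range n, ∑ j ∈ Finset.Icc 1 n,
        gk ρ ((i + j : ℕ) * h) (x (n + j) - x (n - i)) := by
  calc _ ≤ ∑' z, (ENNReal.ofReal θ * ∑ i ∈ Finset.range n, gk ρ (i * h) (xm n x i - z)) *
        (ENNReal.ofReal θ * ∑ j ∈ Finset.Icc 1 n, gk ρ (j * h) (xp n x j - z)) := by
        refine ENNReal.tsum_le_tsum fun z => mul_le_mul' ?_ ?_
        · exact ff_le hθ (fun j => Wm_meas hY h n j) _ _ _ (fun j => gk ρ (j * h))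
            (fun j hj v => Wm_prob hY h n j (Finset.mem_range.1 hj).le v)
        · exact ff_le hθ (fun j => Wp_meas hY h n j) _ _ _ (fun j => gk ρ (j * h))
            (fun j hj v => Wp_prob hY h n j v)
    _ = ENNReal.ofReal θ * ENNReal.ofReal θ * ∑' z, ∑ i ∈ Finset.range n, ∑ j ∈ Finset.Icc 1 n,
          gk ρ (i * h) (xm n x i - z) * gk ρ (j * h) (xp n x j - z) := by
        rw [← ENNReal.tsum_mul_left]
        refine tsum_congr fun z => ?_
        rw [← Finset.sum_mul_sum]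
        ring
    _ = _ := by
        congr 1
        rw [Summable.tsum_finsetSum (fun i _ => ENNReal.summable)]
        refine Finset.sum_congr rfl fun i _ => ?_
        rw [Summable.tsum_finsetSum (fun i _ => ENNReal.summable)]
        refine Finset.sum_congr rfl fun j _ => ?_
        rw [gk_conv hY]
        unfold xm xp
        congr 1
        push_cast; ring

/-- lower bound for the overlap -/
theorem overlap_ge (hY : IsWalk P ρ Y) {θ K G : ℝ} (hθ : 0 ≤ θ) (hK : 0 < K)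
    (hG0 : 0 ≤ G) (hKG : 1 + θ * (1 + 2 * G) ≤ K) (h : ℝ≥0) (n : ℕ)
    (q : ℕ → ℝ≥0∞) (hgq : ∀ (l : ℕ) v, gk ρ (l * h) v ≤ q l)
    (hq : ∑ l ∈ Finset.range n, q (l + 1) ≤ ENNReal.ofReal G)
    (Im Ip : Finset ℕ) (hIm : Im ⊆ Finset.range n) (hIp : Ip ⊆ Finset.Icc 1 n)
    (x : ℕ → Fin 3 → ℤ) :
    ENNReal.ofReal (θ / K) * ENNReal.ofReal (θ / K) * ∑ i ∈ Im, ∑ j ∈ Ip,
        gk ρ ((i + j : ℕ) * h) (x (n + j) - x (n - i)) ≤
    ∑' z, ff P θ (Wm Y h n) (xm n x) (Finset.range n) z *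
        ff P θ (Wp Y h n) (xp n x) (Finset.Icc 1 n) z := by
  have hIm' : Im ⊆ Finset.range (n + 1) := hIm.trans (Finset.range_subset_range.2 (Nat.le_succ n))
  have hIp' : Ip ⊆ Finset.range (n + 1) := fun j hj => by
    have := Finset.mem_Icc.1 (hIp hj)
    exact Finset.mem_range.2 (by omega)
  refine ge_iff_le.1 ?_
  calc _ ≥ ∑' z, (ENNReal.ofReal (θ / K) * ∑ i ∈ Im, gk ρ (i * h) (xm n x i - z)) *
        (ENNReal.ofReal (θ / K) * ∑ j ∈ Ip, gk ρ (j * h) (xp n x j - z)) := by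
        refine ENNReal.tsum_le_tsum fun z => mul_le_mul' ?_ ?_
        · refine ff_ge hθ hK hG0 hKG (fun j => Wm_meas hY h n j) _ _ _ hIm _
            (fun j => gk ρ (j * h)) q n hIm' (fun j hj v => Wm_prob hY h n j
              (Finset.mem_range.1 (hIm hj)).le v) ?_ hq
          intro i hi j hj hij v v'
          rw [Wm_prob2 hY h n i j hij (Finset.mem_range.1 (hIm hj)).le]
          gcongr
          exact hgq _ _
        · refine ff_ge hθ hK hG0 hKG (fun j => Wp_meas hY h n j) _ _ _ hIp _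
            (fun j => gk ρ (j * h)) q n hIp' (fun j hj v => Wp_prob hY h n j v) ?_ hq
          intro i hi j hj hij v v'
          rw [Wp_prob2 hY h n i j hij]
          gcongr
          exact hgq _ _
    _ = ENNReal.ofReal (θ / K) * ENNReal.ofReal (θ / K) * ∑' z, ∑ i ∈ Im, ∑ j ∈ Ip,
          gk ρ (i * h) (xm n x i - z) * gk ρ (j * h) (xp n x j - z) := by
        rw [← ENNReal.tsum_mul_left]
        refine tsum_congr fun z => ?_
        rw [← Finset.sum_mul_sum]
        ring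
    _ = _ := by
        congr 1
        rw [Summable.tsum_finsetSum (fun i _ => ENNReal.summable)]
        refine Finset.sum_congr rfl fun i _ => ?_
        rw [Summable.tsum_finsetSum (fun i _ => ENNReal.summable)]
        refine Finset.sum_congr rfl fun j _ => ?_
        rw [gk_conv hY]
        unfold xm xp
        congr 1
        push_cast; ring

/-- the second half marks the same number of traps after reflection -/
theorem ff_refl (hY : IsWalk P ρ Y) (θ : ℝ) (h : ℝ≥0) (n : ℕ) (x : ℕ → Fin 3 → ℤ) :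
    ∑' z, ff P θ (Wp Y h n) (xp n (refl n x)) (Finset.Icc 1 n) z =
      ∑' z, ff P θ (Wp Y h n) (xp n x) (Finset.Icc 1 n) z := by
  classical
  rw [← (Equiv.subLeft (x n + x n)).tsum_eq]
  refine tsum_congr fun z => ?_
  simp only [Equiv.subLeft_apply]
  unfold ff
  let F : (ℕ → Fin 3 → ℤ) → ℝ≥0∞ := fun y =>
    1 - ee θ ((Finset.Icc 1 n).filter fun j => z + (y (n + j) - y n) = x (n + j)).card
  have h1 := refl_lintegral hY h n (2 * n) (by omega) F (by
    intro y y' hyy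
    simp only [F]
    congr 3
    apply Finset.filter_congr
    intro j hj
    have := Finset.mem_Icc.1 hj
    rw [hyy (n + j) (by omega), hyy n (by omega)])
  have h2 : ∀ ω, F (fun k => Y (k * h) ω) = 1 - ee θ (cnt (Wp Y h n) (xp n x) (Finset.Icc 1 n) z ω) := by
    intro ω
    rfl
  have h3 : ∀ ω, F (refl n fun k => Y (k * h) ω) =
      1 - ee θ (cnt (Wp Y h n) (xp n (refl n x)) (Finset.Icc 1 n) (x n + x n - z) ω) := by
    intro ω
    simp only [F]
    unfold cnt
    congr 3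
    apply Finset.filter_congr
    intro j hj
    have := Finset.mem_Icc.1 hj
    unfold Wp xp
    have e3 : ∀ y : ℕ → Fin 3 → ℤ, refl n y (n + j) = y n + y n - y (n + j) := fun y => by
      unfold refl; rw [if_neg (by omega)]
    have e4 : ∀ y : ℕ → Fin 3 → ℤ, refl n y n = y n := fun y => by
      unfold refl; rw [if_pos le_rfl]
    rw [e3, e3, e4]
    constructor
    · intro h4; rw [← h4]; abel
    · intro h4
      have : x (n + j) = x n + x n - (x n + x n - x (n + j)) := by abel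
      rw [this, ← h4]; abel
  simp only [h2, h3] at h1
  exact h1

theorem ff_refl_m (θ : ℝ) (h : ℝ≥0) (n : ℕ) (x : ℕ → Fin 3 → ℤ) (z : Fin 3 → ℤ) :
    ff P θ (Wm Y h n) (xm n (refl n x)) (Finset.range n) z =
      ff P θ (Wm Y h n) (xm n x) (Finset.range n) z := by
  have : xm n (refl n x) = xm n x := by
    funext j
    unfold xm refl
    rw [if_pos (Nat.sub_le n j)]
  rw [this]

/-- comparison of the path and the reflected path -/
theorem Cn_compare (hY : IsWalk P ρ Y) {θ : ℝ} (hθ : 0 ≤ θ) (h : ℝ≥0) (n : ℕ)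
    (x : ℕ → Fin 3 → ℤ) (D U : ℝ≥0∞) (hU : U ≠ ∞)
    (h1 : ∑' z, ff P θ (Wm Y h n) (xm n x) (Finset.range n) z *
        ff P θ (Wp Y h n) (xp n x) (Finset.Icc 1 n) z ≤ U)
    (h2 : U + D ≤ ∑' z, ff P θ (Wm Y h n) (xm n (refl n x)) (Finset.range n) z *
        ff P θ (Wp Y h n) (xp n (refl n x)) (Finset.Icc 1 n) z) :
    Cn P θ Y h n (refl n x) + D ≤ Cn P θ Y h n x := by
  have e1 := Cn_split hY hθ h n x
  have e2 := Cn_split hY hθ h n (refl n x)
  rw [ff_refl hY, tsum_congr (fun z => ff_refl_m θ h n x z), ← e1] at e2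
  have h3 : Cn P θ Y h n (refl n x) + D + U ≤ Cn P θ Y h n x + U := by
    calc _ = Cn P θ Y h n (refl n x) + (U + D) := by ring
      _ ≤ _ := add_le_add le_rfl h2
      _ = _ := e2
      _ ≤ _ := add_le_add le_rfl h1
  exact (ENNReal.add_le_add_iff_right hU).1 h3

end

end Pool.Agent.W845.Traps
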