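import Pool.Agent.W845.Expo
import Pool.Agent.W845.Pivot
import Pool.Agent.H224R3.MT.E2

/-! The annealed formula on a grid. -/

set_option autoImplicit false
set_option linter.unusedSectionVars false

namespace Pool.Agent.W845.Traps

open MeasureTheory ProbabilityTheory Filter Topology
open scoped ENNReal NNReal

universe u

section

variable {Ω : Type u} [MeasurableSpace Ω] {P : Measure Ω} [IsProbabilityMeasure P]
  {κ ρ ν : ℝ≥0} {X : ℝ≥0 → Ω → Fin 3 → ℤ} {N : (Fin 3 → ℤ) → Ω → ℕ}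
  {Y : (Fin 3 → ℤ) → ℕ → ℝ≥0 → Ω → Fin 3 → ℤ}

/-- the law of the grid path -/
theorem grid_lintegral (hX : IsWalk P κ X) (h : ℝ≥0) (m : ℕ)
    (F : (ℕ → Fin 3 → ℤ) → ℝ≥0∞)
    (hF : ∀ x x' : ℕ → Fin 3 → ℤ, (∀ k ≤ m, x k = x' k) → F x = F x') :
    ∫⁻ ω, F (fun k => X (k * h) ω) ∂P =
      ∫⁻ a, F (fun k => ∑ i ∈ Finset.range k, ext a i)
        ∂(Measure.pi fun _ : Fin m => stepLaw 3 κ h) := by
  rw [← incr_law hX h m, lintegral_map (measurable_of_countable _) (incr_meas hX h m)]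
  refine lintegral_congr_ae ?_
  filter_upwards [hX.zero] with ω hω
  apply hF
  intro k hk
  rw [sum_ext_incr h m ω k hk, hω, sub_zero]

/-- all coincidences between the traps and the grid path -/
noncomputable def hits (N : (Fin 3 → ℤ) → Ω → ℕ) (Y : (Fin 3 → ℤ) → ℕ → ℝ≥0 → Ω → Fin 3 → ℤ)
    (h : ℝ≥0) (m : ℕ) (x : ℕ → Fin 3 → ℤ) (ω : Ω) : ℝ≥0∞ :=
  ∑' y, ∑ j ∈ Finset.range (N y ω), (cnt (gw (Y y j) h) x (Finset.Icc 1 m) y ω : ℝ≥0∞)

/-- probability that the trap from `y` survives -/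
noncomputable def bet (P : Measure Ω) (θ : ℝ) (W : ℝ≥0 → Ω → Fin 3 → ℤ) (h : ℝ≥0) (m : ℕ)
    (x : ℕ → Fin 3 → ℤ) (y : Fin 3 → ℤ) : ℝ≥0∞ :=
  ∫⁻ ω, ee θ (cnt (gw W h) x (Finset.Icc 1 m) y ω) ∂P

theorem bet_le_one {θ : ℝ} (hθ : 0 ≤ θ) (W : ℝ≥0 → Ω → Fin 3 → ℤ) (h : ℝ≥0) (m : ℕ)
    (x : ℕ → Fin 3 → ℤ) (y : Fin 3 → ℤ) : bet P θ W h m x y ≤ 1 := by
  unfold bet
  calc _ ≤ ∫⁻ _, 1 ∂P := lintegral_mono fun ω => ee_le_one hθ _
    _ = 1 := by simp

omit [MeasurableSpace Ω] in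
/-- counting depends only on the values up to `m` -/
theorem cnt_congr {Ω' : Type*} (W : ℕ → Ω → Fin 3 → ℤ) (W' : ℕ → Ω' → Fin 3 → ℤ)
    (x x' : ℕ → Fin 3 → ℤ) (m : ℕ)
    (y : Fin 3 → ℤ) (ω : Ω) (ω' : Ω') (h1 : ∀ k ≤ m, W k ω = W' k ω') (h2 : ∀ k ≤ m, x k = x' k) :
    cnt W x (Finset.Icc 1 m) y ω = cnt W' x' (Finset.Icc 1 m) y ω' := by
  unfold cnt
  congr 1
  refine Finset.filter_congr fun k hk => ?_
  have hk' := (Finset.mem_Icc.1 hk).2
  rw [h1 k hk', h2 k hk']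

theorem bet_eq {Ω' : Type*} [MeasurableSpace Ω'] {P' : Measure Ω'} [IsProbabilityMeasure P']
    {W : ℝ≥0 → Ω → Fin 3 → ℤ} {W' : ℝ≥0 → Ω' → Fin 3 → ℤ} (hW : IsWalk P ρ W)
    (hW' : IsWalk P' ρ W') (θ : ℝ) (h : ℝ≥0) (m : ℕ) (x : ℕ → Fin 3 → ℤ) (y : Fin 3 → ℤ) :
    bet P θ W h m x y = bet P' θ W' h m x y := by
  set F : (ℕ → Fin 3 → ℤ) → ℝ≥0∞ := fun w =>
    ee θ (cnt (fun k (_ : Unit) => w k) x (Finset.Icc 1 m) y ()) with hF
  have hFc : ∀ w w' : ℕ → Fin 3 → ℤ, (∀ k ≤ m, w k = w' k) → F w = F w' := by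
    intro w w' hw
    simp only [hF]
    rw [cnt_congr (fun k (_ : Unit) => w k) (fun k (_ : Unit) => w' k) x x m y () () hw
      (fun _ _ => rfl)]
  have e1 : bet P θ W h m x y = ∫⁻ ω, F (fun k => W (k * h) ω) ∂P := by
    unfold bet
    refine lintegral_congr fun ω => ?_
    simp only [hF]
    rw [cnt_congr (gw W h) (fun k (_ : Unit) => W (k * h) ω) x x m y ω () (fun _ _ => rfl)
      (fun _ _ => rfl)]
  have e2 : bet P' θ W' h m x y = ∫⁻ ω, F (fun k => W' (k * h) ω) ∂P' := by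
    unfold bet
    refine lintegral_congr fun ω => ?_
    simp only [hF]
    rw [cnt_congr (gw W' h) (fun k (_ : Unit) => W' (k * h) ω) x x m y ω () (fun _ _ => rfl)
      (fun _ _ => rfl)]
  rw [e1, e2, grid_lintegral hW h m F hFc, grid_lintegral hW' h m F hFc]

/-- the space of trap configurations -/
abbrev Conf : Type := ((Fin 3 → ℤ) → ℕ) × ((Fin 3 → ℤ) × ℕ → ℝ≥0 → Fin 3 → ℤ)

/-- number of traps in a configuration -/
def N₀ (y : Fin 3 → ℤ) (p : Conf) : ℕ := p.1 y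

/-- trap trajectories in a configuration -/
def Y₀ (y : Fin 3 → ℤ) (j : ℕ) (s : ℝ≥0) (p : Conf) : Fin 3 → ℤ := p.2 (y, j) s

/-- the configuration -/
def conf (N : (Fin 3 → ℤ) → Ω → ℕ) (Y : (Fin 3 → ℤ) → ℕ → ℝ≥0 → Ω → Fin 3 → ℤ) (ω : Ω) : Conf :=
  ((fun (y : Fin 3 → ℤ) => N y ω), (fun (i : (Fin 3 → ℤ) × ℕ) (s : ℝ≥0) => Y i.1 i.2 s ω))

theorem conf_meas (hT : TrapModel P κ ρ ν X N Y) : Measurable (conf N Y) :=
  Measurable.prodMk (measurable_pi_lambda _ fun y => hT.number_meas y)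
      (measurable_pi_lambda _ fun i => measurable_pi_lambda _ fun s => (hT.trap i.1 i.2).meas s)

theorem N₀_meas (y : Fin 3 → ℤ) : Measurable (N₀ y) := (measurable_pi_apply y).comp measurable_fst

theorem Y₀_meas (y : Fin 3 → ℤ) (j : ℕ) (s : ℝ≥0) : Measurable (Y₀ y j s) :=
  (measurable_pi_apply s).comp ((measurable_pi_apply (y, j)).comp measurable_snd)

theorem sum_range_eq {Ω' : Type*} (N : Ω' → ℕ) (f : ℕ → Ω' → ℝ≥0∞) (ω : Ω') :
    ∑ j ∈ Finset.range (N ω), f j ω = ∑' j, ({ω | j < N ω} : Set Ω').indicator (f j) ω := by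
  rw [tsum_eq_sum (s := Finset.range (N ω))]
  · refine Finset.sum_congr rfl fun j hj => ?_
    rw [Set.indicator_of_mem (show ω ∈ {ω | j < N ω} from Finset.mem_range.1 hj)]
  · intro j hj
    rw [Set.indicator_of_notMem]
    intro h
    exact hj (Finset.mem_range.2 h)

theorem sum_range_meas {Ω' : Type*} [MeasurableSpace Ω'] {N : Ω' → ℕ} (hN : Measurable N)
    {f : ℕ → Ω' → ℝ≥0∞} (hf : ∀ j, Measurable (f j)) :
    Measurable fun ω => ∑ j ∈ Finset.range (N ω), f j ω := by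
  simp_rw [sum_range_eq]
  refine Measurable.tsum fun j => ?_
  exact (hf j).indicator (measurableSet_lt measurable_const hN)

theorem hits_meas {Ω' : Type*} [MeasurableSpace Ω'] {N : (Fin 3 → ℤ) → Ω' → ℕ}
    {Y : (Fin 3 → ℤ) → ℕ → ℝ≥0 → Ω' → Fin 3 → ℤ} (hN : ∀ y, Measurable (N y))
    (hY : ∀ y j s, Measurable (Y y j s)) (h : ℝ≥0) (m : ℕ) (x : ℕ → Fin 3 → ℤ) :
    Measurable (hits N Y h m x) := by
  unfold hits
  refine Measurable.tsum fun y => ?_
  refine sum_range_meas (hN y) fun j => ?_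
  exact (measurable_of_countable (fun n : ℕ => (n : ℝ≥0∞))).comp
    (cnt_meas (fun k => hY y j (k * h)) x _ y)

/-- Laplace functional, finitely many sites -/
theorem laplace_fin (hT : TrapModel P κ ρ ν X N Y) {θ : ℝ} (hθ : 0 ≤ θ) (h : ℝ≥0) (m : ℕ)
    (x : ℕ → Fin 3 → ℤ) (S : Finset (Fin 3 → ℤ)) :
    ∫⁻ ω, En (ENNReal.ofReal θ * ∑ y ∈ S, ∑ j ∈ Finset.range (N y ω),
        (cnt (gw (Y y j) h) x (Finset.Icc 1 m) y ω : ℝ≥0∞)) ∂P =
      ∏ y ∈ S, ENNReal.ofReal (Real.exp (-(ν * (1 - bet P θ (Y 0 0) h m x y).toReal))) := by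
  have hmN : Measurable (fun ω => fun (y : Fin 3 → ℤ) => N y ω) :=
    measurable_pi_lambda _ fun y => hT.number_meas y
  have hmYi : ∀ i : (Fin 3 → ℤ) × ℕ, Measurable (fun ω (s : ℝ≥0) => Y i.1 i.2 s ω) := fun i =>
    measurable_pi_lambda _ fun s => (hT.trap i.1 i.2).meas s
  have hmY : Measurable (fun ω => (fun (i : (Fin 3 → ℤ) × ℕ) (s : ℝ≥0) => Y i.1 i.2 s ω)) :=
    measurable_pi_lambda _ fun i => hmYi i
  set a : (Fin 3 → ℤ) → ℝ≥0∞ := fun y => bet P θ (Y 0 0) h m x y with ha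
  have ha1 : ∀ y, a y ≤ 1 := fun y => bet_le_one hθ _ _ _ _ _
  -- the factor of one trap, as a function of its trajectory
  set g : (Fin 3 → ℤ) × ℕ → (ℝ≥0 → Fin 3 → ℤ) → ℝ≥0∞ := fun i w =>
    ee θ (cnt (gw (fun s (w : ℝ≥0 → Fin 3 → ℤ) => w s) h) x (Finset.Icc 1 m) i.1 w) with hg
  have hgm : ∀ i, Measurable (g i) := fun i =>
    (measurable_of_countable fun m : ℕ => ee θ m).comp
      (cnt_meas (fun k => measurable_pi_apply _) x _ _)
  have hga : ∀ i : (Fin 3 → ℤ) × ℕ,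
      ∫⁻ ω, g i (fun (s : ℝ≥0) => Y i.1 i.2 s ω) ∂P = a i.1 := fun i =>
    bet_eq (hT.trap i.1 i.2) (hT.trap 0 0) θ h m x i.1
  set G : Conf → ℝ≥0∞ := fun p => ∏ y ∈ S, ∏ j ∈ Finset.range (p.1 y), g (y, j) (p.2 (y, j))
    with hG
  have hGe : ∀ ω, En (ENNReal.ofReal θ * ∑ y ∈ S, ∑ j ∈ Finset.range (N y ω),
        (cnt (gw (Y y j) h) x (Finset.Icc 1 m) y ω : ℝ≥0∞)) = G (conf N Y ω) := by
    intro ω
    rw [Finset.mul_sum, En_sum]
    simp only [hG]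
    refine Finset.prod_congr rfl fun y _ => ?_
    rw [Finset.mul_sum, En_sum]
    refine Finset.prod_congr rfl fun j _ => ?_
    rw [En_ee hθ]
    rfl
  have hGm : Measurable G := by
    have : G = fun p : Conf => En (ENNReal.ofReal θ * ∑ y ∈ S, ∑ j ∈ Finset.range (N₀ y p),
        (cnt (gw (Y₀ y j) h) x (Finset.Icc 1 m) y p : ℝ≥0∞)) := by
      funext p
      rw [Finset.mul_sum, En_sum]
      simp only [hG]
      refine Finset.prod_congr rfl fun y _ => ?_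
      rw [Finset.mul_sum, En_sum]
      refine Finset.prod_congr rfl fun j _ => ?_
      rw [En_ee hθ]
      rfl
    rw [this]
    refine En_meas.comp (Measurable.const_mul (Finset.measurable_sum _ fun y _ => ?_) _)
    refine sum_range_meas (N₀_meas y) fun j => ?_
    exact (measurable_of_countable (fun n : ℕ => (n : ℝ≥0∞))).comp
      (cnt_meas (fun k => Y₀_meas y j (k * h)) x _ y)
  have h1 := hT.indepNY.map_prod_eq_prod_map_map hmN.aemeasurable hmY.aemeasurable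
  have h1' : P.map (conf N Y) = (P.map (fun ω => fun (y : Fin 3 → ℤ) => N y ω)).prod
      (P.map (fun ω => (fun (i : (Fin 3 → ℤ) × ℕ) (s : ℝ≥0) => Y i.1 i.2 s ω))) := h1
  have h0 : ∫⁻ ω, G (conf N Y ω) ∂P = ∫⁻ p, G p ∂(P.map (conf N Y)) :=
    (lintegral_map hGm (hmN.prodMk hmY)).symm
  simp_rw [hGe]
  rw [h0, h1', lintegral_prod _ hGm.aemeasurable, lintegral_map hGm.lintegral_prod_right' hmN]
  have h2 : ∀ n : (Fin 3 → ℤ) → ℕ, ∫⁻ q, G (n, q)
      ∂(P.map (fun ω => (fun (i : (Fin 3 → ℤ) × ℕ) (s : ℝ≥0) => Y i.1 i.2 s ω))) =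
        ∏ y ∈ S, a y ^ n y := by
    intro n
    refine (lintegral_map (hGm.comp (measurable_prodMk_left (x := n))) hmY).trans ?_
    set T : Finset ((Fin 3 → ℤ) × ℕ) :=
      (S.sigma fun y => Finset.range (n y)).map (Equiv.sigmaEquivProd (Fin 3 → ℤ) ℕ).toEmbedding
      with hTd
    have h3 : ∀ ω, (G ∘ Prod.mk n) (fun (i : (Fin 3 → ℤ) × ℕ) (s : ℝ≥0) => Y i.1 i.2 s ω) =
        ∏ i ∈ T, g i (fun (s : ℝ≥0) => Y i.1 i.2 s ω) := by
      intro ω
      rw [hTd, Finset.prod_map, Finset.prod_sigma]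
      rfl
    simp_rw [h3]
    rw [lintegral_prod_eq_prod_lintegral_of_indepFun (μ := P) T
      (fun i ω => g i (fun (s : ℝ≥0) => Y i.1 i.2 s ω)) (hT.indepY.comp g hgm)
      (fun i => (hgm i).comp (hmYi i))]
    simp_rw [hga]
    rw [hTd, Finset.prod_map, Finset.prod_sigma]
    refine Finset.prod_congr rfl fun y _ => ?_
    rw [← Finset.card_range (n y)]
    rw [← Finset.prod_const]
    simp only [Finset.card_range]
    rfl
  simp only [h2]
  have h5 := lintegral_prod_eq_prod_lintegral_of_indepFun (μ := P) S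
    (fun y ω => a y ^ (N y ω)) (hT.indepN.comp (fun y n => a y ^ n)
      (fun y => measurable_of_countable _))
    (fun y => (measurable_of_countable (fun n : ℕ => a y ^ n)).comp (hT.number_meas y))
  rw [h5]
  refine Finset.prod_congr rfl fun y _ => ?_
  rw [← H224R3.MT.poisson_pow ν (a y) (ha1 y), ← hT.number y,
    lintegral_map (measurable_of_countable _) (hT.number_meas y)]

/-- Laplace functional -/
theorem laplace (hT : TrapModel P κ ρ ν X N Y) {θ : ℝ} (hθ : 0 ≤ θ) (h : ℝ≥0) (m : ℕ)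
    (x : ℕ → Fin 3 → ℤ) :
    ∫⁻ ω, En (ENNReal.ofReal θ * hits N Y h m x ω) ∂P =
      En (ν * ∑' y, (1 - bet P θ (Y 0 0) h m x y)) := by
  set r : (Fin 3 → ℤ) → ℝ≥0∞ := fun y => 1 - bet P θ (Y 0 0) h m x y with hr
  set f : (Fin 3 → ℤ) → Ω → ℝ≥0∞ := fun y ω => ∑ j ∈ Finset.range (N y ω),
        (cnt (gw (Y y j) h) x (Finset.Icc 1 m) y ω : ℝ≥0∞) with hf
  have hfm : ∀ y, Measurable (f y) := fun y =>
    sum_range_meas (hT.number_meas y) fun j =>
      (measurable_of_countable (fun n : ℕ => (n : ℝ≥0∞))).comp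
        (cnt_meas (fun k => (hT.trap y j).meas (k * h)) x _ y)
  have hlim1 : Tendsto (fun S : Finset (Fin 3 → ℤ) =>
      ∫⁻ ω, En (ENNReal.ofReal θ * ∑ y ∈ S, f y ω) ∂P) atTop
      (𝓝 (∫⁻ ω, En (ENNReal.ofReal θ * hits N Y h m x ω) ∂P)) := by
    refine tendsto_lintegral_filter_of_dominated_convergence 1 ?_ ?_ (by simp) ?_
    · refine Eventually.of_forall fun S => ?_
      exact En_meas.comp (Measurable.const_mul (Finset.measurable_sum _ fun y _ => hfm y) _)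
    · exact Eventually.of_forall fun S => Eventually.of_forall fun ω => En_le_one _
    · refine Eventually.of_forall fun ω => ?_
      refine (En_cont.tendsto _).comp (ENNReal.Tendsto.const_mul ?_ (Or.inr ENNReal.ofReal_ne_top))
      exact ENNReal.summable.hasSum
  have hlim2 : Tendsto (fun S : Finset (Fin 3 → ℤ) =>
      ∫⁻ ω, En (ENNReal.ofReal θ * ∑ y ∈ S, f y ω) ∂P) atTop
      (𝓝 (En (ν * ∑' y, r y))) := by
    have h1 : ∀ S : Finset (Fin 3 → ℤ), ∫⁻ ω, En (ENNReal.ofReal θ * ∑ y ∈ S, f y ω) ∂P =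
        En (ν * ∑ y ∈ S, r y) := by
      intro S
      rw [laplace_fin hT hθ h m x S, Finset.mul_sum, En_sum]
      refine Finset.prod_congr rfl fun y _ => ?_
      have h2 : r y ≠ ∞ := ne_top_of_le_ne_top ENNReal.one_ne_top tsub_le_self
      rw [← En_ofReal (by positivity), ENNReal.ofReal_mul (by positivity),
        ENNReal.ofReal_toReal h2, ENNReal.ofReal_coe_nnreal]
    simp only [h1]
    refine (En_cont.tendsto _).comp (ENNReal.Tendsto.const_mul ?_ (Or.inr ENNReal.coe_ne_top))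
    exact ENNReal.summable.hasSum
  exact tendsto_nhds_unique hlim1 hlim2

/-- relation with `Cn` -/
theorem Cn_eq {W : ℝ≥0 → Ω → Fin 3 → ℤ} (hW : IsWalk P ρ W) {θ : ℝ} (hθ : 0 ≤ θ) (h : ℝ≥0)
    (n : ℕ) (x : ℕ → Fin 3 → ℤ) :
    ∑' y, (1 - bet P θ W h (2 * n) x y) = Cn P θ W h n x := by
  unfold Cn
  rw [lintegral_tsum fun y => (meas_ee (W := gw W h) (fun k => hW.meas (k * h)) θ x _
    y).aemeasurable]
  refine tsum_congr fun y => ?_
  unfold bet
  have hm : Measurable fun ω => ee θ (cnt (gw W h) x (Finset.Icc 1 (2 * n)) y ω) :=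
    (measurable_of_countable fun m : ℕ => ee θ m).comp
      (cnt_meas (fun k => hW.meas (k * h)) x _ y)
  rw [lintegral_sub hm ?_ (Eventually.of_forall fun ω => ee_le_one hθ _)]
  · simp
  · exact ne_top_of_le_ne_top ENNReal.one_ne_top (bet_le_one hθ W h (2 * n) x y)

end

end Pool.Agent.W845.Traps
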