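import Pool.Agent.W845.Mean

/-! From the grid to continuous time. -/

set_option autoImplicit false
set_option linter.unusedSectionVars false

namespace Pool.Agent.W845.Traps

open MeasureTheory ProbabilityTheory Filter Topology
open scoped ENNReal NNReal

universe u

/-- grid approximation from the right -/
noncomputable def apx (h : ℝ≥0) (s : ℝ) : ℝ≥0 := (⌈s / h⌉₊ : ℝ≥0) * h

theorem apx_ge {h : ℝ≥0} (hh : 0 < h) (s : ℝ) : s.toNNReal ≤ apx h s := by
  have hh' : (0 : ℝ) < h := by exact_mod_cast hh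
  rw [Real.toNNReal_le_iff_le_coe]
  unfold apx
  push_cast
  rw [← div_le_iff₀ hh']
  exact Nat.le_ceil _

theorem apx_le {h : ℝ≥0} (hh : 0 < h) {s : ℝ} (hs : 0 ≤ s) : (apx h s : ℝ) ≤ s + h := by
  have hh' : (0 : ℝ) < h := by exact_mod_cast hh
  unfold apx
  push_cast
  have h1 : ((⌈s / h⌉₊ : ℕ) : ℝ) < s / h + 1 := Nat.ceil_lt_add_one (by positivity)
  calc ((⌈s / h⌉₊ : ℕ) : ℝ) * h ≤ (s / h + 1) * h := by gcongr
    _ = s + h := by field_simp

/-- mesh of the grid -/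
noncomputable def mesh (t : ℝ≥0) (n : ℕ) : ℝ≥0 := t / (2 * n : ℕ)

theorem mesh_pos {t : ℝ≥0} (ht : 0 < t) {n : ℕ} (hn : 1 ≤ n) : 0 < mesh t n := by
  unfold mesh
  have : (0 : ℝ≥0) < ((2 * n : ℕ) : ℝ≥0) := by
    have : 0 < 2 * n := by omega
    exact_mod_cast this
  positivity

theorem mesh_mul (t : ℝ≥0) {n : ℕ} (hn : 1 ≤ n) : ((2 * n : ℕ) : ℝ≥0) * mesh t n = t := by
  unfold mesh
  have : ((2 * n : ℕ) : ℝ≥0) ≠ 0 := by
    have : 2 * n ≠ 0 := by omega
    exact_mod_cast this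
  field_simp

theorem mesh_tendsto (t : ℝ≥0) : Tendsto (fun n => ((mesh t n : ℝ≥0) : ℝ)) atTop (𝓝 0) := by
  have h1 : Tendsto (fun n : ℕ => (t : ℝ) / 2 / n) atTop (𝓝 0) :=
    tendsto_const_div_atTop_nhds_zero_nat _
  refine h1.congr fun n => ?_
  unfold mesh
  push_cast
  rw [div_div]

theorem apx_tendsto {t : ℝ≥0} (ht : 0 < t) {s : ℝ} (hs : 0 ≤ s) :
    Tendsto (fun n => apx (mesh t n) s) atTop (𝓝[≥] s.toNNReal) := by
  refine tendsto_nhdsWithin_iff.2 ⟨?_, ?_⟩
  · rw [← NNReal.tendsto_coe, Real.coe_toNNReal s hs]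
    have h1 : Tendsto (fun n => s + ((mesh t n : ℝ≥0) : ℝ)) atTop (𝓝 s) := by
      simpa using (mesh_tendsto t).const_add s
    refine tendsto_of_tendsto_of_tendsto_of_le_of_le' tendsto_const_nhds h1 ?_ ?_
    · filter_upwards [eventually_ge_atTop 1] with n hn
      exact Real.toNNReal_le_iff_le_coe.1 (apx_ge (mesh_pos ht hn) s)
    · filter_upwards [eventually_ge_atTop 1] with n hn
      exact apx_le (mesh_pos ht hn) hs
  · filter_upwards [eventually_ge_atTop 1] with n hn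
    exact apx_ge (mesh_pos ht hn) s

/-- Scheffé's lemma -/
theorem scheffe {Ω : Type*} [MeasurableSpace Ω] {μ : Measure Ω} {f : Ω → ℝ≥0∞}
    {fn : ℕ → Ω → ℝ≥0∞} (hf : AEMeasurable f μ) (hfn : ∀ n, Measurable (fn n)) {c : ℝ≥0∞}
    (hc : c ≠ ∞) (h1 : ∫⁻ ω, f ω ∂μ = c) (h2 : ∀ᶠ n in atTop, ∫⁻ ω, fn n ω ∂μ = c)
    (h3 : ∀ᵐ ω ∂μ, f ω ≤ liminf (fun n => fn n ω) atTop) :
    Tendsto (fun n => ∫⁻ ω, (f ω - fn n ω) ∂μ) atTop (𝓝 0) ∧
      Tendsto (fun n => ∫⁻ ω, (fn n ω - f ω) ∂μ) atTop (𝓝 0) := by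
  have hfin : ∀ᵐ ω ∂μ, f ω < ∞ := ae_lt_top' hf (by rw [h1]; exact hc)
  have hA : Tendsto (fun n => ∫⁻ ω, (f ω - fn n ω) ∂μ) atTop (𝓝 0) := by
    have := tendsto_lintegral_filter_of_dominated_convergence' (μ := μ) (l := atTop)
      (F := fun n ω => f ω - fn n ω) (f := fun _ => 0) f
      (Eventually.of_forall fun n => hf.sub (hfn n).aemeasurable)
      (Eventually.of_forall fun n => Eventually.of_forall fun ω => tsub_le_self)
      (by rw [h1]; exact hc) ?_
    · simpa using this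
    · filter_upwards [h3, hfin] with ω hω hω2
      rw [ENNReal.tendsto_atTop_zero]
      intro ε hε
      by_cases h0 : f ω = 0
      · exact ⟨0, fun n _ => by rw [h0]; simp⟩
      · have h4 : f ω - ε < liminf (fun n => fn n ω) atTop :=
          lt_of_lt_of_le (ENNReal.sub_lt_self hω2.ne h0 hε.ne') hω
        have h5 := eventually_lt_of_lt_liminf h4
        obtain ⟨n0, hn0⟩ := eventually_atTop.1 h5
        refine ⟨n0, fun n hn => ?_⟩
        have h6 := (hn0 n hn).le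
        rw [tsub_le_iff_right] at h6 ⊢
        rw [add_comm]
        exact h6
  refine ⟨hA, ?_⟩
  refine hA.congr' ?_
  filter_upwards [h2] with n hn
  have e1 : ∫⁻ ω, fn n ω ∂μ + ∫⁻ ω, (f ω - fn n ω) ∂μ =
      ∫⁻ ω, f ω ∂μ + ∫⁻ ω, (fn n ω - f ω) ∂μ := by
    rw [← lintegral_add_left (hfn n), ← lintegral_add_left' hf]
    refine lintegral_congr fun ω => ?_
    rw [add_tsub_eq_max, add_tsub_eq_max, max_comm]
  rw [hn, h1] at e1
  exact (ENNReal.add_right_inj hc).1 e1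

section

variable {Ω : Type u} [MeasurableSpace Ω] {P : Measure Ω} [IsProbabilityMeasure P]
  {κ ρ ν : ℝ≥0} {X : ℝ≥0 → Ω → Fin 3 → ℤ} {N : (Fin 3 → ℤ) → Ω → ℕ}
  {Y : (Fin 3 → ℤ) → ℕ → ℝ≥0 → Ω → Fin 3 → ℤ}

/-- right-continuity of all paths -/
def Good (X : ℝ≥0 → Ω → Fin 3 → ℤ) (Y : (Fin 3 → ℤ) → ℕ → ℝ≥0 → Ω → Fin 3 → ℤ) (ω : Ω) : Prop :=
  (∀ t, ∀ᶠ u in 𝓝[≥] t, X u ω = X t ω) ∧ ∀ y j, ∀ t, ∀ᶠ u in 𝓝[≥] t, Y y j u ω = Y y j t ω

theorem ae_good (hT : TrapModel P κ ρ ν X N Y) : ∀ᵐ ω ∂P, Good X Y ω := by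
  have h1 : ∀ᵐ ω ∂P, ∀ y j, ∀ t, ∀ᶠ u in 𝓝[≥] t, Y y j u ω = Y y j t ω := by
    rw [ae_all_iff]; intro y
    rw [ae_all_iff]; intro j
    exact (hT.trap y j).rightCont
  filter_upwards [hT.walk.rightCont, h1] with ω ha hb
  exact ⟨ha, hb⟩

omit [MeasurableSpace Ω] in
theorem trap_liminf {t : ℝ≥0} (ht : 0 < t) {s : ℝ} (hs : 0 ≤ s) {ω : Ω} (hω : Good X Y ω) :
    trapField N Y s.toNNReal (X s.toNNReal ω) ω ≤
      liminf (fun n => trapField N Y (apx (mesh t n) s) (X (apx (mesh t n) s) ω) ω) atTop := by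
  classical
  have hX : ∀ᶠ n in atTop, X (apx (mesh t n) s) ω = X s.toNNReal ω :=
    (apx_tendsto ht hs).eventually (hω.1 s.toNNReal)
  have hY : ∀ y j, ∀ᶠ n in atTop, Y y j (apx (mesh t n) s) ω = Y y j s.toNNReal ω := fun y j =>
    (apx_tendsto ht hs).eventually (hω.2 y j s.toNNReal)
  conv_lhs => unfold trapField
  rw [ENNReal.tsum_eq_iSup_sum]
  refine iSup_le fun S => ?_
  refine le_liminf_of_le (by isBoundedDefault) ?_
  have h1 : ∀ᶠ n in atTop, ∀ y ∈ S, ∀ j ∈ Finset.range (N y ω),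
      Y y j (apx (mesh t n) s) ω = Y y j s.toNNReal ω := by
    rw [Finset.eventually_all]
    intro y _
    rw [Finset.eventually_all]
    intro j _
    exact hY y j
  filter_upwards [hX, h1] with n h2 h3
  calc ∑ y ∈ S, ∑ j ∈ Finset.range (N y ω),
        (if y + Y y j s.toNNReal ω = X s.toNNReal ω then 1 else 0 : ℝ≥0∞)
      = ∑ y ∈ S, ∑ j ∈ Finset.range (N y ω),
        (if y + Y y j (apx (mesh t n) s) ω = X (apx (mesh t n) s) ω then 1 else 0 : ℝ≥0∞) := by
        refine Finset.sum_congr rfl fun y hy => Finset.sum_congr rfl fun j hj => ?_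
        rw [h2, h3 y hy j hj]
    _ ≤ _ := ENNReal.sum_le_tsum S

theorem expg_eq {t : ℝ≥0} (ht : 0 < t) {n : ℕ} (hn : 1 ≤ n) (ω : Ω) :
    expg X N Y (mesh t n) (2 * n) ω = ∫⁻ s in Set.Icc (0 : ℝ) t,
      trapField N Y (apx (mesh t n) s) (X (apx (mesh t n) s) ω) ω := by
  have h1 := lintegral_ceil (fun k => trapField N Y (k * mesh t n) (X (k * mesh t n) ω) ω)
    (mesh_pos ht hn) (2 * n)
  have h2 : ((2 * n : ℕ) : ℝ) * (mesh t n : ℝ≥0) = t := by
    have := congrArg (fun a : ℝ≥0 => (a : ℝ)) (mesh_mul t hn)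
    simpa using this
  rw [h2] at h1
  unfold expg
  rw [hits_eq, ← h1]
  rfl

theorem exposure_liminf {t : ℝ≥0} (ht : 0 < t) {ω : Ω} (hω : Good X Y ω) :
    exposure X N Y t ω ≤ liminf (fun n => expg X N Y (mesh t n) (2 * n) ω) atTop := by
  have h1 : liminf (fun n => expg X N Y (mesh t n) (2 * n) ω) atTop =
      liminf (fun n => ∫⁻ s in Set.Icc (0 : ℝ) t,
        trapField N Y (apx (mesh t n) s) (X (apx (mesh t n) s) ω) ω) atTop := by
    apply liminf_congr
    filter_upwards [eventually_ge_atTop 1] with n hn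
    exact expg_eq ht hn ω
  rw [h1]
  unfold exposure
  refine le_trans ?_ (lintegral_liminf_le fun n => ?_)
  · exact setLIntegral_mono' measurableSet_Icc fun s hs => trap_liminf ht hs.1 hω
  · have h2 : Measurable fun s : ℝ => ⌈s / (mesh t n : ℝ)⌉₊ :=
      Nat.measurable_ceil.comp (measurable_id.div_const _)
    exact (measurable_of_countable fun k : ℕ =>
      trapField N Y (k * mesh t n) (X (k * mesh t n) ω) ω).comp h2

/-- joint measurability -/
theorem joint_meas (hT : TrapModel P κ ρ ν X N Y) {t : ℝ≥0} (ht : 0 < t) :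
    AEMeasurable (fun p : Ω × ℝ => trapField N Y p.2.toNNReal (X p.2.toNNReal p.1) p.1)
      (P.prod (volume.restrict (Set.Icc (0 : ℝ) t))) := by
  classical
  set μ := P.prod (volume.restrict (Set.Icc (0 : ℝ) t)) with hμ
  have hgood : ∀ᵐ p ∂μ, Good X Y p.1 ∧ 0 ≤ p.2 := by
    have h1 : ∀ᵐ p ∂μ, Good X Y p.1 := Measure.quasiMeasurePreserving_fst.ae (ae_good hT)
    have h2 : ∀ᵐ s ∂(volume.restrict (Set.Icc (0 : ℝ) t)), (0 : ℝ) ≤ s := by
      filter_upwards [ae_restrict_mem measurableSet_Icc] with s hs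
      exact hs.1
    have h3 : ∀ᵐ p ∂μ, (0 : ℝ) ≤ p.2 := Measure.quasiMeasurePreserving_snd.ae h2
    filter_upwards [h1, h3] with p ha hb
    exact ⟨ha, hb⟩
  have hterm : ∀ y j, AEMeasurable (fun p : Ω × ℝ => ({ω | j < N y ω} : Set Ω).indicator
      (fun ω => (if y + Y y j p.2.toNNReal ω = X p.2.toNNReal ω then 1 else 0 : ℝ≥0∞)) p.1) μ := by
    intro y j
    refine aemeasurable_of_tendsto_metrizable_ae' (f := fun n (p : Ω × ℝ) =>
      ({ω | j < N y ω} : Set Ω).indicator (fun ω =>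
        (if y + Y y j (apx (mesh t n) p.2) ω = X (apx (mesh t n) p.2) ω then 1 else 0 : ℝ≥0∞))
          p.1) ?_ ?_
    · intro n
      have h1 : Measurable fun q : Ω × ℕ => ({ω | j < N y ω} : Set Ω).indicator (fun ω =>
          (if y + Y y j ((q.2 : ℝ≥0) * mesh t n) ω = X ((q.2 : ℝ≥0) * mesh t n) ω then 1 else 0 :
            ℝ≥0∞)) q.1 := by
        refine measurable_from_prod_countable_left fun k => ?_
        refine Measurable.indicator ?_ (measurableSet_lt measurable_const (hT.number_meas y))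
        refine Measurable.ite ?_ measurable_const measurable_const
        exact measurableSet_eq_fun (measurable_const.add ((hT.trap y j).meas (k * mesh t n)))
          (hT.walk.meas (k * mesh t n))
      have h2 : Measurable fun p : Ω × ℝ => ((p.1, ⌈p.2 / (mesh t n : ℝ)⌉₊) : Ω × ℕ) :=
        measurable_fst.prodMk (Nat.measurable_ceil.comp (measurable_snd.div_const _))
      exact (h1.comp h2).aemeasurable
    · filter_upwards [hgood] with p hp
      have hX : ∀ᶠ n in atTop, X (apx (mesh t n) p.2) p.1 = X p.2.toNNReal p.1 :=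
        (apx_tendsto ht hp.2).eventually (hp.1.1 p.2.toNNReal)
      have hY : ∀ᶠ n in atTop, Y y j (apx (mesh t n) p.2) p.1 = Y y j p.2.toNNReal p.1 :=
        (apx_tendsto ht hp.2).eventually (hp.1.2 y j p.2.toNNReal)
      refine Tendsto.congr' ?_ tendsto_const_nhds
      filter_upwards [hX, hY] with n h1 h2
      simp only [Set.indicator_apply, h1, h2]
  have h4 : (fun p : Ω × ℝ => trapField N Y p.2.toNNReal (X p.2.toNNReal p.1) p.1) =
      fun p : Ω × ℝ => ∑' y, ∑' j, ({ω | j < N y ω} : Set Ω).indicator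
      (fun ω => (if y + Y y j p.2.toNNReal ω = X p.2.toNNReal ω then 1 else 0 : ℝ≥0∞)) p.1 := by
    funext p
    unfold trapField
    refine tsum_congr fun y => ?_
    exact sum_range_eq (N y) (fun j ω =>
      if y + Y y j p.2.toNNReal ω = X p.2.toNNReal ω then 1 else 0) p.1
  rw [h4]
  exact AEMeasurable.tsum fun y => AEMeasurable.tsum fun j => hterm y j

theorem exposure_aemeas (hT : TrapModel P κ ρ ν X N Y) {t : ℝ≥0} (ht : 0 < t) :
    AEMeasurable (exposure X N Y t) P :=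
  (joint_meas hT ht).lintegral_prod_right'

theorem exposure_mean (hT : TrapModel P κ ρ ν X N Y) {t : ℝ≥0} (ht : 0 < t) :
    ∫⁻ ω, exposure X N Y t ω ∂P = t * ν := by
  unfold exposure
  rw [lintegral_lintegral_swap (joint_meas hT ht)]
  have : ∀ s : ℝ, ∫⁻ ω, trapField N Y s.toNNReal (X s.toNNReal ω) ω ∂P = ν := fun s =>
    trapField_walk_mean hT _
  simp_rw [this]
  rw [setLIntegral_const, Real.volume_Icc, sub_zero, ENNReal.ofReal_coe_nnreal, mul_comm]

theorem weight_eq (γ t : ℝ≥0) (ω : Ω) : weight γ X N Y t ω = En (γ * exposure X N Y t ω) := rfl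

theorem survival_pos (hT : TrapModel P κ ρ ν X N Y) (γ : ℝ≥0) {t : ℝ≥0} (ht : 0 < t) :
    survival P γ X N Y t ≠ 0 := by
  unfold survival
  intro h0
  have hm : AEMeasurable (fun ω => weight γ X N Y t ω) P := by
    simp_rw [weight_eq]
    exact En_meas.comp_aemeasurable ((exposure_aemeas hT ht).const_mul _)
  rw [lintegral_eq_zero_iff' hm] at h0
  have h1 : ∀ᵐ ω ∂P, exposure X N Y t ω < ∞ :=
    ae_lt_top' (exposure_aemeas hT ht) (by
      rw [exposure_mean hT ht]; exact ENNReal.mul_ne_top ENNReal.coe_ne_top ENNReal.coe_ne_top)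
  have h2 : ∀ᵐ ω ∂P, False := by
    filter_upwards [h0, h1] with ω ha hb
    have h3 : 0 < En (γ * exposure X N Y t ω) := En_pos (ENNReal.mul_ne_top ENNReal.coe_ne_top hb.ne)
    rw [← weight_eq] at h3
    exact h3.ne' ha
  rw [ae_iff] at h2
  simp at h2

theorem survival_ne_top (γ t : ℝ≥0) : survival P γ X N Y t ≠ ∞ := by
  unfold survival
  refine ne_top_of_le_ne_top ENNReal.one_ne_top ?_
  calc ∫⁻ ω, weight γ X N Y t ω ∂P ≤ ∫⁻ _, 1 ∂P := lintegral_mono fun ω => En_le_one _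
    _ = 1 := by simp

theorem mul_sub_le (γ : ℝ≥0∞) (hγ : γ ≠ ∞) (a b : ℝ≥0∞) : γ * a - γ * b ≤ γ * (a - b) := by
  rw [ENNReal.mul_sub (fun _ _ => hγ)]

/-- the reflection inequality in continuous time -/
theorem reflect_limit (hT : TrapModel P κ ρ ν X N Y) (γ : ℝ≥0) {t : ℝ≥0} (ht : 0 < t)
    (A : Set Ω) (An : ℕ → (ℕ → Fin 3 → ℤ) → Prop)
    (hAn : ∀ n, ∀ x x' : ℕ → Fin 3 → ℤ, (∀ k ≤ 2 * n, x k = x' k) → (An n x ↔ An n x'))
    (hsub : ∀ᶠ n in atTop, ∀ ω ∈ A, An n (gr X (mesh t n) ω)) (D : ℝ≥0∞)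
    (hD : ∀ᶠ n in atTop, ∀ x, An n x →
      Cn P (γ * mesh t n) (Y 0 0) (mesh t n) n (refl n x) + D ≤
        Cn P (γ * mesh t n) (Y 0 0) (mesh t n) n x) :
    ∫⁻ ω in A, weight γ X N Y t ω ∂P ≤ En (ν * D) * survival P γ X N Y t := by
  set f := exposure X N Y t with hf
  set fn : ℕ → Ω → ℝ≥0∞ := fun n => expg X N Y (mesh t n) (2 * n) with hfn
  have hfm : AEMeasurable f P := exposure_aemeas hT ht
  have hfnm : ∀ n, Measurable (fn n) := fun n => expg_meas hT _ _
  have hc : (t : ℝ≥0∞) * ν ≠ ∞ := ENNReal.mul_ne_top ENNReal.coe_ne_top ENNReal.coe_ne_top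
  have hmean : ∀ᶠ n in atTop, ∫⁻ ω, fn n ω ∂P = t * ν := by
    filter_upwards [eventually_ge_atTop 1] with n hn
    rw [hfn, expg_mean hT, ← mul_assoc]
    congr 1
    have := mesh_mul t hn
    rw [mul_comm]
    exact_mod_cast congrArg (fun a : ℝ≥0 => (a : ℝ≥0∞)) this
  have hS := scheffe hfm hfnm hc (exposure_mean hT ht) hmean (by
    filter_upwards [ae_good hT] with ω hω
    exact exposure_liminf ht hω)
  -- the main inequality, for every large n
  have key : ∀ᶠ n in atTop, ∫⁻ ω in A, weight γ X N Y t ω ∂P ≤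
      En (ν * D) * (survival P γ X N Y t + γ * ∫⁻ ω, (f ω - fn n ω) ∂P) +
        γ * ∫⁻ ω, (fn n ω - f ω) ∂P := by
    filter_upwards [hsub, hD] with n h1 h2
    have hθ : (0 : ℝ) ≤ (γ : ℝ) * mesh t n := by positivity
    have h3 := reflect_grid hT hθ (mesh t n) n (An n) (hAn n) D h2
    have h4 : ∀ ω, En (ENNReal.ofReal ((γ : ℝ) * mesh t n) *
        hits N Y (mesh t n) (2 * n) (gr X (mesh t n) ω) ω) = En (γ * fn n ω) := by
      intro ω
      have : ENNReal.ofReal ((γ : ℝ) * mesh t n) = γ * mesh t n := by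
        rw [ENNReal.ofReal_mul (by positivity), ENNReal.ofReal_coe_nnreal,
          ENNReal.ofReal_coe_nnreal]
      rw [this, hfn]
      simp only [expg]
      rw [mul_assoc]
    simp_rw [h4] at h3
    have hEnm : Measurable fun ω => En (γ * fn n ω) := En_meas.comp ((hfnm n).const_mul _)
    have hm1 : AEMeasurable (fun ω => (γ : ℝ≥0∞) * (fn n ω - f ω)) P :=
      (((hfnm n).aemeasurable.sub hfm)).const_mul _
    calc ∫⁻ ω in A, weight γ X N Y t ω ∂P
        ≤ ∫⁻ ω in A, (En (γ * fn n ω) + γ * (fn n ω - f ω)) ∂P := by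
          refine lintegral_mono fun ω => ?_
          rw [weight_eq]
          refine (En_lip _ (γ * fn n ω)).trans ?_
          gcongr
          exact mul_sub_le _ ENNReal.coe_ne_top _ _
      _ = ∫⁻ ω in A, En (γ * fn n ω) ∂P + ∫⁻ ω in A, γ * (fn n ω - f ω) ∂P :=
          lintegral_add_left hEnm _
      _ ≤ ∫⁻ ω in {ω | An n (gr X (mesh t n) ω)}, En (γ * fn n ω) ∂P +
          ∫⁻ ω, γ * (fn n ω - f ω) ∂P := by
          gcongr
          · exact h1
          · exact Measure.restrict_le_self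
      _ ≤ En (ν * D) * ∫⁻ ω, En (γ * fn n ω) ∂P + ∫⁻ ω, γ * (fn n ω - f ω) ∂P := by
          gcongr
      _ ≤ En (ν * D) * (survival P γ X N Y t + γ * ∫⁻ ω, (f ω - fn n ω) ∂P) +
          γ * ∫⁻ ω, (fn n ω - f ω) ∂P := by
          rw [lintegral_const_mul' _ _ ENNReal.coe_ne_top]
          gcongr
          calc ∫⁻ ω, En (γ * fn n ω) ∂P
              ≤ ∫⁻ ω, (weight γ X N Y t ω + γ * (f ω - fn n ω)) ∂P := by
                refine lintegral_mono fun ω => ?_
                rw [weight_eq]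
                refine (En_lip _ (γ * f ω)).trans ?_
                gcongr
                exact mul_sub_le _ ENNReal.coe_ne_top _ _
            _ = survival P γ X N Y t + ∫⁻ ω, γ * (f ω - fn n ω) ∂P := by
                unfold survival
                refine lintegral_add_left' ?_ _
                show AEMeasurable (fun ω => En (γ * f ω)) P
                exact En_meas.comp_aemeasurable (hfm.const_mul _)
            _ = _ := by rw [lintegral_const_mul' _ _ ENNReal.coe_ne_top]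
  have hlim : Tendsto (fun n => En (ν * D) * (survival P γ X N Y t + γ * ∫⁻ ω, (f ω - fn n ω) ∂P) +
        γ * ∫⁻ ω, (fn n ω - f ω) ∂P) atTop (𝓝 (En (ν * D) * (survival P γ X N Y t + γ * 0) +
          γ * 0)) := by
    have hγ : (γ : ℝ≥0∞) ≠ ∞ := ENNReal.coe_ne_top
    have hE : En (ν * D) ≠ ∞ := ne_top_of_le_ne_top ENNReal.one_ne_top (En_le_one _)
    refine Tendsto.add (ENNReal.Tendsto.const_mul (tendsto_const_nhds.add
      (ENNReal.Tendsto.const_mul hS.1 (Or.inr hγ))) (Or.inr hE))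
      (ENNReal.Tendsto.const_mul hS.2 (Or.inr hγ))
  simp only [mul_zero, add_zero] at hlim
  exact ge_of_tendsto hlim key

end

end Pool.Agent.W845.Traps
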