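import Pool.Agent.W845.Annealed

/-! Mean of the field of traps, and grid exposure. -/

set_option autoImplicit false
set_option linter.unusedSectionVars false

namespace Pool.Agent.W845.Traps

open MeasureTheory ProbabilityTheory Filter Topology
open scoped ENNReal NNReal

universe u

/-- mean of the Poisson law -/
theorem poisson_mean (ν : ℝ≥0) : ∫⁻ n, (n : ℝ≥0∞) ∂(poissonMeasure ν) = ν := by
  rw [lintegral_countable', tsum_eq_zero_add' ENNReal.summable]
  simp only [Nat.cast_zero, zero_mul, zero_add]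
  have h1 : ∀ n : ℕ, ((n + 1 : ℕ) : ℝ≥0∞) * (poissonMeasure ν) {n + 1} =
      ν * (poissonMeasure ν) {n} := by
    intro n
    rw [poissonMeasure_singleton, poissonMeasure_singleton, ← ENNReal.ofReal_natCast,
      ← ENNReal.ofReal_mul (by positivity), ← ENNReal.ofReal_coe_nnreal (p := ν),
      ← ENNReal.ofReal_mul (by positivity)]
    congr 1
    rw [Nat.factorial_succ, pow_succ]
    have : ((n.factorial : ℕ) : ℝ) ≠ 0 := by positivity
    have : ((n + 1 : ℕ) : ℝ) ≠ 0 := by positivity
    push_cast at *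
    field_simp
  simp_rw [h1]
  rw [ENNReal.tsum_mul_left]
  have h2 := lintegral_countable' (μ := poissonMeasure ν) (fun _ : ℕ => (1 : ℝ≥0∞))
  simp only [one_mul, lintegral_const, measure_univ] at h2
  rw [← h2, mul_one]

section

variable {Ω : Type u} [MeasurableSpace Ω] {P : Measure Ω} [IsProbabilityMeasure P]
  {κ ρ ν : ℝ≥0} {X : ℝ≥0 → Ω → Fin 3 → ℤ} {N : (Fin 3 → ℤ) → Ω → ℕ}
  {Y : (Fin 3 → ℤ) → ℕ → ℝ≥0 → Ω → Fin 3 → ℤ}

theorem trapField_meas {Ω' : Type*} [MeasurableSpace Ω'] {N : (Fin 3 → ℤ) → Ω' → ℕ}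
    {Y : (Fin 3 → ℤ) → ℕ → ℝ≥0 → Ω' → Fin 3 → ℤ} (hN : ∀ y, Measurable (N y))
    (hY : ∀ y j s, Measurable (Y y j s)) (s : ℝ≥0) (x : Fin 3 → ℤ) :
    Measurable (trapField N Y s x) := by
  unfold trapField
  refine Measurable.tsum fun y => ?_
  refine sum_range_meas (hN y) fun j => ?_
  refine Measurable.ite ?_ measurable_const measurable_const
  exact measurableSet_eq_fun (measurable_const.add (hY y j s)) measurable_const

/-- the expected number of traps at a site -/
theorem trapField_mean (hT : TrapModel P κ ρ ν X N Y) (s : ℝ≥0) (x : Fin 3 → ℤ) :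
    ∫⁻ ω, trapField N Y s x ω ∂P = ν := by
  have hm1 : ∀ y j, Measurable fun ω => (if y + Y y j s ω = x then 1 else 0 : ℝ≥0∞) := by
    intro y j
    refine Measurable.ite ?_ measurable_const measurable_const
    exact measurableSet_eq_fun (measurable_const.add ((hT.trap y j).meas s)) measurable_const
  unfold trapField
  rw [lintegral_tsum fun y => (sum_range_meas (hT.number_meas y) (hm1 y)).aemeasurable]
  have h1 : ∀ y, ∫⁻ ω, ∑ j ∈ Finset.range (N y ω), (if y + Y y j s ω = x then 1 else 0 : ℝ≥0∞) ∂P =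
      ν * gk ρ s (x - y) := by
    intro y
    have e0 : ∀ ω, ∑ j ∈ Finset.range (N y ω), (if y + Y y j s ω = x then 1 else 0 : ℝ≥0∞) =
        ∑' j, ({ω | j < N y ω} : Set Ω).indicator
          (fun ω => (if y + Y y j s ω = x then 1 else 0 : ℝ≥0∞)) ω := fun ω =>
      sum_range_eq (N y) (fun j ω => if y + Y y j s ω = x then 1 else 0) ω
    simp_rw [e0]
    rw [lintegral_tsum fun j => ((hm1 y j).indicator
      (measurableSet_lt measurable_const (hT.number_meas y))).aemeasurable]
    have h2 : ∀ j, ∫⁻ ω, ({ω | j < N y ω} : Set Ω).indicator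
        (fun ω => (if y + Y y j s ω = x then 1 else 0 : ℝ≥0∞)) ω ∂P =
        P {ω | j < N y ω} * gk ρ s (x - y) := by
      intro j
      have hI : IndepFun (N y) (Y y j s) P := by
        have := hT.indepNY
        exact this.comp (measurable_pi_apply y)
          ((measurable_pi_apply s).comp (measurable_pi_apply (y, j)))
      have h3 := hI.measure_inter_preimage_eq_mul {n | j < n} {x - y}
        (MeasurableSet.of_discrete) (MeasurableSet.singleton _)
      have h4 : P (Y y j s ⁻¹' {x - y}) = gk ρ s (x - y) := by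
        have := prob_sub (hT.trap y j) (zero_le (a := s)) (x - y)
        rw [tsub_zero] at this
        rw [← this]
        refine measure_congr ?_
        filter_upwards [(hT.trap y j).zero] with ω hω
        apply propext
        show Y y j s ω = x - y ↔ Y y j s ω - Y y j 0 ω = x - y
        rw [hω, sub_zero]
      rw [h4] at h3
      have h5 : P (N y ⁻¹' {n | j < n} ∩ Y y j s ⁻¹' {x - y}) = _ := h3
      have hms : MeasurableSet (N y ⁻¹' {n | j < n} ∩ Y y j s ⁻¹' {x - y}) :=
        ((hT.number_meas y) MeasurableSet.of_discrete).inter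
          ((hT.trap y j).meas s (MeasurableSet.singleton _))
      have h6 : P {ω | j < N y ω} = P (N y ⁻¹' {n | j < n}) := rfl
      rw [h6, ← h5, ← lintegral_indicator_one hms]
      refine lintegral_congr fun ω => ?_
      by_cases ha : j < N y ω
      · by_cases hb : y + Y y j s ω = x
        · rw [Set.indicator_of_mem (show ω ∈ {ω | j < N y ω} from ha), if_pos hb,
            Set.indicator_of_mem]
          · rfl
          · refine ⟨ha, ?_⟩
            show Y y j s ω = x - y
            rw [← hb]; abel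
        · rw [Set.indicator_of_mem (show ω ∈ {ω | j < N y ω} from ha), if_neg hb,
            Set.indicator_of_notMem]
          rintro ⟨_, hc⟩
          apply hb
          have hc' : Y y j s ω = x - y := hc
          rw [hc']; abel
      · rw [Set.indicator_of_notMem (show ω ∉ {ω | j < N y ω} from ha), Set.indicator_of_notMem]
        rintro ⟨hc, _⟩
        exact ha hc
    simp_rw [h2]
    rw [ENNReal.tsum_mul_right]
    congr 1
    rw [← poisson_mean ν, ← hT.number y, lintegral_map (measurable_of_countable _)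
      (hT.number_meas y)]
    have h7 : ∀ ω, ((N y ω : ℕ) : ℝ≥0∞) = ∑' j, ({ω | j < N y ω} : Set Ω).indicator 1 ω := by
      intro ω
      have := sum_range_eq (N y) (fun _ _ => 1) ω
      simp only [Finset.sum_const, Finset.card_range, nsmul_eq_mul, mul_one] at this
      exact this
    simp_rw [h7]
    rw [lintegral_tsum fun j => (measurable_one.indicator
      (measurableSet_lt measurable_const (hT.number_meas y))).aemeasurable]
    refine tsum_congr fun j => ?_
    rw [lintegral_indicator_one (measurableSet_lt measurable_const (hT.number_meas y))]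
  simp_rw [h1]
  rw [ENNReal.tsum_mul_left]
  have h8 : ∑' y, gk ρ s (x - y) = 1 := by
    rw [← tsum_gk ρ s, ← (Equiv.subLeft x).tsum_eq (fun v => gk ρ s v)]
    rfl
  rw [h8, mul_one]

/-- the expected number of traps on the walk -/
theorem trapField_walk_mean (hT : TrapModel P κ ρ ν X N Y) (s : ℝ≥0) :
    ∫⁻ ω, trapField N Y s (X s ω) ω ∂P = ν := by
  have hcm := conf_meas hT
  have hXm := hT.walk.meas s
  set H : (Fin 3 → ℤ) × Conf → ℝ≥0∞ := fun q => trapField N₀ Y₀ s q.1 q.2 with hH
  have hHm : Measurable H := by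
    refine measurable_from_prod_countable_right fun a => ?_
    exact trapField_meas N₀_meas Y₀_meas s a
  have hind : IndepFun (X s) (conf N Y) P := by
    have h1 := hT.indepX
    exact h1.comp (measurable_pi_apply s) measurable_id
  have h1 := hind.map_prod_eq_prod_map_map hXm.aemeasurable hcm.aemeasurable
  have e1 : ∀ ω, trapField N Y s (X s ω) ω = H (X s ω, conf N Y ω) := fun ω => rfl
  simp_rw [e1]
  rw [← lintegral_map hHm (hXm.prodMk hcm), h1, lintegral_prod _ hHm.aemeasurable,
    lintegral_map hHm.lintegral_prod_right' hXm]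
  have e2 : ∀ ω, ∫⁻ p, H (X s ω, p) ∂(P.map (conf N Y)) = ν := by
    intro ω
    refine (lintegral_map (hHm.comp (measurable_prodMk_left (x := X s ω))) hcm).trans ?_
    exact trapField_mean hT s (X s ω)
  simp_rw [e2]
  simp

omit [MeasurableSpace Ω] in
theorem hits_eq (h : ℝ≥0) (m : ℕ) (ω : Ω) :
    hits N Y h m (gr X h ω) ω =
      ∑ k ∈ Finset.Icc 1 m, trapField N Y (k * h) (X (k * h) ω) ω := by
  classical
  unfold hits trapField
  rw [← Summable.tsum_finsetSum (fun _ _ => ENNReal.summable)]
  refine tsum_congr fun y => ?_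
  rw [Finset.sum_comm]
  refine Finset.sum_congr rfl fun j _ => ?_
  unfold cnt
  rw [Finset.card_filter]
  push_cast
  rfl

theorem trapField_walk_meas (hT : TrapModel P κ ρ ν X N Y) (s : ℝ≥0) :
    Measurable fun ω => trapField N Y s (X s ω) ω := by
  have hHm : Measurable fun q : (Fin 3 → ℤ) × Conf => trapField N₀ Y₀ s q.1 q.2 := by
    refine measurable_from_prod_countable_right fun a => ?_
    exact trapField_meas N₀_meas Y₀_meas s a
  exact hHm.comp ((hT.walk.meas s).prodMk (conf_meas hT))

/-- grid exposure -/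
noncomputable def expg (X : ℝ≥0 → Ω → Fin 3 → ℤ) (N : (Fin 3 → ℤ) → Ω → ℕ)
    (Y : (Fin 3 → ℤ) → ℕ → ℝ≥0 → Ω → Fin 3 → ℤ) (h : ℝ≥0) (m : ℕ) (ω : Ω) : ℝ≥0∞ :=
  h * hits N Y h m (gr X h ω) ω

theorem expg_meas (hT : TrapModel P κ ρ ν X N Y) (h : ℝ≥0) (m : ℕ) :
    Measurable (expg X N Y h m) := by
  unfold expg
  simp_rw [hits_eq]
  refine Measurable.const_mul (Finset.measurable_sum _ fun k _ => ?_) _
  exact trapField_walk_meas hT _

theorem expg_mean (hT : TrapModel P κ ρ ν X N Y) (h : ℝ≥0) (m : ℕ) :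
    ∫⁻ ω, expg X N Y h m ω ∂P = h * (m * ν) := by
  unfold expg
  simp_rw [hits_eq]
  rw [lintegral_const_mul _ (Finset.measurable_sum _ fun k _ => trapField_walk_meas hT _),
    lintegral_finsetSum _ fun k _ => trapField_walk_meas hT _]
  simp_rw [trapField_walk_mean hT]
  simp

end

/-- integral of a step function -/
theorem lintegral_ceil (F : ℕ → ℝ≥0∞) {h : ℝ≥0} (hh : 0 < h) (m : ℕ) :
    ∫⁻ s in Set.Icc (0 : ℝ) (m * h), F ⌈s / h⌉₊ = h * ∑ k ∈ Finset.Icc 1 m, F k := by
  have hh' : (0 : ℝ) < h := by exact_mod_cast hh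
  induction m with
  | zero => simp
  | succ m ih =>
    have h1 : Set.Icc (0 : ℝ) ((m + 1 : ℕ) * h) = Set.Icc (0 : ℝ) (m * h) ∪
        Set.Ioc ((m : ℝ) * h) ((m + 1 : ℕ) * h) := by
      rw [Set.Icc_union_Ioc_eq_Icc (by positivity) (by push_cast; nlinarith)]
    rw [h1, lintegral_union measurableSet_Ioc, ih]
    · have h2 : ∫⁻ s in Set.Ioc ((m : ℝ) * h) ((m + 1 : ℕ) * h), F ⌈s / h⌉₊ =
          ∫⁻ s in Set.Ioc ((m : ℝ) * h) ((m + 1 : ℕ) * h), F (m + 1) := by
        refine setLIntegral_congr_fun measurableSet_Ioc fun s hs => ?_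
        have h3 : ⌈s / h⌉₊ = m + 1 := by
          rw [Nat.ceil_eq_iff (by omega)]
          constructor
          · rw [lt_div_iff₀ hh']
            simpa using hs.1
          · rw [div_le_iff₀ hh']
            exact hs.2
        simp only [h3]
      rw [h2, setLIntegral_const, Real.volume_Ioc]
      have h4 : ((m + 1 : ℕ) : ℝ) * h - m * h = h := by push_cast; ring
      rw [h4, ENNReal.ofReal_coe_nnreal, Finset.sum_Icc_succ_top (by omega)]
      ring
    · rw [Set.disjoint_left]
      intro s hs hs'
      exact absurd hs'.1 (not_lt.2 hs.2)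

end Pool.Agent.W845.Traps
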