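import Pool.Agent.W845.Defs

/-! A bounded continuous functional on the Skorokhod space. -/

set_option autoImplicit false
set_option linter.unusedSectionVars false

namespace Pool.Agent.W845.Traps

open MeasureTheory ProbabilityTheory Filter Topology
open scoped ENNReal NNReal

/-- the excess of the path `f` over the tube around `ψ` of width `w` -/
noncomputable def exc (ψ : Set.Icc (0 : ℝ) 1 → Fin 3 → ℝ) (w : Set.Icc (0 : ℝ) 1 → ℝ)
    (f : Set.Icc (0 : ℝ) 1 → Fin 3 → ℝ) : ℝ≥0∞ :=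
  ⨆ u, ENNReal.ofReal (‖f u - ψ u‖ - w u)

/-- the test functional -/
noncomputable def tst (ψ : Set.Icc (0 : ℝ) 1 → Fin 3 → ℝ) (w : Set.Icc (0 : ℝ) 1 → ℝ)
    (f : Set.Icc (0 : ℝ) 1 → Fin 3 → ℝ) : ℝ :=
  (1 - exc ψ w f).toReal

theorem tst_nonneg (ψ : Set.Icc (0 : ℝ) 1 → Fin 3 → ℝ) (w : Set.Icc (0 : ℝ) 1 → ℝ)
    (f : Set.Icc (0 : ℝ) 1 → Fin 3 → ℝ) : 0 ≤ tst ψ w f := ENNReal.toReal_nonneg

theorem tst_le_one (ψ : Set.Icc (0 : ℝ) 1 → Fin 3 → ℝ) (w : Set.Icc (0 : ℝ) 1 → ℝ)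
    (f : Set.Icc (0 : ℝ) 1 → Fin 3 → ℝ) : tst ψ w f ≤ 1 := by
  unfold tst
  have : (1 - exc ψ w f) ≤ 1 := tsub_le_self
  simpa using ENNReal.toReal_mono ENNReal.one_ne_top this

theorem exc_lt_of_tst {ψ : Set.Icc (0 : ℝ) 1 → Fin 3 → ℝ} {w : Set.Icc (0 : ℝ) 1 → ℝ}
    {f : Set.Icc (0 : ℝ) 1 → Fin 3 → ℝ} (h : tst ψ w f ≠ 0) (u : Set.Icc (0 : ℝ) 1) :
    ‖f u - ψ u‖ ≤ w u + 1 := by
  have h1 : exc ψ w f < 1 := by
    by_contra h2
    rw [not_lt] at h2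
    apply h
    unfold tst
    rw [tsub_eq_zero_of_le h2]
    simp
  have h2 : ENNReal.ofReal (‖f u - ψ u‖ - w u) < 1 :=
    lt_of_le_of_lt (le_iSup (fun u => ENNReal.ofReal (‖f u - ψ u‖ - w u)) u) h1
  rw [ENNReal.ofReal_lt_one] at h2
  linarith

theorem tst_pos_of_exc {ψ : Set.Icc (0 : ℝ) 1 → Fin 3 → ℝ} {w : Set.Icc (0 : ℝ) 1 → ℝ}
    {f : Set.Icc (0 : ℝ) 1 → Fin 3 → ℝ} (h : ∀ u, ‖f u - ψ u‖ - w u ≤ 1 / 2) :
    0 < tst ψ w f := by
  have h1 : exc ψ w f ≤ ENNReal.ofReal (1 / 2) := iSup_le fun u => ENNReal.ofReal_le_ofReal (h u)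
  have h2 : exc ψ w f < 1 := by
    refine lt_of_le_of_lt h1 ?_
    rw [ENNReal.ofReal_lt_one]
    norm_num
  unfold tst
  rw [ENNReal.toReal_pos_iff]
  refine ⟨tsub_pos_of_lt h2, lt_of_le_of_lt tsub_le_self ENNReal.one_lt_top⟩

theorem toReal_sub_le {a b : ℝ≥0∞} {δ : ℝ} (hδ : 0 ≤ δ) (h1 : a ≤ b + ENNReal.ofReal δ) :
    (1 - b).toReal ≤ (1 - a).toReal + δ := by
  have h2 : 1 - b ≤ (1 - a) + ENNReal.ofReal δ := by
    rw [tsub_le_iff_right]
    calc (1 : ℝ≥0∞) ≤ (1 - a) + a := le_tsub_add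
      _ ≤ (1 - a) + (b + ENNReal.ofReal δ) := by gcongr
      _ = 1 - a + ENNReal.ofReal δ + b := by ring
  have h3 : (1 - a) ≠ ∞ := ne_top_of_le_ne_top ENNReal.one_ne_top tsub_le_self
  have h4 := ENNReal.toReal_mono (ENNReal.add_ne_top.2 ⟨h3, ENNReal.ofReal_ne_top⟩) h2
  rwa [ENNReal.toReal_add h3 ENNReal.ofReal_ne_top, ENNReal.toReal_ofReal hδ] at h4

theorem tst_skor {ψ : Set.Icc (0 : ℝ) 1 → Fin 3 → ℝ} {w : Set.Icc (0 : ℝ) 1 → ℝ}
    (hψ : Continuous ψ) (hw : Continuous w) : SkorokhodContinuous (tst ψ w) := by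
  intro f g _ _ hfg
  obtain ⟨τ, hτ⟩ := hfg
  rw [Metric.tendsto_atTop']
  intro δ hδ
  have hψu : UniformContinuous ψ := CompactSpace.uniformContinuous_of_continuous hψ
  have hwu : UniformContinuous w := CompactSpace.uniformContinuous_of_continuous hw
  obtain ⟨η₁, hη₁, h1⟩ := Metric.uniformContinuous_iff.1 hψu (δ / 6) (by positivity)
  obtain ⟨η₂, hη₂, h2⟩ := Metric.uniformContinuous_iff.1 hwu (δ / 6) (by positivity)
  obtain ⟨n0, hn0⟩ := eventually_atTop.1 (hτ (min (min η₁ η₂) (δ / 6)) (by positivity))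
  refine ⟨n0, fun n hn => ?_⟩
  have h3 := hn0 n hn.le
  have hclose : ∀ u, |(‖f n (τ n u) - ψ (τ n u)‖ - w (τ n u)) - (‖g u - ψ u‖ - w u)| ≤ δ / 2 := by
    intro u
    obtain ⟨h4, h5⟩ := h3 u
    have h6 : dist (ψ (τ n u)) (ψ u) < δ / 6 :=
      h1 (lt_of_lt_of_le h4 ((min_le_left _ _).trans (min_le_left _ _)))
    have h7 : dist (w (τ n u)) (w u) < δ / 6 :=
      h2 (lt_of_lt_of_le h4 ((min_le_left _ _).trans (min_le_right _ _)))
    have h8 : dist (f n (τ n u)) (g u) < δ / 6 := lt_of_lt_of_le h5 (min_le_right _ _)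
    have h9 : |‖f n (τ n u) - ψ (τ n u)‖ - ‖g u - ψ u‖| ≤ δ / 3 := by
      refine (abs_norm_sub_norm_le _ _).trans ?_
      have : f n (τ n u) - ψ (τ n u) - (g u - ψ u) =
          (f n (τ n u) - g u) - (ψ (τ n u) - ψ u) := by abel
      rw [this]
      refine (norm_sub_le _ _).trans ?_
      rw [← dist_eq_norm, ← dist_eq_norm]
      linarith
    have h10 : |w (τ n u) - w u| ≤ δ / 6 := by
      rw [← Real.dist_eq]; exact h7.le
    rw [abs_le] at *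
    constructor <;> linarith [h9.1, h9.2, h10.1, h10.2]
  have hiSup : exc ψ w (f n) =
      ⨆ u, ENNReal.ofReal (‖f n (τ n u) - ψ (τ n u)‖ - w (τ n u)) := by
    unfold exc
    exact ((τ n).toEquiv.iSup_comp
      (g := fun u => ENNReal.ofReal (‖f n u - ψ u‖ - w u))).symm
  have hA : exc ψ w (f n) ≤ exc ψ w g + ENNReal.ofReal (δ / 2) := by
    rw [hiSup]
    refine iSup_le fun u => ?_
    have h4 : ‖f n (τ n u) - ψ (τ n u)‖ - w (τ n u) ≤ (‖g u - ψ u‖ - w u) + δ / 2 := by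
      have := (abs_le.1 (hclose u)).2
      linarith
    calc ENNReal.ofReal (‖f n (τ n u) - ψ (τ n u)‖ - w (τ n u))
        ≤ ENNReal.ofReal ((‖g u - ψ u‖ - w u) + δ / 2) := ENNReal.ofReal_le_ofReal h4
      _ ≤ ENNReal.ofReal (‖g u - ψ u‖ - w u) + ENNReal.ofReal (δ / 2) := ENNReal.ofReal_add_le
      _ ≤ _ := by
          gcongr
          exact le_iSup (fun u => ENNReal.ofReal (‖g u - ψ u‖ - w u)) u
  have hB : exc ψ w g ≤ exc ψ w (f n) + ENNReal.ofReal (δ / 2) := by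
    rw [hiSup]
    refine iSup_le fun u => ?_
    have h4 : ‖g u - ψ u‖ - w u ≤ (‖f n (τ n u) - ψ (τ n u)‖ - w (τ n u)) + δ / 2 := by
      have := (abs_le.1 (hclose u)).1
      linarith
    calc ENNReal.ofReal (‖g u - ψ u‖ - w u)
        ≤ ENNReal.ofReal ((‖f n (τ n u) - ψ (τ n u)‖ - w (τ n u)) + δ / 2) :=
          ENNReal.ofReal_le_ofReal h4
      _ ≤ ENNReal.ofReal (‖f n (τ n u) - ψ (τ n u)‖ - w (τ n u)) + ENNReal.ofReal (δ / 2) :=
          ENNReal.ofReal_add_le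
      _ ≤ _ := by
          gcongr
          exact le_iSup (fun u => ENNReal.ofReal (‖f n (τ n u) - ψ (τ n u)‖ - w (τ n u))) u
  rw [Real.dist_eq]
  have hC := toReal_sub_le (by positivity) hA
  have hD := toReal_sub_le (by positivity) hB
  unfold tst
  rw [abs_lt]
  constructor <;> linarith

end Pool.Agent.W845.Traps
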