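import Pool.Agent.W845.Kernel

/-! Elementary estimates of sums. -/

set_option autoImplicit false

namespace Pool.Agent.W845.Traps

open MeasureTheory ProbabilityTheory Filter Topology
open scoped ENNReal NNReal

/-- `s ↦ s^(-3/2)` -/
noncomputable def bb (s : ℝ) : ℝ := 1 / (s * √s)

theorem bb_nonneg {s : ℝ} (hs : 0 ≤ s) : 0 ≤ bb s := by unfold bb; positivity

theorem bb_step {a b : ℝ} (ha : 0 < a) (hab : a ≤ b) :
    (b - a) * bb b ≤ 2 * (1 / √a - 1 / √b) := by
  have hb : 0 < b := lt_of_lt_of_le ha hab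
  have hx : 0 < √a := Real.sqrt_pos.2 ha
  have hy : 0 < √b := Real.sqrt_pos.2 hb
  have hxy : √a ≤ √b := Real.sqrt_le_sqrt hab
  have ea : a = √a * √a := (Real.mul_self_sqrt ha.le).symm
  have eb : b = √b * √b := (Real.mul_self_sqrt hb.le).symm
  unfold bb
  generalize √a = x at *
  generalize √b = y at *
  subst ea eb
  rw [div_sub_div _ _ hx.ne' hy.ne', mul_one_div, ← mul_div_assoc,
    div_le_div_iff₀ (by positivity) (by positivity)]
  have h1 : 0 ≤ y - x := by linarith
  have h2 : (y + x) * x ≤ 2 * (y * y) := by nlinarith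
  have h3 : 0 ≤ (y - x) * y := by positivity
  nlinarith [mul_le_mul_of_nonneg_left h2 h3]

theorem sqrt_step {a b : ℝ} (ha : 0 ≤ a) (hab : a ≤ b) (hb : 0 < b) :
    (b - a) * (1 / √b) ≤ 2 * (√b - √a) := by
  have hx : 0 ≤ √a := Real.sqrt_nonneg _
  have hy : 0 < √b := Real.sqrt_pos.2 hb
  have hxy : √a ≤ √b := Real.sqrt_le_sqrt hab
  have ea : a = √a * √a := (Real.mul_self_sqrt ha).symm
  have eb : b = √b * √b := (Real.mul_self_sqrt hb.le).symm
  generalize √a = x at *
  generalize √b = y at *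
  subst ea eb
  rw [mul_one_div, div_le_iff₀ hy]
  nlinarith

theorem sum_bb {h : ℝ} (hh : 0 < h) (s : ℝ) (hs : 0 < s) (n : ℕ) :
    ∑ j ∈ Finset.range n, h * bb (s + (j + 1) * h) ≤ 2 / √s := by
  have key : ∑ j ∈ Finset.range n, h * bb (s + (j + 1) * h) ≤
      2 * (1 / √s - 1 / √(s + n * h)) := by
    induction n with
    | zero => simp
    | succ n ih =>
      rw [Finset.sum_range_succ]
      have h1 := bb_step (a := s + n * h) (b := s + (n + 1) * h) (by positivity) (by nlinarith)
      have e : s + (n + 1) * h - (s + n * h) = h := by ring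
      rw [e] at h1
      push_cast
      linarith
  have h2 : 0 ≤ 1 / √(s + n * h) := by positivity
  have e : (2 : ℝ) / √s = 2 * (1 / √s) := by ring
  rw [e]
  linarith

theorem sum_sqrt {h : ℝ} (hh : 0 < h) (n : ℕ) :
    ∑ j ∈ Finset.range n, h * (1 / √((j + 1) * h)) ≤ 2 * √(n * h) := by
  induction n with
  | zero => simp
  | succ n ih =>
    rw [Finset.sum_range_succ]
    have h1 := sqrt_step (a := n * h) (b := (n + 1) * h) (by positivity) (by nlinarith)
      (by positivity)
    have e : ((n : ℝ) + 1) * h - n * h = h := by ring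
    rw [e] at h1
    push_cast
    linarith

/-- the basic double sum -/
theorem double_sum {h : ℝ} (hh : 0 < h) (I n : ℕ) :
    ∑ i ∈ Finset.range I, ∑ j ∈ Finset.range n, h * h * bb ((i + (j + 1 : ℕ) : ℕ) * h) ≤
      3 * √h + 4 * √(I * h) := by
  have hsq : 0 < √h := Real.sqrt_pos.2 hh
  have hz : ∀ n : ℕ, ∑ j ∈ Finset.range n, h * h * bb ((0 + (j + 1 : ℕ) : ℕ) * h) ≤ 3 * √h := by
    intro n
    rcases n with _ | n
    · simp
    rw [Finset.sum_range_succ']
    have h1 := sum_bb hh h hh n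
    have h2 : ∑ j ∈ Finset.range n, h * h * bb ((0 + (j + 1 + 1 : ℕ) : ℕ) * h) =
        h * ∑ j ∈ Finset.range n, h * bb (h + (j + 1) * h) := by
      rw [Finset.mul_sum]
      refine Finset.sum_congr rfl fun j _ => ?_
      rw [mul_assoc]
      congr 3
      push_cast; ring
    have h3 : h * h * bb ((0 + (0 + 1 : ℕ) : ℕ) * h) = √h := by
      unfold bb
      simp only [zero_add, Nat.cast_one, one_mul]
      rw [mul_one_div, mul_div_mul_left _ _ hh.ne']
      exact Real.div_sqrt
    rw [h2, h3]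
    have h4 : h * (2 / √h) = 2 * √h := by
      rw [← mul_div_assoc, mul_comm h 2, mul_div_assoc, Real.div_sqrt]
    have := mul_le_mul_of_nonneg_left h1 hh.le
    linarith
  rcases I with _ | I
  · simp
  rw [Finset.sum_range_succ']
  have h5 : ∑ i ∈ Finset.range I, ∑ j ∈ Finset.range n,
      h * h * bb (((i + 1 : ℕ) + (j + 1 : ℕ) : ℕ) * h) ≤ 4 * √((I + 1 : ℕ) * h) := by
    calc _ ≤ ∑ i ∈ Finset.range I, h * (2 / √((i + 1) * h)) := by
          refine Finset.sum_le_sum fun i _ => ?_
          have h6 := sum_bb hh ((i + 1) * h) (by positivity) n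
          have h7 : ∑ j ∈ Finset.range n, h * h * bb (((i + 1 : ℕ) + (j + 1 : ℕ) : ℕ) * h) =
              h * ∑ j ∈ Finset.range n, h * bb ((i + 1) * h + (j + 1) * h) := by
            rw [Finset.mul_sum]
            refine Finset.sum_congr rfl fun j _ => ?_
            rw [mul_assoc]
            congr 3
            push_cast; ring
          rw [h7]
          exact mul_le_mul_of_nonneg_left h6 hh.le
      _ = 2 * ∑ i ∈ Finset.range I, h * (1 / √((i + 1) * h)) := by
          rw [Finset.mul_sum]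
          refine Finset.sum_congr rfl fun i _ => ?_
          ring
      _ ≤ 2 * (2 * √(I * h)) := by gcongr; exact sum_sqrt hh I
      _ ≤ 4 * √((I + 1 : ℕ) * h) := by
          have : √(I * h) ≤ √((I + 1 : ℕ) * h) := by
            apply Real.sqrt_le_sqrt
            push_cast
            nlinarith
          linarith
  have h8 := hz n
  push_cast at h5 h8 ⊢
  linarith

/-- a bound for the kernel which is summable near time zero -/
theorem gk_upper' (ρ : ℝ≥0) (hρ : 0 < ρ) : ∃ C : ℝ, 0 < C ∧ ∀ (s : ℝ≥0) (v : Fin 3 → ℤ),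
    gk ρ s v ≤ ENNReal.ofReal (C * bb (1 + s)) := by
  obtain ⟨C, hC, h⟩ := gk_upper ρ hρ
  refine ⟨(1 + C) * (2 * √2), by positivity, fun s v => ?_⟩
  have hs0 : (0 : ℝ) ≤ s := s.2
  rcases le_total (s : ℝ) 1 with h1 | h1
  · refine (gk_le_one ρ s v).trans ?_
    rw [ENNReal.one_le_ofReal]
    have h2 : (1 + (s : ℝ)) * √(1 + s) ≤ 2 * √2 := by
      have : √(1 + (s : ℝ)) ≤ √2 := Real.sqrt_le_sqrt (by linarith)
      have h0 : 0 ≤ √(1 + (s : ℝ)) := Real.sqrt_nonneg _
      have h02 : 0 ≤ √(2 : ℝ) := Real.sqrt_nonneg _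
      nlinarith
    have h3 : 0 < (1 + (s : ℝ)) * √(1 + s) := by positivity
    have h4 : 1 ≤ 2 * √2 * bb (1 + s) := by
      unfold bb
      rw [mul_one_div, le_div_iff₀ h3]
      linarith
    calc (1 : ℝ) ≤ 2 * √2 * bb (1 + s) := h4
      _ ≤ (1 + C) * (2 * √2 * bb (1 + s)) := by nlinarith
      _ = _ := by ring
  · have hs : 0 < s := by
      have : (0 : ℝ) < s := by linarith
      exact_mod_cast this
    refine (h s v hs).trans (ENNReal.ofReal_le_ofReal ?_)
    have hs' : (0 : ℝ) < s := by exact_mod_cast hs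
    have h2 : (1 + (s : ℝ)) * √(1 + s) ≤ 2 * √2 * (s * √s) := by
      have h5 : √(1 + (s : ℝ)) ≤ √2 * √s := by
        rw [← Real.sqrt_mul (by norm_num)]
        exact Real.sqrt_le_sqrt (by linarith)
      calc (1 + (s : ℝ)) * √(1 + s) ≤ (2 * s) * (√2 * √s) := by
            gcongr; linarith
        _ = _ := by ring
    have h3 : 0 < (1 + (s : ℝ)) * √(1 + s) := by positivity
    have h4 : 1 / (s * √s : ℝ) ≤ 2 * √2 * bb (1 + s) := by
      unfold bb
      rw [mul_one_div, div_le_div_iff₀ (by positivity) h3]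
      linarith
    calc C / (s * √(s : ℝ)) = C * (1 / (s * √s : ℝ)) := by ring
      _ ≤ (1 + C) * (2 * √2 * bb (1 + s)) := by
        apply mul_le_mul (by linarith) h4 (by positivity) (by linarith)
      _ = _ := by ring

end Pool.Agent.W845.Traps
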