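import Pool.Agent.W845.Half

/-! Consequences of the definition of the walk, on a grid. -/

set_option autoImplicit false
set_option linter.unusedSectionVars false

namespace Pool.Agent.W845.Traps

open MeasureTheory ProbabilityTheory Filter Topology
open scoped ENNReal NNReal

universe u

section

variable {Ω : Type u} [MeasurableSpace Ω] {P : Measure Ω} [IsProbabilityMeasure P] {κ : ℝ≥0}
  {X : ℝ≥0 → Ω → Fin 3 → ℤ}

theorem mono_grid (h : ℝ≥0) : Monotone fun k : ℕ => (k : ℝ≥0) * h := by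
  intro a b hab
  simp only
  gcongr

omit [IsProbabilityMeasure P] in
theorem sub_meas (hX : IsWalk P κ X) (s t : ℝ≥0) : Measurable fun ω => X t ω - X s ω :=
  (hX.meas t).sub (hX.meas s)

omit [IsProbabilityMeasure P] in
theorem prob_sub (hX : IsWalk P κ X) {s t : ℝ≥0} (hst : s ≤ t) (v : Fin 3 → ℤ) :
    P {ω | X t ω - X s ω = v} = gk κ (t - s) v := by
  unfold gk
  rw [← hX.law s t hst, Measure.map_apply (sub_meas hX s t) (MeasurableSet.singleton _)]
  rfl

/-- two successive increments -/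
theorem prob_sub_sub (hX : IsWalk P κ X) {r s t : ℝ≥0} (hrs : r ≤ s) (hst : s ≤ t)
    (v v' : Fin 3 → ℤ) :
    P {ω | X s ω - X r ω = v ∧ X t ω - X s ω = v'} = gk κ (s - r) v * gk κ (t - s) v' := by
  have h1 := hX.indep.indepFun_sub_sub hrs hst
  rw [← prob_sub hX hrs, ← prob_sub hX hst]
  have h2 := h1.measure_inter_preimage_eq_mul {v} {v'} (MeasurableSet.singleton _)
    (MeasurableSet.singleton _)
  exact h2

/-- Chapman-Kolmogorov -/
theorem gk_add (hX : IsWalk P κ X) (s r : ℝ≥0) (v : Fin 3 → ℤ) :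
    gk κ (s + r) v = ∑' z, gk κ s z * gk κ r (v - z) := by
  have h0 : (s + r) - 0 = s + r := tsub_zero _
  rw [← h0, ← prob_sub hX (zero_le (a := s + r))]
  have h1 : {ω | X (s + r) ω - X 0 ω = v} =
      ⋃ z, {ω | X s ω - X 0 ω = z ∧ X (s + r) ω - X s ω = v - z} := by
    ext ω
    simp only [Set.mem_ofPred_eq, Set.mem_iUnion, exists_eq_left']
    constructor
    · intro h; rw [← h]; abel
    · intro h
      have : X (s + r) ω - X 0 ω = (X (s + r) ω - X s ω) + (X s ω - X 0 ω) := by abel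
      rw [this, h]; abel
  rw [h1, measure_iUnion]
  · refine tsum_congr fun z => ?_
    rw [prob_sub_sub hX (zero_le (a := s)) (le_add_of_nonneg_right (zero_le (a := r))), tsub_zero,
      add_tsub_cancel_left]
  · intro a b hab
    rw [Function.onFun, Set.disjoint_left]
    rintro ω ⟨h2, _⟩ ⟨h3, _⟩
    exact hab (h2.symm.trans h3)
  · intro z
    exact (measurableSet_eq_fun (sub_meas hX _ _) measurable_const).inter
      (measurableSet_eq_fun (sub_meas hX _ _) measurable_const)

theorem gk_conv (hX : IsWalk P κ X) (s r : ℝ≥0) (x y : Fin 3 → ℤ) :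
    ∑' z, gk κ s (x - z) * gk κ r (y - z) = gk κ (s + r) (y - x) := by
  rw [gk_add hX]
  rw [← (Equiv.addRight x).tsum_eq]
  refine tsum_congr fun z => ?_
  show gk κ s (x - (z + x)) * gk κ r (y - (z + x)) = _
  rw [show x - (z + x) = -z by abel, gk_neg, show y - (z + x) = y - x - z by abel]

/-! ### the law of the increments on a grid -/

/-- extension of a finite sequence by zero -/
def ext {m : ℕ} (a : Fin m → Fin 3 → ℤ) (k : ℕ) : Fin 3 → ℤ := if h : k < m then a ⟨k, h⟩ else 0

/-- increments -/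
def incr (X : ℝ≥0 → Ω → Fin 3 → ℤ) (h : ℝ≥0) (m : ℕ) (ω : Ω) (k : Fin m) : Fin 3 → ℤ :=
  X (((k : ℕ) + 1 : ℕ) * h) ω - X ((k : ℕ) * h) ω

omit [IsProbabilityMeasure P] in
theorem incr_meas (hX : IsWalk P κ X) (h : ℝ≥0) (m : ℕ) : Measurable (incr X h m) :=
  measurable_pi_lambda _ fun _ => sub_meas hX _ _

theorem iIndep_incr (hX : IsWalk P κ X) (h : ℝ≥0) :
    iIndepFun (fun (k : ℕ) ω => X ((k + 1 : ℕ) * h) ω - X (k * h) ω) P :=
  hX.indep.nat (mono_grid h)

theorem incr_law (hX : IsWalk P κ X) (h : ℝ≥0) (m : ℕ) :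
    P.map (incr X h m) = Measure.pi fun _ => stepLaw 3 κ h := by
  have h1 : iIndepFun (fun (k : Fin m) ω => X (((k : ℕ) + 1 : ℕ) * h) ω - X ((k : ℕ) * h) ω) P :=
    (iIndep_incr hX h).precomp Fin.val_injective
  have h2 := (iIndepFun_iff_map_fun_eq_pi_map (fun k : Fin m =>
    (sub_meas hX ((k : ℕ) * h) (((k : ℕ) + 1 : ℕ) * h)).aemeasurable)).1 h1
  unfold incr
  rw [h2]
  congr 1
  funext k
  rw [hX.law _ _ (mono_grid h (Nat.le_succ k))]
  congr 1
  rw [← tsub_mul]
  have : ((k : ℕ) + 1 : ℕ) - ((k : ℕ) : ℝ≥0) = 1 := by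
    push_cast
    exact add_tsub_cancel_left _ _
  rw [this, one_mul]

theorem stepLaw_neg (κ h : ℝ≥0) : (stepLaw 3 κ h).map (fun v => -v) = stepLaw 3 κ h := by
  refine Measure.ext_of_singleton fun v => ?_
  rw [Measure.map_apply measurable_neg (MeasurableSet.singleton _)]
  have : (fun v : Fin 3 → ℤ => -v) ⁻¹' {v} = {-v} := by
    ext w; simp only [Set.mem_preimage, Set.mem_singleton_iff]
    constructor
    · rintro rfl; simp
    · rintro rfl; simp
  rw [this]
  exact gk_neg κ h v

/-- change the sign of the increments in `A` -/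
def flip {m : ℕ} (A : ℕ → Prop) [DecidablePred A] (a : Fin m → Fin 3 → ℤ) (k : Fin m) :
    Fin 3 → ℤ := if A k then -a k else a k

theorem flip_mp (κ h : ℝ≥0) (m : ℕ) (A : ℕ → Prop) [DecidablePred A] :
    MeasurePreserving (flip (m := m) A) (Measure.pi fun _ => stepLaw 3 κ h)
      (Measure.pi fun _ => stepLaw 3 κ h) := by
  have := measurePreserving_pi (fun _ : Fin m => stepLaw 3 κ h) (fun _ : Fin m => stepLaw 3 κ h)
    (f := fun k v => if A k then -v else v) (fun k => by
      by_cases hk : A k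
      · simp only [hk, if_true]
        exact ⟨measurable_neg, stepLaw_neg κ h⟩
      · simp only [hk, if_false]
        exact MeasurePreserving.id _)
  exact this

/-- reflection of the path after step `n` -/
def refl (n : ℕ) (x : ℕ → Fin 3 → ℤ) (k : ℕ) : Fin 3 → ℤ :=
  if k ≤ n then x k else x n + x n - x k

theorem sum_ext_incr (h : ℝ≥0) (m : ℕ) (ω : Ω) (k : ℕ) (hk : k ≤ m) :
    ∑ i ∈ Finset.range k, ext (incr X h m ω) i = X (k * h) ω - X 0 ω := by
  have h1 : ∀ i ∈ Finset.range k, ext (incr X h m ω) i =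
      X ((i + 1 : ℕ) * h) ω - X (i * h) ω := by
    intro i hi
    have : i < m := lt_of_lt_of_le (Finset.mem_range.1 hi) hk
    unfold ext
    rw [dif_pos this]
    rfl
  rw [Finset.sum_congr rfl h1, Finset.sum_range_sub (fun i : ℕ => X (i * h) ω)]
  simp

theorem sum_ext_flip {m : ℕ} (n : ℕ) (a : Fin m → Fin 3 → ℤ) (k : ℕ) (hn : n ≤ m) (hk : k ≤ m) :
    ∑ i ∈ Finset.range k, ext (flip (fun j => n ≤ j) a) i =
      refl n (fun k => ∑ i ∈ Finset.range k, ext a i) k := by
  have h1 : ∀ i < m, ext (flip (fun j => n ≤ j) a) i = if n ≤ i then -ext a i else ext a i := by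
    intro i hi
    unfold ext flip
    simp only [dif_pos hi]
  unfold refl
  by_cases hkn : k ≤ n
  · rw [if_pos hkn]
    refine Finset.sum_congr rfl fun i hi => ?_
    have hi' := Finset.mem_range.1 hi
    rw [h1 i (by omega), if_neg (by omega)]
  · rw [if_neg hkn]
    push Not at hkn
    have h2 : ∀ b : ℕ → Fin 3 → ℤ, ∑ i ∈ Finset.range k, b i =
        ∑ i ∈ Finset.range n, b i + ∑ i ∈ Finset.Ico n k, b i := fun b =>
      (Finset.sum_range_add_sum_Ico b hkn.le).symm
    beta_reduce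
    rw [h2, h2 (ext a)]
    have h3 : ∑ i ∈ Finset.range n, ext (flip (fun j => n ≤ j) a) i =
        ∑ i ∈ Finset.range n, ext a i := by
      refine Finset.sum_congr rfl fun i hi => ?_
      have hi' := Finset.mem_range.1 hi
      rw [h1 i (by omega), if_neg (by omega)]
    have h4 : ∑ i ∈ Finset.Ico n k, ext (flip (fun j => n ≤ j) a) i =
        - ∑ i ∈ Finset.Ico n k, ext a i := by
      rw [← Finset.sum_neg_distrib]
      refine Finset.sum_congr rfl fun i hi => ?_
      have hi' := Finset.mem_Ico.1 hi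
      rw [h1 i (by omega), if_pos hi'.1]
    rw [h3, h4]
    abel

/-- the law of the grid path is invariant under reflection -/
theorem refl_lintegral (hX : IsWalk P κ X) (h : ℝ≥0) (n m : ℕ) (hn : n ≤ m)
    (F : (ℕ → Fin 3 → ℤ) → ℝ≥0∞)
    (hF : ∀ x x' : ℕ → Fin 3 → ℤ, (∀ k ≤ m, x k = x' k) → F x = F x') :
    ∫⁻ ω, F (refl n fun k => X (k * h) ω) ∂P = ∫⁻ ω, F (fun k => X (k * h) ω) ∂P := by
  set G : (Fin m → Fin 3 → ℤ) → ℝ≥0∞ := fun a => F fun k => ∑ i ∈ Finset.range k, ext a i with hG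
  have hGm : Measurable G := measurable_of_countable _
  have e1 : ∫⁻ ω, F (fun k => X (k * h) ω) ∂P = ∫⁻ a, G a ∂(Measure.pi fun _ => stepLaw 3 κ h) := by
    rw [← incr_law hX h m, lintegral_map hGm (incr_meas hX h m)]
    refine lintegral_congr_ae ?_
    filter_upwards [hX.zero] with ω hω
    apply hF
    intro k hk
    rw [sum_ext_incr h m ω k hk, hω, sub_zero]
  have e2 : ∫⁻ ω, F (refl n fun k => X (k * h) ω) ∂P =
      ∫⁻ a, G (flip (fun j => n ≤ j) a) ∂(Measure.pi fun _ => stepLaw 3 κ h) := by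
    rw [← incr_law hX h m, lintegral_map (measurable_of_countable _) (incr_meas hX h m)]
    refine lintegral_congr_ae ?_
    filter_upwards [hX.zero] with ω hω
    apply hF
    intro k hk
    rw [sum_ext_flip n _ k hn hk]
    unfold refl
    simp only
    split_ifs with hkn
    · rw [sum_ext_incr h m ω k hk, hω, sub_zero]
    · rw [sum_ext_incr h m ω k hk, sum_ext_incr h m ω n hn, hω, sub_zero, sub_zero]
  rw [e1, e2]
  exact (flip_mp κ h m _).lintegral_comp hGm

end

end Pool.Agent.W845.Traps
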